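import Pool.Agent.Lib.MP_106504_lc.Defs

/-!
# Basic facts on the Borel classes and on transfinite differences (MP_106504_lc, part P1)
-/

namespace Pool.Agent.MP106504

open Set Ordinal

set_option linter.unusedSectionVars false
set_option linter.style.haveILetI false
set_option linter.unusedVariables false

section P1
variable {X Y : Type} [TopologicalSpace X] [PolishSpace X] [TopologicalSpace Y] [PolishSpace Y]

theorem IsSigma.one_le {ξ : Ordinal.{0}} {A : Set X} (h : IsSigma ξ A) : 1 ≤ ξ := by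
  cases h with
  | of_isOpen U hU => exact le_rfl
  | iUnion ξ A η h1 h2 h3 => exact h1.le

theorem IsSigma.isOpen {A : Set X} (h : IsSigma 1 A) : IsOpen A := by
  generalize h1 : (1 : Ordinal.{0}) = ξ at h
  cases h with
  | of_isOpen U hU => exact hU
  | iUnion ξ A η h2 h3 h4 => exact absurd h1 h2.ne

theorem IsSigma.exists_of_lt {ξ : Ordinal.{0}} {A : Set X} (h : IsSigma ξ A) (h1 : 1 < ξ) :
    ∃ (B : ℕ → Set X) (η : ℕ → Ordinal.{0}), (∀ n, 1 ≤ η n ∧ η n < ξ) ∧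
      (∀ n, IsPi (η n) (B n)) ∧ A = ⋃ n, B n := by
  cases h with
  | of_isOpen U hU => exact absurd h1 (lt_irrefl _)
  | iUnion ξ A η h2 h3 h4 => exact ⟨A, η, h3, h4, rfl⟩

theorem IsSigma.pi_of_lt {ξ η : Ordinal.{0}} {A : Set X} (h : IsSigma η A) (hlt : η < ξ) :
    IsPi ξ A := by
  have h1 : 1 < ξ := lt_of_le_of_lt h.one_le hlt
  have := IsSigma.iUnion ξ (fun _ : ℕ => Aᶜ) (fun _ => η) h1 (fun _ => ⟨h.one_le, hlt⟩)
    (fun _ => by rwa [compl_compl])
  rwa [iUnion_const] at this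

theorem IsPi.sigma_of_lt {ξ η : Ordinal.{0}} {A : Set X} (h : IsPi η A) (hlt : η < ξ) :
    IsSigma ξ A := by
  have h0 : 1 ≤ η := IsSigma.one_le h
  have h1 : 1 < ξ := lt_of_le_of_lt h0 hlt
  have := IsSigma.iUnion ξ (fun _ : ℕ => A) (fun _ => η) h1 (fun _ => ⟨h0, hlt⟩)
    (fun _ => h)
  rwa [iUnion_const] at this

theorem isSigma_of_isOpen {ξ : Ordinal.{0}} (hξ : 1 ≤ ξ) {A : Set X} (h : IsOpen A) :
    IsSigma ξ A := by
  rcases hξ.eq_or_lt with h1 | h1
  · rw [← h1]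
    exact IsSigma.of_isOpen A h
  · letI := TopologicalSpace.upgradeIsCompletelyMetrizable X
    obtain ⟨F, hF, -, hF2, -⟩ := h.exists_iUnion_isClosed
    rw [← hF2]
    exact IsSigma.iUnion ξ F (fun _ => 1) h1 (fun _ => ⟨le_rfl, h1⟩)
      (fun n => IsSigma.of_isOpen _ (hF n).isOpen_compl)

/-- needs: open sets of a metrizable space are F_sigma -/
theorem IsSigma.mono {ξ η : Ordinal.{0}} {A : Set X} (h : IsSigma η A) (hle : η ≤ ξ) :
    IsSigma ξ A := by
  rcases h.one_le.eq_or_lt with h1 | h1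
  · subst h1
    exact isSigma_of_isOpen hle h.isOpen
  · obtain ⟨B, ζ, h2, h3, rfl⟩ := h.exists_of_lt h1
    exact IsSigma.iUnion ξ B ζ (lt_of_lt_of_le h1 hle)
      (fun n => ⟨(h2 n).1, lt_of_lt_of_le (h2 n).2 hle⟩) h3

theorem IsPi.mono {ξ η : Ordinal.{0}} {A : Set X} (h : IsPi η A) (hle : η ≤ ξ) :
    IsPi ξ A := IsSigma.mono h hle

theorem IsSigma.ciUnion {ι : Type*} [Countable ι] {ξ : Ordinal.{0}} (hξ : 1 ≤ ξ)
    {A : ι → Set X} (h : ∀ i, IsSigma ξ (A i)) : IsSigma ξ (⋃ i, A i) := by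
  rcases hξ.eq_or_lt with h1 | h1
  · subst h1
    exact IsSigma.of_isOpen _ (isOpen_iUnion fun i => (h i).isOpen)
  · rcases isEmpty_or_nonempty ι with he | he
    · rw [iUnion_of_empty]
      exact isSigma_of_isOpen hξ isOpen_empty
    · obtain ⟨e, he⟩ := exists_surjective_nat ι
      choose B ζ h2 h3 h4 using fun i => (h i).exists_of_lt h1
      have : (⋃ i, A i) = ⋃ k : ℕ, B (e k.unpair.1) k.unpair.2 := by
        ext x
        simp only [mem_iUnion]
        constructor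
        · rintro ⟨i, hi⟩
          rw [h4 i] at hi
          obtain ⟨m, hm⟩ := mem_iUnion.1 hi
          obtain ⟨n, rfl⟩ := he i
          exact ⟨Nat.pair n m, by simpa using hm⟩
        · rintro ⟨k, hk⟩
          exact ⟨e k.unpair.1, by rw [h4]; exact mem_iUnion.2 ⟨_, hk⟩⟩
      rw [this]
      exact IsSigma.iUnion ξ _ (fun k => ζ (e k.unpair.1) k.unpair.2) h1 (fun k => h2 _ _)
        (fun k => h3 _ _)

theorem IsPi.ciInter {ι : Type*} [Countable ι] {ξ : Ordinal.{0}} (hξ : 1 ≤ ξ)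
    {A : ι → Set X} (h : ∀ i, IsPi ξ (A i)) : IsPi ξ (⋂ i, A i) := by
  unfold IsPi
  rw [compl_iInter]
  exact IsSigma.ciUnion hξ h

theorem IsSigma.union {ξ : Ordinal.{0}} {A B : Set X} (hA : IsSigma ξ A) (hB : IsSigma ξ B) :
    IsSigma ξ (A ∪ B) := by
  rw [union_eq_iUnion]
  refine IsSigma.ciUnion hA.one_le ?_
  rintro (_ | _)
  · exact hB
  · exact hA

theorem IsPi.inter {ξ : Ordinal.{0}} {A B : Set X} (hA : IsPi ξ A) (hB : IsPi ξ B) :
    IsPi ξ (A ∩ B) := by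
  unfold IsPi
  rw [compl_inter]
  exact IsSigma.union hA hB

theorem IsSigma.inter {ξ : Ordinal.{0}} {A B : Set X} (hA : IsSigma ξ A) (hB : IsSigma ξ B) :
    IsSigma ξ (A ∩ B) := by
  rcases hA.one_le.eq_or_lt with h1 | h1
  · subst h1
    exact IsSigma.of_isOpen _ (hA.isOpen.inter hB.isOpen)
  · obtain ⟨A', a, ha1, ha2, rfl⟩ := hA.exists_of_lt h1
    obtain ⟨B', b, hb1, hb2, rfl⟩ := hB.exists_of_lt h1
    have hEq : (⋃ n, A' n) ∩ (⋃ n, B' n) = ⋃ i, ⋃ j, A' i ∩ B' j := by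
      ext x
      simp only [mem_inter_iff, mem_iUnion]
      exact ⟨fun ⟨⟨i, hi⟩, ⟨j, hj⟩⟩ => ⟨i, j, hi, hj⟩, fun ⟨i, j, hi, hj⟩ => ⟨⟨i, hi⟩, ⟨j, hj⟩⟩⟩
    rw [hEq]
    refine IsSigma.ciUnion h1.le fun i => IsSigma.ciUnion h1.le fun j => ?_
    have h3 : IsPi (max (a i) (b j)) (A' i ∩ B' j) :=
      ((ha2 i).mono (le_max_left _ _)).inter ((hb2 j).mono (le_max_right _ _))
    exact h3.sigma_of_lt (max_lt (ha1 i).2 (hb1 j).2)

theorem IsPi.union {ξ : Ordinal.{0}} {A B : Set X} (hA : IsPi ξ A) (hB : IsPi ξ B) :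
    IsPi ξ (A ∪ B) := by
  unfold IsPi
  rw [compl_union]
  exact IsSigma.inter hA hB

theorem IsSigma.univ {ξ : Ordinal.{0}} (hξ : 1 ≤ ξ) : IsSigma ξ (Set.univ : Set X) :=
  isSigma_of_isOpen hξ isOpen_univ

theorem IsSigma.empty {ξ : Ordinal.{0}} (hξ : 1 ≤ ξ) : IsSigma ξ (∅ : Set X) :=
  isSigma_of_isOpen hξ isOpen_empty

theorem IsPi.univ {ξ : Ordinal.{0}} (hξ : 1 ≤ ξ) : IsPi ξ (Set.univ : Set X) := by
  unfold IsPi
  rw [compl_univ]
  exact IsSigma.empty hξ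

theorem IsPi.empty {ξ : Ordinal.{0}} (hξ : 1 ≤ ξ) : IsPi ξ (∅ : Set X) := by
  unfold IsPi
  rw [compl_empty]
  exact IsSigma.univ hξ

theorem IsSigma.preimage {g : X → Y} (hg : Continuous g) {ξ : Ordinal.{0}} {A : Set Y}
    (h : IsSigma ξ A) : IsSigma ξ (g ⁻¹' A) := by
  induction h with
  | of_isOpen U hU => exact IsSigma.of_isOpen _ (hU.preimage hg)
  | iUnion ξ A η h1 h2 h3 ih =>
    rw [preimage_iUnion]
    exact IsSigma.iUnion ξ _ η h1 h2 fun n => by
      rw [← preimage_compl]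
      exact ih n

theorem IsPi.preimage {g : X → Y} (hg : Continuous g) {ξ : Ordinal.{0}} {A : Set Y}
    (h : IsPi ξ A) : IsPi ξ (g ⁻¹' A) := by
  unfold IsPi
  rw [← preimage_compl]
  exact IsSigma.preimage hg h

theorem IsSigma.measurableSet [MeasurableSpace X] [BorelSpace X] {ξ : Ordinal.{0}} {A : Set X}
    (h : IsSigma ξ A) : MeasurableSet A := by
  induction h with
  | of_isOpen U hU => exact hU.measurableSet
  | iUnion ξ A η h1 h2 h3 ih => exact MeasurableSet.iUnion fun n => (ih n).of_compl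

theorem IsPi.measurableSet [MeasurableSpace X] [BorelSpace X] {ξ : Ordinal.{0}} {A : Set X}
    (h : IsPi ξ A) : MeasurableSet A := (IsSigma.measurableSet h).of_compl

theorem IsSigma.biInter_lt {ξ : Ordinal.{0}} (hξ : 1 ≤ ξ) {A : ℕ → Set X}
    (h : ∀ n, IsSigma ξ (A n)) (n : ℕ) : IsSigma ξ (⋂ m, ⋂ (_ : m < n), A m) := by
  induction n with
  | zero => simpa using IsSigma.univ hξ
  | succ n ih =>
    have : (⋂ m, ⋂ (_ : m < n + 1), A m) = (⋂ m, ⋂ (_ : m < n), A m) ∩ A n := by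
      ext x
      simp only [mem_iInter, mem_inter_iff, Nat.lt_succ_iff_lt_or_eq]
      constructor
      · intro hx
        exact ⟨fun i hi => hx i (Or.inl hi), hx n (Or.inr rfl)⟩
      · rintro ⟨h1, h2⟩ i (hi | rfl)
        · exact h1 i hi
        · exact h2
    rw [this]
    exact ih.inter (h n)

/-- Sigma^0_ξ reduction in the form of a Delta^0_ξ partition (2 ≤ ξ) -/
theorem IsSigma.partition {ξ : Ordinal.{0}} (hξ : 2 ≤ ξ) {U V : Set X} (hU : IsSigma ξ U)
    (hV : IsSigma ξ V) (h : U ∪ V = Set.univ) :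
    ∃ E : Set X, IsDelta ξ E ∧ E ⊆ U ∧ Eᶜ ⊆ V := by
  have h1 : (1 : Ordinal.{0}) < ξ := lt_of_lt_of_le one_lt_two hξ
  obtain ⟨U', a, ha1, ha2, rfl⟩ := hU.exists_of_lt h1
  obtain ⟨V', b, hb1, hb2, rfl⟩ := hV.exists_of_lt h1
  have hcov : ∀ x, ∃ n, x ∈ U' n ∨ x ∈ V' n := by
    intro x
    have hx : x ∈ (⋃ n, U' n) ∪ ⋃ n, V' n := by rw [h]; trivial
    rcases hx with hx | hx
    · obtain ⟨n, hn⟩ := mem_iUnion.1 hx
      exact ⟨n, Or.inl hn⟩
    · obtain ⟨n, hn⟩ := mem_iUnion.1 hx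
      exact ⟨n, Or.inr hn⟩
  have hcompl : (⋃ n, (U' n ∩ ⋂ m, ⋂ (_ : m < n), (V' m)ᶜ))ᶜ =
      ⋃ n, (V' n ∩ ⋂ m, ⋂ (_ : m < n + 1), (U' m)ᶜ) := by
    classical
    ext x
    simp only [mem_compl_iff, mem_iUnion, mem_inter_iff, mem_iInter, not_exists, not_and]
    constructor
    · intro hx
      have hn := Nat.find_spec (hcov x)
      have hmin := fun m (hm : m < Nat.find (hcov x)) => Nat.find_min (hcov x) hm
      have hnU : x ∉ U' (Nat.find (hcov x)) := by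
        intro hU
        exact hx _ hU fun m hm hV => hmin m hm (Or.inr hV)
      refine ⟨Nat.find (hcov x), hn.resolve_left hnU, fun m hm => ?_⟩
      rcases Nat.lt_succ_iff_lt_or_eq.1 hm with hm | rfl
      · exact fun hU => hmin m hm (Or.inl hU)
      · exact hnU
    · rintro ⟨n, hn, hn2⟩ k hk hk2
      by_cases hkn : k < n + 1
      · exact hn2 k hkn hk
      · exact hk2 n (by omega) hn
  refine ⟨⋃ n, (U' n ∩ ⋂ m, ⋂ (_ : m < n), (V' m)ᶜ), ⟨?_, ?_⟩, ?_, ?_⟩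
  · refine IsSigma.ciUnion h1.le fun n => ?_
    exact ((ha2 n).sigma_of_lt (ha1 n).2).inter
      (IsSigma.biInter_lt h1.le (fun m => (IsSigma.mono (hb2 m) (hb1 m).2.le)) n)
  · unfold IsPi
    rw [hcompl]
    refine IsSigma.ciUnion h1.le fun n => ?_
    exact ((hb2 n).sigma_of_lt (hb1 n).2).inter
      (IsSigma.biInter_lt h1.le (fun m => (IsSigma.mono (ha2 m) (ha1 m).2.le)) (n + 1))
  · exact iUnion_mono fun n => inter_subset_left
  · rw [hcompl]
    exact iUnion_mono fun n => inter_subset_left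

theorem evenOrd_mul_add (μ : Ordinal.{0}) (n : ℕ) : EvenOrd (ω * μ + n) ↔ Even n := by
  constructor
  · rintro ⟨ν, m, h⟩
    have h1 : (ω * μ + (n : Ordinal.{0})) % ω = n := by
      rw [Ordinal.mul_add_mod_self, Ordinal.mod_eq_of_lt (Ordinal.natCast_lt_omega0 n)]
    have h2 : (ω * ν + 2 * (m : Ordinal.{0})) % ω = ((2 * m : ℕ) : Ordinal.{0}) := by
      have : (2 * (m : Ordinal.{0})) = ((2 * m : ℕ) : Ordinal.{0}) := by push_cast; rfl
      rw [this, Ordinal.mul_add_mod_self, Ordinal.mod_eq_of_lt (Ordinal.natCast_lt_omega0 _)]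
    rw [h, h2] at h1
    have h3 : 2 * m = n := by exact_mod_cast h1
    exact ⟨m, by omega⟩
  · rintro ⟨m, rfl⟩
    exact ⟨μ, m, by
      have : ((m + m : ℕ) : Ordinal.{0}) = ((2 * m : ℕ) : Ordinal.{0}) := by rw [two_mul]
      rw [this]
      push_cast
      rfl⟩

theorem exists_eq_omega_mul_add (η : Ordinal.{0}) : ∃ (μ : Ordinal.{0}) (n : ℕ),
    η = ω * μ + n := by
  obtain ⟨n, hn⟩ := Ordinal.lt_omega0.1 (Ordinal.mod_lt η Ordinal.omega0_ne_zero)
  exact ⟨η / ω, n, by rw [← hn, Ordinal.div_add_mod]⟩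

theorem evenOrd_zero : EvenOrd 0 := ⟨0, 0, by simp⟩

theorem evenOrd_succ {η : Ordinal.{0}} : EvenOrd (η + 1) ↔ ¬ EvenOrd η := by
  obtain ⟨μ, n, rfl⟩ := exists_eq_omega_mul_add η
  have : ω * μ + (n : Ordinal.{0}) + 1 = ω * μ + ((n + 1 : ℕ) : Ordinal.{0}) := by
    push_cast
    rw [add_assoc]
  rw [this, evenOrd_mul_add, evenOrd_mul_add, Nat.even_add_one]

theorem evenOrd_limit {η : Ordinal.{0}} (h : Order.IsSuccLimit η) : EvenOrd η := by
  obtain ⟨μ, n, rfl⟩ := exists_eq_omega_mul_add η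
  rw [evenOrd_mul_add]
  rcases n with _ | n
  · exact Even.zero
  · exfalso
    have : ω * μ + ((n + 1 : ℕ) : Ordinal.{0}) = Order.succ (ω * μ + (n : Ordinal.{0})) := by
      rw [Order.succ_eq_add_one]
      push_cast
      rw [add_assoc]
    rw [this] at h
    exact Order.not_isSuccLimit_succ _ h

theorem ContSeq.preimage {g : X → Y} (hg : Continuous g) {ξ lam : Ordinal.{0}}
    {F : Ordinal.{0} → Set Y} (h : ContSeq ξ lam F) :
    ContSeq ξ lam (fun η => g ⁻¹' (F η)) where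
  pi η hη := (h.pi η hη).preimage hg
  zero h0 := by rw [h.zero h0, preimage_univ]
  anti η θ h1 h2 := preimage_mono (h.anti η θ h1 h2)
  lim η h1 h2 := by
    rw [h.lim η h1 h2]
    simp only [preimage_iInter]

theorem tdiff_preimage (g : X → Y) (lam : Ordinal.{0}) (F : Ordinal.{0} → Set Y) :
    tdiff lam (fun η => g ⁻¹' (F η)) = g ⁻¹' (tdiff lam F) := rfl

theorem IsDiff.preimage {g : X → Y} (hg : Continuous g) {ξ lam : Ordinal.{0}}
    {D : Set Y} (h : IsDiff ξ lam D) : IsDiff ξ lam (g ⁻¹' D) := by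
  obtain ⟨F, hF, rfl⟩ := h
  exact ⟨_, hF.preimage hg, (tdiff_preimage g lam F).symm⟩

/-- membership in `tdiff` by the first level left by `x` -/
theorem mem_tdiff_iff {ξ lam : Ordinal.{0}} {F : Ordinal.{0} → Set X} (h : ContSeq ξ lam F)
    {x : X} {η : Ordinal.{0}} (hη : η < lam) (hη' : η + 1 < lam) (h1 : x ∈ F η)
    (h2 : x ∉ F (η + 1)) : x ∈ tdiff lam F ↔ EvenOrd η := by
  constructor
  · rintro ⟨θ, hθ, he, h3, h4⟩
    rcases lt_trichotomy θ η with hlt | heq | hgt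
    · exact absurd (h.anti (θ + 1) η (Order.add_one_le_of_lt hlt) hη h1) h4
    · rwa [← heq]
    · exact absurd (h.anti (η + 1) θ (Order.add_one_le_of_lt hgt) hθ h3) h2
  · intro he
    exact ⟨η, hη, he, h1, h2⟩

/-- either x is in all F η (η<lam) or there is a unique level -/
theorem ContSeq.exists_level {ξ lam : Ordinal.{0}} {F : Ordinal.{0} → Set X}
    (h : ContSeq ξ lam F) (hlam : Order.IsSuccLimit lam) (x : X) :
    (∀ η < lam, x ∈ F η) ∨ ∃ η < lam, x ∈ F η ∧ x ∉ F (η + 1) := by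
  by_cases hx : ∀ η < lam, x ∈ F η
  · exact Or.inl hx
  · right
    push Not at hx
    have hne : {η : Ordinal.{0} | η < lam ∧ x ∉ F η}.Nonempty := hx
    have hmem := csInf_mem hne
    set θ := sInf {η : Ordinal.{0} | η < lam ∧ x ∉ F η} with hθ
    have hmin : ∀ η < θ, x ∈ F η := by
      intro η hη
      by_contra hc
      exact (notMem_of_lt_csInf' hη) ⟨hη.trans hmem.1, hc⟩
    rcases Ordinal.zero_or_succ_or_isSuccLimit θ with h0 | ⟨η, hη⟩ | hlim
    · exfalso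
      apply hmem.2
      rw [h0, h.zero (lt_of_le_of_lt zero_le hmem.1)]
      trivial
    · rw [Order.succ_eq_add_one] at hη
      have hlt : η < θ := by rw [← hη]; exact Order.lt_add_one_iff.2 le_rfl
      exact ⟨η, hlt.trans hmem.1, hmin η hlt, by rw [hη]; exact hmem.2⟩
    · exfalso
      apply hmem.2
      rw [h.lim θ hmem.1 hlim]
      exact mem_iInter.2 fun η => mem_iInter.2 fun hη => hmin η hη

end P1

end Pool.Agent.MP106504
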