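import Pool.Agent.Lib.MP_106504_lc.Cover

/-!
# Unraveling a closed set (Martin; Kechris 20.C)
-/

namespace Pool.Agent.MP106504

open PiNat

theorem exists_cons_suffix {M : Type} {t u : List M} (h : t <:+ u) (hne : t ≠ u) :
    ∃ a, a :: t <:+ u := by
  obtain ⟨w, rfl⟩ := h
  rcases List.eq_nil_or_concat w with rfl | ⟨w', a, rfl⟩
  · simp at hne
  · exact ⟨a, ⟨w', by simp⟩⟩

theorem suffix_eq_of_length {M : Type} {s t u : List M} (hs : s <:+ u) (ht : t <:+ u)
    (h : s.length = t.length) : s = t := by
  exact (List.suffix_of_suffix_length_le hs ht h.le).eq_of_length h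

theorem res_suffix {M : Type} (x : ℕ → M) {m n : ℕ} (h : m ≤ n) : res x m <:+ res x n := by
  induction n, h using Nat.le_induction with
  | base => exact List.suffix_rfl
  | succ n _ ih => exact ih.trans (List.suffix_cons _ _)

theorem suffix_res {M : Type} {x : ℕ → M} {n : ℕ} {s : List M} (h : s <:+ res x n) :
    s = res x s.length := by
  have h1 : s.length ≤ n := by
    have := h.length_le
    rwa [res_length] at this
  exact suffix_eq_of_length h (res_suffix x h1) (by rw [res_length])

section Defs

variable {M : Type} (T : GTree M) (TX : Set (List M)) (k : ℕ)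

/-- `Y` is (above `t`) a quasi-strategy of player `p` in `R`. -/
structure Quasi (p : ℕ) (R : Set (List M)) (t : List M) (Y : Set (List M)) : Prop where
  root : t ∈ Y
  sub : Y ⊆ R
  own : ∀ s ∈ Y, t <:+ s → s.length % 2 = p → ∃ a, a :: s ∈ Y
  opp : ∀ s ∈ Y, t <:+ s → s.length % 2 ≠ p → ∀ a, a :: s ∈ R → a :: s ∈ Y

/-- positions of `T` compatible with `u` -/
def compat (u : List M) : Set (List M) := {v | v ∈ T.mem ∧ (v <:+ u ∨ u <:+ v)}

/-- player `1` announces a position `u` outside of `TX` -/
def Opt1 (R : Set (List M)) (t : List M) (Y : Set (List M)) : Prop :=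
  ∃ u, t <:+ u ∧ u ∈ R ∧ u ∈ T.mem ∧ u ∉ TX ∧ Y = compat T u

/-- player `1` announces a quasi-strategy staying in `TX` -/
def Opt2 (R : Set (List M)) (t : List M) (Y : Set (List M)) : Prop :=
  Quasi 1 R t Y ∧ ∀ v ∈ Y, t <:+ v → v ∈ TX

/-- the rule for the annotations -/
def Rule (n : ℕ) (t : List M) (S Y : Set (List M)) : Prop :=
  (n = 2 * k → Quasi 0 S t Y) ∧
  (n = 2 * k + 1 → Opt1 T TX S t Y ∨ Opt2 TX S t Y) ∧
  (n ≠ 2 * k → n ≠ 2 * k + 1 → Y = S)

/-- the current constraint -/
def st : List (M × Set (List M)) → Set (List M)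
  | [] => T.mem
  | c :: _ => c.2

/-- legal positions of the auxiliary game -/
def Pos : List (M × Set (List M)) → Prop
  | [] => True
  | c :: s => Pos s ∧ (c.1 :: s.map Prod.fst) ∈ st T s ∧
      Rule T TX k s.length (c.1 :: s.map Prod.fst) (st T s) c.2

/-- invariants of the legal positions -/
structure Good (t : List M) (S : Set (List M)) : Prop where
  low : t.length ≤ 2 * k → S = T.mem
  mid : t.length = 2 * k + 1 → Quasi 0 T.mem t S
  high : 2 * k + 2 ≤ t.length → ∃ a t0 Q, (a :: t0) <:+ t ∧ t0.length = 2 * k + 1 ∧
    Quasi 0 T.mem t0 Q ∧ a :: t0 ∈ Q ∧ (Opt1 T TX Q (a :: t0) S ∨ Opt2 TX Q (a :: t0) S)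
  memT : t ∈ T.mem
  memS : t ∈ S
  sub : S ⊆ T.mem

end Defs

section Lemmas

variable {M : Type} {T : GTree M} {TX : Set (List M)} {k : ℕ}

theorem good_of_pos {s : List (M × Set (List M))} (h : Pos T TX k s) :
    Good T TX k (s.map Prod.fst) (st T s) := by
  induction s with
  | nil =>
    exact ⟨fun _ => rfl, fun h => by simp at h, fun h => by simp at h, T.nil_mem, T.nil_mem,
      subset_rfl⟩
  | cons c s ih =>
    obtain ⟨h1, h2, h3⟩ := h
    have g := ih h1
    have hT : c.1 :: s.map Prod.fst ∈ T.mem := g.sub h2
    have hlen : (s.map Prod.fst).length = s.length := List.length_map _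
    rcases lt_trichotomy s.length (2 * k) with hlt | heq | hgt
    · have hY : c.2 = st T s := h3.2.2 (by omega) (by omega)
      have hS : st T s = T.mem := g.low (by omega)
      have hc : c.2 = T.mem := hY.trans hS
      refine ⟨fun _ => hc, fun h => ?_, fun h => ?_, hT, ?_, ?_⟩
      · simp only [List.map_cons, List.length_cons, hlen] at h; omega
      · simp only [List.map_cons, List.length_cons, hlen] at h; omega
      · change _ ∈ c.2
        rw [hc]; exact hT
      · change c.2 ⊆ _
        rw [hc]
    · have hQ := h3.1 heq
      have hS : st T s = T.mem := g.low (by omega)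
      rw [hS] at hQ
      refine ⟨fun h => ?_, fun _ => hQ, fun h => ?_, hT, hQ.root, hQ.sub⟩
      · simp only [List.map_cons, List.length_cons, hlen] at h; omega
      · simp only [List.map_cons, List.length_cons, hlen] at h; omega
    · by_cases hn : s.length = 2 * k + 1
      · have hO := h3.2.1 hn
        have hQ := g.mid (by omega)
        refine ⟨fun h => ?_, fun h => ?_, fun _ => ?_, hT, ?_, ?_⟩
        · simp only [List.map_cons, List.length_cons, hlen] at h; omega
        · simp only [List.map_cons, List.length_cons, hlen] at h; omega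
        · exact ⟨c.1, s.map Prod.fst, st T s, List.suffix_rfl, by omega, hQ, h2, hO⟩
        · rcases hO with ⟨u, h4, h5, h6, h7, h8⟩ | hO
          · change _ ∈ c.2
            rw [h8]
            exact ⟨hT, Or.inl h4⟩
          · exact hO.1.root
        · rcases hO with ⟨u, h4, h5, h6, h7, h8⟩ | hO
          · change c.2 ⊆ _
            rw [h8]
            exact fun v hv => hv.1
          · exact hO.1.sub.trans g.sub
      · have hY : c.2 = st T s := h3.2.2 (by omega) hn
        have hS := g.high (by omega)
        refine ⟨fun h => ?_, fun h => ?_, fun _ => ?_, hT, ?_, ?_⟩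
        · simp only [List.map_cons, List.length_cons, hlen] at h; omega
        · simp only [List.map_cons, List.length_cons, hlen] at h; omega
        · obtain ⟨a, t0, Q, h4, h5⟩ := hS
          refine ⟨a, t0, Q, h4.trans (List.suffix_cons _ _), ?_⟩
          change _ ∧ _ ∧ _ ∧ (Opt1 T TX Q (a :: t0) c.2 ∨ Opt2 TX Q (a :: t0) c.2)
          rw [hY]
          exact h5
        · change _ ∈ c.2
          rw [hY]
          exact h2
        · change c.2 ⊆ _
          rw [hY]
          exact g.sub

theorem good_ext {t : List M} {S : Set (List M)} (g : Good T TX k t S) :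
    ∃ a Y, a :: t ∈ S ∧ Rule T TX k t.length (a :: t) S Y := by
  rcases lt_trichotomy t.length (2 * k) with hlt | heq | hgt
  · obtain ⟨a, ha⟩ := T.pruned g.memT
    have hS := g.low (by omega)
    exact ⟨a, S, by rw [hS]; exact ha, fun h => by omega, fun h => by omega, fun _ _ => rfl⟩
  · obtain ⟨a, ha⟩ := T.pruned g.memT
    have hS := g.low (by omega)
    refine ⟨a, T.mem, by rw [hS]; exact ha, fun h => ?_, fun h => by omega,
      fun h => absurd heq h⟩
    rw [hS]
    exact ⟨ha, subset_rfl, fun s hs _ _ => T.pruned hs, fun s _ _ _ a ha => ha⟩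
  · by_cases hn : t.length = 2 * k + 1
    · have hQ := g.mid hn
      obtain ⟨a, ha⟩ := T.pruned g.memT
      have haS : a :: t ∈ S := hQ.opp t g.memS List.suffix_rfl (by omega) a ha
      by_cases hu : ∃ u ∈ S, a :: t <:+ u ∧ u ∉ TX
      · obtain ⟨u, hu1, hu2, hu3⟩ := hu
        exact ⟨a, compat T u, haS, fun h => by omega,
          fun _ => Or.inl ⟨u, hu2, hu1, g.sub hu1, hu3, rfl⟩, fun _ h => absurd hn h⟩
      · push Not at hu
        refine ⟨a, S, haS, fun h => by omega, fun _ => Or.inr ⟨⟨haS, subset_rfl, ?_, ?_⟩, ?_⟩,
          fun _ h => absurd hn h⟩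
        · intro s hs hts hp
          obtain ⟨b, hb⟩ := T.pruned (g.sub hs)
          exact ⟨b, hQ.opp s hs ((List.suffix_cons _ _).trans hts) (by omega) b hb⟩
        · intro s _ _ _ b hb
          exact hb
        · intro v hv htv
          exact hu v hv htv
    · obtain ⟨a, t0, Q, h1, h2, hQ, h3, hO⟩ := g.high (by omega)
      have hR : ∀ b, Rule T TX k t.length (b :: t) S S :=
        fun b => ⟨fun h => by omega, fun h => by omega, fun _ _ => rfl⟩
      rcases hO with ⟨u, h4, h5, h6, h7, h8⟩ | hO
      · have hmem := g.memS
        rw [h8] at hmem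
        by_cases htu : u <:+ t
        · obtain ⟨b, hb⟩ := T.pruned g.memT
          refine ⟨b, S, ?_, hR b⟩
          rw [h8]
          exact ⟨hb, Or.inr (htu.trans (List.suffix_cons _ _))⟩
        · have htu' : t <:+ u := hmem.2.resolve_right htu
          obtain ⟨b, hb⟩ := exists_cons_suffix htu' (by rintro rfl; exact htu List.suffix_rfl)
          refine ⟨b, S, ?_, hR b⟩
          rw [h8]
          exact ⟨T.suffix_mem hb h6, Or.inl hb⟩
      · by_cases hp : t.length % 2 = 1
        · obtain ⟨b, hb⟩ := hO.1.own t g.memS h1 hp
          exact ⟨b, S, hb, hR b⟩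
        · obtain ⟨b, hb⟩ := hQ.own t (hO.1.sub g.memS) ((List.suffix_cons _ _).trans h1)
            (by omega)
          exact ⟨b, S, hO.1.opp t g.memS h1 hp b hb, hR b⟩

end Lemmas

section Aux

variable {M : Type} (T : GTree M) (TX : Set (List M)) (k : ℕ)

/-- the auxiliary game tree -/
def aux : GTree (M × Set (List M)) where
  mem := {s | Pos T TX k s}
  nil_mem := trivial
  tail_mem := fun h => h.1
  pruned := by
    intro s hs
    obtain ⟨a, Y, h1, h2⟩ := good_ext (good_of_pos hs)
    rw [List.length_map] at h2
    exact ⟨(a, Y), hs, h1, h2⟩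

variable {T TX k}

theorem aux_cons {c : M × Set (List M)} {s : List (M × Set (List M))} :
    c :: s ∈ (aux T TX k).mem ↔ s ∈ (aux T TX k).mem ∧ (c.1 :: s.map Prod.fst) ∈ st T s ∧
      Rule T TX k s.length (c.1 :: s.map Prod.fst) (st T s) c.2 := Iff.rfl

/-- annotate a low position -/
def low (T : GTree M) (s : List M) : List (M × Set (List M)) := s.map (fun a => (a, T.mem))

theorem low_map (s : List M) : (low T s).map Prod.fst = s := by
  unfold low
  rw [List.map_map]
  exact List.map_id _

theorem st_low (s : List M) : st T (low T s) = T.mem := by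
  cases s <;> rfl

theorem low_mem {s : List M} (hs : s ∈ T.mem) (hk : s.length ≤ 2 * k) :
    low T s ∈ (aux T TX k).mem := by
  induction s with
  | nil => trivial
  | cons a s ih =>
    have h1 : s.length < 2 * k := by simpa using hk
    refine ⟨ih (T.tail_mem hs) h1.le, ?_, ?_⟩
    · change a :: (low T s).map Prod.fst ∈ st T (low T s)
      rw [low_map, st_low]
      exact hs
    · change Rule T TX k (low T s).length _ (st T (low T s)) T.mem
      rw [st_low]
      have h2 : (low T s).length = s.length := List.length_map _
      rw [h2]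
      exact ⟨fun h => by omega, fun h => by omega, fun _ _ => rfl⟩

theorem eq_low {s : List (M × Set (List M))} (hs : s ∈ (aux T TX k).mem)
    (hk : s.length ≤ 2 * k) : s = low T (s.map Prod.fst) := by
  induction s with
  | nil => rfl
  | cons c s ih =>
    have h1 : s.length < 2 * k := by simpa using hk
    have h2 := ih hs.1 h1.le
    have g := good_of_pos hs
    have h3 : c.2 = T.mem := g.low (by rw [List.length_map]; exact hk)
    have h4 : c = (c.1, T.mem) := by rw [← h3]
    change c :: s = (c.1, T.mem) :: low T (s.map Prod.fst)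
    rw [← h2, ← h4]

/-- annotate the moves after the position `l` by the constraint of `l` -/
def ann (T : GTree M) (k : ℕ) (l : List (M × Set (List M))) : List M → List (M × Set (List M))
  | [] => l
  | a :: s => if s.length < 2 * k + 2 then l else (a, st T l) :: ann T k l s

theorem ann_low {l : List (M × Set (List M))} {s : List M} (h : s.length ≤ 2 * k + 2) :
    ann T k l s = l := by
  cases s with
  | nil => rfl
  | cons a s =>
    have : s.length < 2 * k + 2 := by
      simp only [List.length_cons] at h
      omega
    simp [ann, this]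

theorem ann_cons {l : List (M × Set (List M))} {s : List M} {a : M}
    (h : 2 * k + 2 ≤ s.length) : ann T k l (a :: s) = (a, st T l) :: ann T k l s := by
  simp [ann, not_lt.2 h]

theorem st_ann (l : List (M × Set (List M))) (s : List M) : st T (ann T k l s) = st T l := by
  cases s with
  | nil => rfl
  | cons a s =>
    by_cases h : s.length < 2 * k + 2
    · simp [ann, h]
    · simp [ann, h, st]

theorem ann_map {l : List (M × Set (List M))} (hl : l.length = 2 * k + 2) {s : List M}
    (hs : l.map Prod.fst <:+ s) : (ann T k l s).map Prod.fst = s := by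
  induction s with
  | nil =>
    have h1 := List.suffix_nil.mp hs
    have h2 := congrArg List.length h1
    rw [List.length_map, hl] at h2
    simp at h2
  | cons a s ih =>
    rcases List.suffix_cons_iff.mp hs with h1 | h1
    · rw [ann_low (by rw [← h1, List.length_map, hl]), h1]
    · have h2 : 2 * k + 2 ≤ s.length := by
        have := h1.length_le
        rw [List.length_map] at this
        omega
      rw [ann_cons h2, List.map_cons, ih h1]

theorem ann_length {l : List (M × Set (List M))} (hl : l.length = 2 * k + 2) {s : List M}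
    (hs : 2 * k + 2 ≤ s.length) : (ann T k l s).length = s.length := by
  induction s with
  | nil => simp at hs
  | cons a s ih =>
    by_cases h : 2 * k + 2 ≤ s.length
    · rw [ann_cons h, List.length_cons, List.length_cons, ih h]
    · rw [ann_low (by simp only [List.length_cons]; omega), hl]
      simp only [List.length_cons] at hs ⊢
      omega

theorem ann_mem {l : List (M × Set (List M))} (hl : l.length = 2 * k + 2)
    (hlm : l ∈ (aux T TX k).mem) {s : List M} (hs : l.map Prod.fst <:+ s)
    (h : ∀ v, l.map Prod.fst <:+ v → v <:+ s → v ∈ st T l) :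
    ann T k l s ∈ (aux T TX k).mem := by
  induction s with
  | nil => exact hlm
  | cons a s ih =>
    rcases List.suffix_cons_iff.mp hs with h1 | h1
    · rw [ann_low (by rw [← h1, List.length_map, hl])]
      exact hlm
    · have h2 : 2 * k + 2 ≤ s.length := by
        have := h1.length_le
        rw [List.length_map] at this
        omega
      rw [ann_cons h2]
      refine aux_cons.2 ⟨ih h1 (fun v hv hvs => h v hv (hvs.trans (List.suffix_cons _ _))), ?_,
        ?_⟩
      · rw [ann_map hl h1, st_ann]
        exact h _ hs List.suffix_rfl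
      · rw [st_ann, ann_length hl h2]
        exact ⟨fun h => by omega, fun h => by omega, fun _ _ => rfl⟩

end Aux

end Pool.Agent.MP106504
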