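import Pool.Agent.Lib.MP_106504_lc.Closed

/-!
# Unraveling a closed set: transfer of strategies
-/

namespace Pool.Agent.MP106504

open PiNat

/-- A play from a winning position following rank decreasing moves reaches the target. -/
theorem Win.reach' {M : Type} {R S : Set (List M)} {p : ℕ} {x : ℕ → M} {m : ℕ}
    (h : Win R S p (res x m)) (hm : res x m ∈ R)
    (hR : ∀ n, m ≤ n → n % 2 ≠ p → res x n ∈ R → res x (n + 1) ∈ R)
    (hw : ∀ n, m ≤ n → n % 2 = p → res x n ∈ R → Win R S p (res x n) → res x n ∉ S →
      res x (n + 1) ∈ R ∧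
      Win R S p (res x (n + 1)) ∧ wrank R S p (res x (n + 1)) < wrank R S p (res x n)) :
    ∃ n, m ≤ n ∧ res x n ∈ S := by
  by_contra hcon
  push Not at hcon
  have key : ∀ α : Ordinal.{0}, ∀ n, m ≤ n → res x n ∈ R → Win R S p (res x n) →
      wrank R S p (res x n) = α → False := by
    intro α
    induction α using WellFoundedLT.induction with
    | ind α ih =>
      intro n hn hnR hwin hα
      have h2 : res x (n + 1) ∈ R ∧ Win R S p (res x (n + 1)) ∧
          wrank R S p (res x (n + 1)) < wrank R S p (res x n) := by
        by_cases hp : n % 2 = p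
        · exact hw n hn hp hnR hwin (hcon n hn)
        · have h3 : (res x n).length % 2 ≠ p := by rwa [res_length]
          have h4 := hR n hn hp hnR
          exact ⟨h4, hwin.all_opp (hcon n hn) h3 (x n) h4⟩
      exact ih _ (hα ▸ h2.2.2) (n + 1) (by omega) h2.1 h2.2.1 rfl
  exact key _ m le_rfl hm h rfl

theorem drop_res {M : Type} (x : ℕ → M) {m n : ℕ} (h : m ≤ n) :
    (res x n).drop (n - m) = res x m := by
  have h1 : (res x n).drop (n - m) <:+ res x n := List.drop_suffix _ _
  exact suffix_eq_of_length h1 (res_suffix x h) (by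
    rw [List.length_drop, res_length, res_length]; omega)

section Defs

variable {M : Type} (T : GTree M) (TX : Set (List M)) (k p : ℕ)

/-- finite positions consistent with `σ` -/
def ConsL {M' : Type} (p : ℕ) (σ : List M' → M') (l : List M') : Prop :=
  ∀ c r, (c :: r) <:+ l → r.length % 2 = p → c = σ r

/-- the lifted positions of length `2 k + 2` over `t` which are consistent with `σ` -/
def LL (σ : List (M × Set (List M)) → M × Set (List M)) (t : List M) :
    Set (List (M × Set (List M))) :=
  {l | l ∈ (aux T TX k).mem ∧ l.length = 2 * k + 2 ∧ (l.map Prod.fst).drop p = t ∧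
    ConsL p σ l}

open Classical in
/-- the region in which player `p` tries to reach a target -/
noncomputable def RR (σ : List (M × Set (List M)) → M × Set (List M)) (t : List M) :
    Set (List M) :=
  if p = 1 then T.mem else (σ (low T (t.drop 2))).2

/-- `l` announces `u` -/
def O1 (l : List (M × Set (List M))) (u : List M) : Prop :=
  l.map Prod.fst <:+ u ∧ u ∈ T.mem ∧ u ∉ TX ∧ st T l = compat T u

/-- the targets -/
def Tgt (L : Set (List (M × Set (List M)))) : Set (List M) := {u | ∃ l ∈ L, O1 T TX l u}

/-- `l` carries a quasi-strategy avoiding the winning region -/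
def Star (L : Set (List (M × Set (List M)))) (R : Set (List M))
    (l : List (M × Set (List M))) : Prop :=
  ∀ v ∈ st T l, l.map Prod.fst <:+ v → ¬ Win R (Tgt T TX L) p v ∧
    (v.length % 2 ≠ p → ∀ a, a :: v ∈ T.mem →
      a :: v ∈ st T l ∨ (a :: v ∈ R ∧ Win R (Tgt T TX L) p (a :: v)))

/-- `u` is the first target hit by `s` -/
def Hit (L : Set (List (M × Set (List M)))) (s u : List M) : Prop :=
  u <:+ s ∧ u ∈ Tgt T TX L ∧ ∀ v, v <:+ s → v ∈ Tgt T TX L → u.length ≤ v.length

open Classical in
/-- a lifted position announcing `u` -/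
noncomputable def lift1 (L : Set (List (M × Set (List M)))) (u : List M) :
    List (M × Set (List M)) :=
  if h : ∃ l ∈ L, O1 T TX l u then h.choose else []

open Classical in
/-- the core of the transferred strategy -/
noncomputable def core (L : Set (List (M × Set (List M)))) (R : Set (List M))
    (A : List (M × Set (List M)) → M) (d : M) (s : List M) : M :=
  if h : ∃ u, Hit T TX L s u then A (ann T k (lift1 T TX L h.choose) s)
  else if Win R (Tgt T TX L) p s then wmove R (Tgt T TX L) p d s
  else if h2 : ∃ l ∈ L, Star T TX p L R l then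
    (if s.length = 2 * k + 1 then ((h2.choose).map Prod.fst).headD d
      else A (ann T k h2.choose s))
  else d

open Classical in
/-- ask `σ` at a legal position -/
noncomputable def ask (σ : List (M × Set (List M)) → M × Set (List M)) (d : M)
    (r : List (M × Set (List M))) : M :=
  if r ∈ (aux T TX k).mem then (σ r).1 else d

open Classical in
/-- the transferred strategy before making it legal -/
noncomputable def prop (σ : List (M × Set (List M)) → M × Set (List M)) (d : M)
    (s : List M) : M :=
  if s.length < 2 * k + 2 - p then ask T TX k σ d (low T s)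
  else core T TX k p (LL T TX k p σ (s.drop (s.length - (2 * k + 2 - p))))
    (RR T p σ (s.drop (s.length - (2 * k + 2 - p)))) (ask T TX k σ d) d s

end Defs

section Thms

variable {M : Type} {T : GTree M} {TX : Set (List M)} {k p : ℕ}

theorem lift1_spec {L : Set (List (M × Set (List M)))} {u : List M} (h : u ∈ Tgt T TX L) :
    lift1 T TX L u ∈ L ∧ O1 T TX (lift1 T TX L u) u := by
  have h' : ∃ l ∈ L, O1 T TX l u := h
  unfold lift1
  rw [dif_pos h']
  exact h'.choose_spec

theorem Hit.unique {L : Set (List (M × Set (List M)))} {s u v : List M}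
    (hu : Hit T TX L s u) (hv : Hit T TX L s v) : u = v :=
  suffix_eq_of_length hu.1 hv.1
    (le_antisymm (hu.2.2 v hv.1 hv.2.1) (hv.2.2 u hu.1 hu.2.1))

theorem core_congr {L : Set (List (M × Set (List M)))} {R : Set (List M)}
    {A A' : List (M × Set (List M)) → M} {d : M} {s : List M}
    (hL : ∀ l ∈ L, l.length = 2 * k + 2) (hs : 2 * k + 1 ≤ s.length)
    (hA : ∀ r, r.length = s.length → A r = A' r) :
    core T TX k p L R A d s = core T TX k p L R A' d s := by
  classical
  unfold core
  split_ifs with h h1 h2 h3
  · have h4 := lift1_spec h.choose_spec.2.1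
    have h5 : 2 * k + 2 ≤ s.length := by
      have := (h4.2.1.trans h.choose_spec.1).length_le
      rw [List.length_map, hL _ h4.1] at this
      exact this
    exact hA _ (ann_length (hL _ h4.1) h5)
  · rfl
  · rfl
  · exact hA _ (ann_length (hL _ h2.choose_spec.1) (by omega))
  · rfl

theorem low_length (s : List M) : (low T s).length = s.length := List.length_map _

theorem ask_loc {σ τ : List (M × Set (List M)) → M × Set (List M)} {n : ℕ} {d : M}
    (h : ∀ s ∈ (aux T TX k).mem, s.length ≤ n → s.length % 2 = p → σ s = τ s)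
    {r : List (M × Set (List M))} (hn : r.length ≤ n) (hp : r.length % 2 = p) :
    ask T TX k σ d r = ask T TX k τ d r := by
  unfold ask
  split_ifs with h1
  · rw [h r h1 hn hp]
  · rfl

theorem LL_loc {σ τ : List (M × Set (List M)) → M × Set (List M)} {n : ℕ}
    (h : ∀ s ∈ (aux T TX k).mem, s.length ≤ n → s.length % 2 = p → σ s = τ s)
    (hn : 2 * k + 1 ≤ n + p) (hp : p < 2) (hn' : n % 2 = p) (t : List M) :
    LL T TX k p σ t ⊆ LL T TX k p τ t := by
  intro l hl
  obtain ⟨h1, h2, h3, h4⟩ := hl
  refine ⟨h1, h2, h3, ?_⟩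
  intro c r hcr hr
  rw [h4 c r hcr hr]
  have h5 := hcr.length_le
  rw [h2, List.length_cons] at h5
  exact h r ((aux T TX k).suffix_mem ((List.suffix_cons c r).trans hcr) h1) (by omega) hr

theorem prop_loc {σ τ : List (M × Set (List M)) → M × Set (List M)} {n : ℕ} {d : M}
    (hp : p < 2)
    (h : ∀ s ∈ (aux T TX k).mem, s.length ≤ n → s.length % 2 = p → σ s = τ s)
    {s : List M} (hs : s ∈ T.mem) (hn : s.length ≤ n) (hsp : s.length % 2 = p) :
    prop T TX k p σ d s = prop T TX k p τ d s := by
  have h' : ∀ r ∈ (aux T TX k).mem, r.length ≤ s.length → r.length % 2 = p → σ r = τ r :=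
    fun r hr hrs hrp => h r hr (by omega) hrp
  unfold prop
  by_cases hlt : s.length < 2 * k + 2 - p
  · rw [if_pos hlt, if_pos hlt]
    exact ask_loc h' (by rw [low_length]) (by rw [low_length]; exact hsp)
  · rw [if_neg hlt, if_neg hlt]
    set t := s.drop (s.length - (2 * k + 2 - p)) with ht
    have hL : LL T TX k p σ t = LL T TX k p τ t := by
      apply Set.Subset.antisymm
      · exact LL_loc h' (by omega) hp hsp t
      · exact LL_loc (fun r hr hrs hrp => (h' r hr hrs hrp).symm) (by omega) hp hsp t
    have hR : RR T p σ t = RR T p τ t := by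
      unfold RR
      by_cases hp1 : p = 1
      · rw [if_pos hp1, if_pos hp1]
      · rw [if_neg hp1, if_neg hp1]
        have h1 : t.drop 2 <:+ s := (List.drop_suffix _ _).trans (List.drop_suffix _ _)
        have h2 : (t.drop 2).length = 2 * k := by
          rw [List.length_drop, ht, List.length_drop]; omega
        have h3 : low T (t.drop 2) ∈ (aux T TX k).mem :=
          low_mem (T.suffix_mem h1 hs) (by omega)
        rw [h' _ h3 (by rw [low_length]; omega) (by rw [low_length]; omega)]
    rw [hL, hR]
    refine core_congr (fun l hl => hl.2.1) (by omega) ?_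
    intro r hr
    exact ask_loc h' hr.le (by rw [hr]; exact hsp)

/-- the transferred strategy -/
noncomputable def phi (T : GTree M) (TX : Set (List M)) (k : ℕ) (p : ℕ)
    (σ : List (M × Set (List M)) → M × Set (List M)) (s : List M) : M :=
  T.fix (prop T TX k p σ (T.pruned T.nil_mem).choose) s

theorem fix_congr {σ τ : List M → M} {s : List M} (h : σ s = τ s) : T.fix σ s = T.fix τ s := by
  unfold GTree.fix
  rw [h]

theorem phi_loc {σ τ : List (M × Set (List M)) → M × Set (List M)} {n : ℕ}
    (hp : p < 2)
    (h : ∀ s ∈ (aux T TX k).mem, s.length ≤ n → s.length % 2 = p → σ s = τ s)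
    {s : List M} (hs : s ∈ T.mem) (hn : s.length ≤ n) (hsp : s.length % 2 = p) :
    phi T TX k p σ s = phi T TX k p τ s :=
  fix_congr (prop_loc hp h hs hn hsp)

/-- the value of the transferred strategy when the proposal is legal -/
theorem phi_eq {σ : List (M × Set (List M)) → M × Set (List M)} {s : List M} {a : M}
    (h : prop T TX k p σ (T.pruned T.nil_mem).choose s = a) (ha : a :: s ∈ T.mem) :
    phi T TX k p σ s = a := by
  unfold phi
  rw [T.fix_eq _ (by rw [h]; exact ha), h]

theorem ask_eq {σ : List (M × Set (List M)) → M × Set (List M)} {d : M}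
    {r : List (M × Set (List M))} (hr : r ∈ (aux T TX k).mem) :
    ask T TX k σ d r = (σ r).1 := by
  unfold ask
  rw [if_pos hr]

/-- low positions -/
theorem sigma_low {σ : List (M × Set (List M)) → M × Set (List M)}
    (hσ : Legal (aux T TX k) p σ) {s : List M} (hs : s ∈ T.mem) (hk : s.length < 2 * k)
    (hsp : s.length % 2 = p) :
    σ (low T s) = ((σ (low T s)).1, T.mem) ∧ (σ (low T s)).1 :: s ∈ T.mem := by
  have h1 := low_mem (TX := TX) (k := k) hs hk.le
  have h2 := hσ _ h1 (by rw [low_length]; exact hsp)
  rw [aux_cons] at h2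
  obtain ⟨-, h3, h4⟩ := h2
  rw [low_map, st_low] at h3
  refine ⟨?_, h3⟩
  have h5 := h4.2.2 (by rw [low_length]; omega) (by rw [low_length]; omega)
  rw [st_low] at h5
  exact Prod.ext rfl h5

theorem phi_low {σ : List (M × Set (List M)) → M × Set (List M)}
    (hσ : Legal (aux T TX k) p σ) {s : List M} (hs : s ∈ T.mem) (hk : s.length ≤ 2 * k)
    (hk' : s.length < 2 * k + 2 - p)
    (hsp : s.length % 2 = p) : phi T TX k p σ s = (σ (low T s)).1 := by
  have h1 := low_mem (TX := TX) (k := k) hs hk
  have h2 := hσ _ h1 (by rw [low_length]; exact hsp)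
  rw [aux_cons] at h2
  obtain ⟨-, h3, h4⟩ := h2
  rw [low_map, st_low] at h3
  refine phi_eq ?_ h3
  unfold prop
  rw [if_pos hk', ask_eq h1]

end Thms

end Pool.Agent.MP106504
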