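import Pool.Agent.Lib.MP_106504_lc.Closed2

/-!
# Unraveling a closed set: lifting of plays
-/

namespace Pool.Agent.MP106504

open PiNat

section Lift

variable {M : Type} {T : GTree M} {TX : Set (List M)} {k p : ℕ}
  {σ : List (M × Set (List M)) → M × Set (List M)} {x : ℕ → M}

theorem sigma_low_res (hp : p < 2) (hσ : Legal (aux T TX k) p σ) (hx : x ∈ T.plays)
    (hc : Cons p (phi T TX k p σ) x) {m : ℕ} (hm : m < 2 * k) (hmp : m % 2 = p) :
    σ (low T (res x m)) = (x m, T.mem) := by
  have h1 := sigma_low hσ (hx m) (by rw [res_length]; exact hm) (by rw [res_length]; exact hmp)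
  have h2 := phi_low hσ (hx m) (by rw [res_length]; omega) (by rw [res_length]; omega)
    (by rw [res_length]; exact hmp)
  rw [h1.1, ← h2, ← hc m hmp]

theorem low_res_cons (m : ℕ) :
    low T (res x (m + 1)) = (x m, T.mem) :: low T (res x m) := rfl

theorem consL_low (hp : p < 2) (hσ : Legal (aux T TX k) p σ) (hx : x ∈ T.plays)
    (hc : Cons p (phi T TX k p σ) x) {m : ℕ} (hm : m ≤ 2 * k) :
    ConsL p σ (low T (res x m)) := by
  induction m with
  | zero =>
    intro c r hcr
    exact absurd hcr (by simp [low])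
  | succ m ih =>
    intro c r hcr hr
    rw [low_res_cons] at hcr
    rcases List.suffix_cons_iff.mp hcr with h | h
    · obtain ⟨rfl, rfl⟩ := List.cons.inj h
      rw [low_length, res_length] at hr
      exact (sigma_low_res hp hσ hx hc (by omega) hr).symm
    · exact ih (by omega) c r h hr

theorem quasi_zero (hσ : Legal (aux T TX k) 0 σ) (hx : x ∈ T.plays)
    (hc : Cons 0 (phi T TX k 0 σ) x) :
    σ (low T (res x (2 * k))) :: low T (res x (2 * k)) ∈ (aux T TX k).mem ∧
    (σ (low T (res x (2 * k)))).1 = x (2 * k) ∧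
    Quasi 0 T.mem (res x (2 * k + 1)) (σ (low T (res x (2 * k)))).2 := by
  have h1 := low_mem (TX := TX) (k := k) (hx (2 * k)) (by rw [res_length])
  have h2 := hσ _ h1 (by rw [low_length, res_length]; omega)
  have h3 := phi_low hσ (hx (2 * k)) (by rw [res_length]) (by rw [res_length]; omega)
    (by rw [res_length]; omega)
  have h4 : (σ (low T (res x (2 * k)))).1 = x (2 * k) := by
    rw [← h3]; exact (hc (2 * k) (by omega)).symm
  refine ⟨h2, h4, ?_⟩
  have g := good_of_pos h2
  have h5 := g.mid (by rw [List.length_map, List.length_cons, low_length, res_length])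
  rw [List.map_cons, low_map, h4] at h5
  exact h5

theorem RR_facts (hp : p < 2) (hσ : Legal (aux T TX k) p σ) (hx : x ∈ T.plays)
    (hc : Cons p (phi T TX k p σ) x) :
    res x (2 * k + 2 - p) ∈ RR T p σ (res x (2 * k + 2 - p)) ∧
    RR T p σ (res x (2 * k + 2 - p)) ⊆ T.mem ∧
    (∀ v ∈ RR T p σ (res x (2 * k + 2 - p)), res x (2 * k + 2 - p) <:+ v →
      v.length % 2 ≠ p → ∀ a, a :: v ∈ T.mem → a :: v ∈ RR T p σ (res x (2 * k + 2 - p))) := by
  have hp' : p = 0 ∨ p = 1 := by omega
  rcases hp' with rfl | rfl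
  · obtain ⟨h1, h2, h3⟩ := quasi_zero hσ hx hc
    have hR : RR T 0 σ (res x (2 * k + 2 - 0)) = (σ (low T (res x (2 * k)))).2 := by
      unfold RR
      rw [if_neg (by omega)]
      rfl
    rw [hR]
    refine ⟨?_, h3.sub, ?_⟩
    · exact h3.opp _ h3.root List.suffix_rfl (by rw [res_length]; omega) _ (hx (2 * k + 2))
    · intro v hv hv1 hv2 a ha
      exact h3.opp v hv ((res_suffix x (by omega)).trans hv1) hv2 a ha
  · have hR : RR T 1 σ (res x (2 * k + 2 - 1)) = T.mem := by
      unfold RR
      rw [if_pos rfl]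
    rw [hR]
    exact ⟨hx _, subset_rfl, fun v _ _ _ a ha => ha⟩

theorem key_one (hσ : Legal (aux T TX k) 1 σ) (hx : x ∈ T.plays)
    (hc : Cons 1 (phi T TX k 1 σ) x)
    (hW : ¬ Win (RR T 1 σ (res x (2 * k + 1)))
      (Tgt T TX (LL T TX k 1 σ (res x (2 * k + 1)))) 1 (res x (2 * k + 1))) :
    ∃ l ∈ LL T TX k 1 σ (res x (2 * k + 1)),
      Star T TX 1 (LL T TX k 1 σ (res x (2 * k + 1))) (RR T 1 σ (res x (2 * k + 1))) l := by
  have hR : RR T 1 σ (res x (2 * k + 1)) = T.mem := by
    unfold RR
    rw [if_pos rfl]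
  rw [hR] at hW ⊢
  set L := LL T TX k 1 σ (res x (2 * k + 1)) with hL
  set S := Tgt T TX L with hS
  set Y : Set (List M) := {v | v ∈ T.mem ∧ ¬ Win T.mem S 1 v} with hY
  have hlow := low_mem (TX := TX) (k := k) (hx (2 * k)) (by rw [res_length])
  have hQ : Quasi 0 T.mem (res x (2 * k + 1)) Y := by
    refine ⟨⟨hx _, hW⟩, fun v hv => hv.1, ?_, ?_⟩
    · intro v hv _ hp
      obtain ⟨a, ha, ha'⟩ := not_win_opp hv.2 (by omega)
      exact ⟨a, ha, ha'⟩
    · intro v hv _ hp a ha
      exact ⟨ha, not_win_own hv.2 (by omega) a ha⟩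
  set l1 : List (M × Set (List M)) := (x (2 * k), Y) :: low T (res x (2 * k)) with hl1
  have hl1m : l1 ∈ (aux T TX k).mem := by
    rw [hl1, aux_cons]
    refine ⟨hlow, ?_, ?_⟩
    · rw [low_map, st_low]
      exact hx (2 * k + 1)
    · rw [low_map, st_low, low_length, res_length]
      exact ⟨fun _ => hQ, fun h => by omega, fun h => absurd rfl h⟩
  have hl1len : l1.length = 2 * k + 1 := by
    rw [hl1, List.length_cons, low_length, res_length]
  have hl1map : l1.map Prod.fst = res x (2 * k + 1) := by
    rw [hl1, List.map_cons, low_map]; rfl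
  have hl2 := hσ l1 hl1m (by omega)
  have hl2' := aux_cons.1 hl2
  obtain ⟨-, h3, h4⟩ := hl2'
  rw [hl1map] at h3 h4
  have hst : st T l1 = Y := rfl
  rw [hst] at h3 h4
  have hlL : σ l1 :: l1 ∈ L := by
    refine ⟨hl2, by rw [List.length_cons, hl1len], by rw [List.map_cons, hl1map]; rfl, ?_⟩
    intro c r hcr hr
    rcases List.suffix_cons_iff.mp hcr with h | h
    · obtain ⟨rfl, rfl⟩ := List.cons.inj h
      rfl
    · rw [hl1] at h
      rcases List.suffix_cons_iff.mp h with h' | h'
      · obtain ⟨rfl, rfl⟩ := List.cons.inj h'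
        rw [low_length, res_length] at hr
        omega
      · exact consL_low (by omega) hσ hx hc le_rfl c r h' hr
  refine ⟨σ l1 :: l1, hlL, ?_⟩
  have hmap : (σ l1 :: l1).map Prod.fst = (σ l1).1 :: res x (2 * k + 1) := by
    rw [List.map_cons, hl1map]
  rcases h4.2.1 hl1len with ⟨u, h5, h6, h7, h8, h9⟩ | hO
  · exfalso
    refine h6.2 (Win.base ⟨σ l1 :: l1, hlL, ?_, h7, h8, h9⟩)
    rw [hmap]
    exact h5
  · intro v hv hv1
    rw [hmap] at hv1
    have hv' : v ∈ (σ l1).2 := hv
    refine ⟨(hO.1.sub hv').2, ?_⟩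
    intro hvp a ha
    by_cases hcase : a :: v ∈ Y
    · left
      exact hO.1.opp v hv' hv1 hvp a hcase
    · right
      refine ⟨ha, ?_⟩
      by_contra hcon
      exact hcase ⟨ha, hcon⟩

theorem key_zero (hσ : Legal (aux T TX k) 0 σ) (hx : x ∈ T.plays)
    (hc : Cons 0 (phi T TX k 0 σ) x)
    (hW : ¬ Win (RR T 0 σ (res x (2 * k + 2)))
      (Tgt T TX (LL T TX k 0 σ (res x (2 * k + 2)))) 0 (res x (2 * k + 2))) :
    ∃ l ∈ LL T TX k 0 σ (res x (2 * k + 2)),
      Star T TX 0 (LL T TX k 0 σ (res x (2 * k + 2))) (RR T 0 σ (res x (2 * k + 2))) l := by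
  obtain ⟨hl1m, hx1, hQ⟩ := quasi_zero hσ hx hc
  have hR : RR T 0 σ (res x (2 * k + 2)) = (σ (low T (res x (2 * k)))).2 := by
    unfold RR
    rw [if_neg (by omega)]
    rfl
  rw [hR] at hW ⊢
  set Q : Set (List M) := (σ (low T (res x (2 * k)))).2 with hQdef
  set L := LL T TX k 0 σ (res x (2 * k + 2)) with hL
  set S := Tgt T TX L with hS
  set Y : Set (List M) := {v | v ∈ Q ∧ ¬ Win Q S 0 v} with hY
  set l1 : List (M × Set (List M)) := σ (low T (res x (2 * k))) :: low T (res x (2 * k))
    with hl1
  have hl1len : l1.length = 2 * k + 1 := by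
    rw [hl1, List.length_cons, low_length, res_length]
  have hl1map : l1.map Prod.fst = res x (2 * k + 1) := by
    rw [hl1, List.map_cons, low_map, hx1]; rfl
  have hst : st T l1 = Q := rfl
  have hroot : res x (2 * k + 2) ∈ Q :=
    hQ.opp _ hQ.root List.suffix_rfl (by rw [res_length]; omega) _ (hx (2 * k + 2))
  have hcl1 : ConsL 0 σ l1 := by
    intro c r hcr hr
    rw [hl1] at hcr
    rcases List.suffix_cons_iff.mp hcr with h | h
    · obtain ⟨rfl, rfl⟩ := List.cons.inj h
      rfl
    · exact consL_low (by omega) hσ hx hc le_rfl c r h hr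
  -- all admissible annotations give elements of `L`
  have hmk : ∀ Z : Set (List M), (Opt1 T TX Q (res x (2 * k + 2)) Z ∨
      Opt2 TX Q (res x (2 * k + 2)) Z) → (x (2 * k + 1), Z) :: l1 ∈ L := by
    intro Z hZ
    refine ⟨?_, by rw [List.length_cons, hl1len], ?_, ?_⟩
    · rw [aux_cons]
      refine ⟨hl1m, ?_, ?_⟩
      · rw [hl1map, hst]
        exact hroot
      · rw [hl1map, hst, hl1len]
        exact ⟨fun h => by omega, fun _ => hZ, fun _ h => absurd rfl h⟩
    · rw [List.map_cons, hl1map]; rfl
    · intro c r hcr hr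
      rcases List.suffix_cons_iff.mp hcr with h | h
      · obtain ⟨rfl, rfl⟩ := List.cons.inj h
        omega
      · exact hcl1 c r h hr
  have hO : Opt2 TX Q (res x (2 * k + 2)) Y := by
    refine ⟨⟨⟨hroot, hW⟩, fun v hv => hv.1, ?_, ?_⟩, ?_⟩
    · intro v hv _ hp
      obtain ⟨a, ha, ha'⟩ := not_win_opp hv.2 (by omega)
      exact ⟨a, ha, ha'⟩
    · intro v hv _ hp a ha
      exact ⟨ha, not_win_own hv.2 (by omega) a ha⟩
    · intro v hv htv
      by_contra hvX
      refine hv.2 (Win.base ⟨_, hmk (compat T v) (Or.inl ⟨v, htv, hv.1, hQ.sub hv.1, hvX, rfl⟩),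
        ?_, hQ.sub hv.1, hvX, rfl⟩)
      rw [List.map_cons, hl1map]
      exact htv
  refine ⟨_, hmk Y (Or.inr hO), ?_⟩
  intro v hv hv1
  have hv' : v ∈ Y := hv
  rw [List.map_cons, hl1map] at hv1
  refine ⟨hv'.2, ?_⟩
  intro hvp a ha
  have haQ : a :: v ∈ Q :=
    hQ.opp v hv'.1 ((res_suffix x (m := 2 * k + 1) (n := 2 * k + 2) (by omega)).trans hv1)
      hvp a ha
  by_cases hcase : Win Q S 0 (a :: v)
  · exact Or.inr ⟨haQ, hcase⟩
  · exact Or.inl ⟨haQ, hcase⟩

theorem exists_seq_res {M' : Type} (l : List M') (y : ℕ → M') :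
    ∃ x' : ℕ → M', res x' l.length = l ∧ ∀ m, l.length ≤ m → x' m = y m := by
  induction l with
  | nil => exact ⟨y, rfl, fun _ _ => rfl⟩
  | cons c r ih =>
    obtain ⟨x', h1, h2⟩ := ih
    refine ⟨Function.update x' r.length c, ?_, ?_⟩
    · rw [List.length_cons, res_succ, Function.update_self]
      congr 1
      conv_rhs => rw [← h1]
      rw [res_eq_res]
      intro m hm
      rw [Function.update_of_ne (by omega)]
    · intro m hm
      rw [List.length_cons] at hm
      rw [Function.update_of_ne (by omega), h2 m (by omega)]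

theorem res_mem_of_suffix {M' : Type} {T' : GTree M'} {x' : ℕ → M'} {m n : ℕ} (h : m ≤ n)
    (hn : res x' n ∈ T'.mem) : res x' m ∈ T'.mem :=
  T'.suffix_mem (res_suffix x' h) hn

theorem build (hσ : Legal (aux T TX k) p σ)
    {l : List (M × Set (List M))} (hl : l ∈ (aux T TX k).mem) (hlen : l.length = 2 * k + 2)
    (hmap : l.map Prod.fst = res x (2 * k + 2)) (hcl : ConsL p σ l)
    (h1 : ∀ m, 2 * k + 2 ≤ m → res x (m + 1) ∈ st T l)
    (h2 : ∀ m, 2 * k + 2 ≤ m → m % 2 = p → x m = (σ (ann T k l (res x m))).1) :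
    ∃ x' ∈ (aux T TX k).plays, Cons p σ x' ∧ Prod.fst ∘ x' = x := by
  obtain ⟨x', hx1, hx2⟩ := exists_seq_res l (fun m => (x m, st T l))
  rw [hlen] at hx1 hx2
  have hann : ∀ m, 2 * k + 2 ≤ m → res x' m = ann T k l (res x m) := by
    intro m hm
    induction m, hm using Nat.le_induction with
    | base => rw [hx1, ann_low (by rw [res_length])]
    | succ m hm ih =>
      rw [res_succ, hx2 m hm, ih, res_succ, ann_cons (by rw [res_length]; exact hm)]
  have hmem : ∀ m, 2 * k + 2 ≤ m → res x' m ∈ (aux T TX k).mem := by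
    intro m hm
    induction m, hm using Nat.le_induction with
    | base => rw [hx1]; exact hl
    | succ m hm ih =>
      rw [res_succ, hx2 m hm, aux_cons]
      refine ⟨ih, ?_, ?_⟩
      · rw [hann m hm, st_ann, ann_map hlen (by rw [hmap]; exact res_suffix x hm)]
        exact h1 m hm
      · rw [hann m hm, st_ann]
        refine ⟨fun h => ?_, fun h => ?_, fun _ _ => rfl⟩
        · rw [ann_length hlen (by rw [res_length]; exact hm), res_length] at h; omega
        · rw [ann_length hlen (by rw [res_length]; exact hm), res_length] at h; omega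
  have hplays : x' ∈ (aux T TX k).plays := by
    intro m
    rcases le_total (2 * k + 2) m with h | h
    · exact hmem m h
    · exact res_mem_of_suffix h (hmem _ le_rfl)
  refine ⟨x', hplays, ?_, ?_⟩
  · intro m hmp
    rcases Nat.lt_or_ge m (2 * k + 2) with h | h
    · have h3 : x' m :: res x' m <:+ l := by
        rw [← hx1, ← res_succ]
        exact res_suffix x' h
      exact hcl _ _ h3 (by rw [res_length]; exact hmp)
    · have h3 := hσ (res x' m) (hplays m) (by rw [res_length]; exact hmp)
      rw [aux_cons] at h3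
      have h4 := h3.2.2.2.2 (by rw [res_length]; omega) (by rw [res_length]; omega)
      rw [hann m h, st_ann] at h4
      rw [hx2 m h, hann m h]
      exact Prod.ext (h2 m h hmp) h4.symm
  · funext m
    rcases Nat.lt_or_ge m (2 * k + 2) with h | h
    · have h3 : res (Prod.fst ∘ x') (2 * k + 2) = res x (2 * k + 2) := by
        rw [← map_res, hx1, hmap]
      exact res_eq_res.1 h3 h
    · simp [hx2 m h]

theorem prop_high {d : M} {m : ℕ} (hm : 2 * k + 2 - p ≤ m) :
    prop T TX k p σ d (res x m) =
      core T TX k p (LL T TX k p σ (res x (2 * k + 2 - p))) (RR T p σ (res x (2 * k + 2 - p)))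
        (ask T TX k σ d) d (res x m) := by
  unfold prop
  rw [if_neg (by rw [res_length]; omega), res_length, drop_res x hm]

/-- every play consistent with the transferred strategy lifts -/
theorem lift_play (hp : p < 2) (hσ : Legal (aux T TX k) p σ) (hx : x ∈ T.plays)
    (hc : Cons p (phi T TX k p σ) x) :
    ∃ x' ∈ (aux T TX k).plays, Cons p σ x' ∧ Prod.fst ∘ x' = x := by
  classical
  obtain ⟨hR1, hR2, hR3⟩ := RR_facts hp hσ hx hc
  set q := 2 * k + 2 - p with hq
  set L := LL T TX k p σ (res x q) with hL
  set R := RR T p σ (res x q) with hR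
  set d := (T.pruned T.nil_mem).choose with hd
  have hprop : ∀ m, q ≤ m → prop T TX k p σ d (res x m) =
      core T TX k p L R (ask T TX k σ d) d (res x m) := fun m hm => prop_high hm
  have hstep : ∀ m, m % 2 = p → ∀ a, prop T TX k p σ d (res x m) = a →
      a :: res x m ∈ T.mem → x m = a := by
    intro m hmp a ha ham
    rw [hc m hmp]
    exact phi_eq ha ham
  -- asking at a legal position gives a legal move
  have hask : ∀ l ∈ L, l.map Prod.fst = res x (2 * k + 2) → ∀ m, 2 * k + 2 ≤ m → m % 2 = p →
      (∀ j, 2 * k + 2 ≤ j → j ≤ m → res x j ∈ st T l) →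
      ann T k l (res x m) ∈ (aux T TX k).mem ∧
      (σ (ann T k l (res x m))).1 :: res x m ∈ st T l ∧
      (σ (ann T k l (res x m))).1 :: res x m ∈ T.mem := by
    intro l hl hmap m hm hmp hj
    have hlen := hl.2.1
    have hsuf : l.map Prod.fst <:+ res x m := by rw [hmap]; exact res_suffix x hm
    have h1 : ann T k l (res x m) ∈ (aux T TX k).mem := by
      refine ann_mem hlen hl.1 hsuf ?_
      intro v hv1 hv2
      have hv3 := suffix_res hv2
      have hv4 := hv1.length_le
      have hv5 := hv2.length_le
      rw [res_length] at hv5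
      rw [List.length_map, hlen] at hv4
      rw [hv3]
      exact hj _ hv4 hv5
    have h2 := hσ _ h1 (by
      rw [ann_length hlen (by rw [res_length]; exact hm), res_length]; exact hmp)
    rw [aux_cons, ann_map hlen hsuf, st_ann] at h2
    exact ⟨h1, h2.2.1, (good_of_pos hl.1).sub h2.2.1⟩
  by_cases hhit : ∃ n, res x n ∈ Tgt T TX L
  · -- Case A: a target is reached
    set n := Nat.find hhit with hn
    have hnT : res x n ∈ Tgt T TX L := Nat.find_spec hhit
    have hnmin : ∀ j, res x j ∈ Tgt T TX L → n ≤ j := fun j hj => Nat.find_min' hhit hj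
    set l := lift1 T TX L (res x n) with hl
    obtain ⟨hlL, hO1, huT, -, hst⟩ := lift1_spec hnT
    rw [← hl] at hlL hO1 hst
    have hlen : l.length = 2 * k + 2 := hlL.2.1
    have hmap : l.map Prod.fst = res x (2 * k + 2) := by
      have := suffix_res hO1
      rwa [List.length_map, hlen] at this
    have hn2 : 2 * k + 2 ≤ n := by
      have := hO1.length_le
      rwa [List.length_map, hlen, res_length] at this
    have hcomp : ∀ j, res x j ∈ st T l := by
      intro j
      rw [hst]
      refine ⟨hx j, ?_⟩
      rcases le_total j n with h | h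
      · exact Or.inl (res_suffix x h)
      · exact Or.inr (res_suffix x h)
    refine build hσ hlL.1 hlen hmap hlL.2.2.2 (fun m _ => hcomp (m + 1)) ?_
    intro m hm hmp
    obtain ⟨h1, h2, h3⟩ := hask l hlL hmap m hm hmp (fun j _ _ => hcomp j)
    rcases Nat.lt_or_ge m n with hmn | hmn
    · -- forced move
      rw [hst] at h2
      have h4 : (σ (ann T k l (res x m))).1 :: res x m <:+ res x n := by
        rcases h2.2 with h | h
        · exact h
        · have h5 := h.length_le
          rw [List.length_cons, res_length, res_length] at h5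
          have h6 := h.eq_of_length (by rw [List.length_cons, res_length, res_length]; omega)
          rw [h6]
      have h5 := suffix_res h4
      rw [List.length_cons, res_length, res_succ] at h5
      exact (List.cons.inj h5).1.symm
    · -- the strategy asks `σ`
      have hH : Hit T TX L (res x m) (res x n) := by
        refine ⟨res_suffix x hmn, hnT, ?_⟩
        intro v hv hvT
        rw [suffix_res hv, res_length, res_length]
        apply hnmin
        rw [← suffix_res hv]
        exact hvT
      have hex : ∃ u, Hit T TX L (res x m) u := ⟨_, hH⟩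
      have hch : hex.choose = res x n := hex.choose_spec.unique hH
      refine hstep m hmp _ ?_ h3
      rw [hprop m (by omega)]
      unfold core
      rw [dif_pos hex, hch, ← hl, ask_eq h1]
  · -- Case B: no target is reached
    push Not at hhit
    have hno : ∀ m, ¬ ∃ u, Hit T TX L (res x m) u := by
      rintro m ⟨u, hu⟩
      have h1 := suffix_res hu.1
      exact hhit _ (h1 ▸ hu.2.1)
    have hW : ∀ m, q ≤ m → res x m ∈ R → ¬ Win R (Tgt T TX L) p (res x m) := by
      intro m hm hmR hwin
      obtain ⟨n, -, hn⟩ := Win.reach' hwin hmR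
        (fun n hn hnp hnR => hR3 _ hnR (res_suffix x (by omega)) (by rw [res_length]; exact hnp)
          _ (hx (n + 1)))
        (by
          intro n hn hnp hnR hnwin hnS
          have h1 := wmove_spec d hnwin hnS (by rw [res_length]; exact hnp)
          have h2 : x n = wmove R (Tgt T TX L) p d (res x n) := by
            refine hstep n hnp _ ?_ (hR2 h1.1)
            rw [hprop n (by omega)]
            unfold core
            rw [dif_neg (hno n), if_pos hnwin]
          rw [res_succ, h2]
          exact h1)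
      exact hhit n hn
    have hex : ∃ l ∈ L, Star T TX p L R l := by
      have hp' : p = 0 ∨ p = 1 := by omega
      rcases hp' with rfl | rfl
      · exact key_zero hσ hx hc (hW q le_rfl hR1)
      · exact key_one hσ hx hc (hW q le_rfl hR1)
    set l := hex.choose with hl
    obtain ⟨hlL, hstar⟩ := hex.choose_spec
    rw [← hl] at hlL hstar
    have hlen : l.length = 2 * k + 2 := hlL.2.1
    have hmap : l.map Prod.fst = res x (2 * k + 2) := by
      have hp' : p = 0 ∨ p = 1 := by omega
      rcases hp' with rfl | rfl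
      · exact hlL.2.2.1
      · have h1 := hlL.2.2.1
        have h2 : (l.map Prod.fst).length = 2 * k + 2 := by rw [List.length_map, hlen]
        have hTm := (good_of_pos hlL.1).memT
        obtain ⟨a, r, har⟩ : ∃ a r, l.map Prod.fst = a :: r := by
          cases hcase : l.map Prod.fst with
          | nil => rw [hcase] at h2; simp at h2
          | cons a r => exact ⟨a, r, rfl⟩
        rw [har] at h1 hTm
        have hr : r = res x (2 * k + 1) := h1
        have h3 : x (2 * k + 1) = a := by
          refine hstep (2 * k + 1) (by omega) a ?_ (by rw [← hr]; exact hTm)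
          rw [hprop (2 * k + 1) (by omega)]
          unfold core
          have hWq : ¬ Win R (Tgt T TX L) 1 (res x (2 * k + 1)) :=
            hW (2 * k + 1) (by omega) hR1
          rw [dif_neg (hno _), if_neg hWq, dif_pos hex,
            if_pos (by rw [res_length]), ← hl, har]
          rfl
        rw [har, hr, ← h3]
        rfl
    have hmain : ∀ m, 2 * k + 2 ≤ m → (∀ j, 2 * k + 2 ≤ j → j ≤ m → res x j ∈ st T l) →
        (m % 2 = p → x m = (σ (ann T k l (res x m))).1) ∧ res x (m + 1) ∈ st T l := by
      intro m hm hj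
      have hsuf : l.map Prod.fst <:+ res x m := by rw [hmap]; exact res_suffix x hm
      have hs := hstar (res x m) (hj m hm le_rfl) hsuf
      have hown : m % 2 = p → x m = (σ (ann T k l (res x m))).1 := by
        intro hmp
        obtain ⟨h1, h2, h3⟩ := hask l hlL hmap m hm hmp hj
        refine hstep m hmp _ ?_ h3
        rw [hprop m (by omega)]
        unfold core
        rw [dif_neg (hno _), if_neg hs.1, dif_pos hex,
            if_neg (by rw [res_length]; omega), ← hl, ask_eq h1]
      refine ⟨hown, ?_⟩
      by_cases hmp : m % 2 = p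
      · obtain ⟨h1, h2, h3⟩ := hask l hlL hmap m hm hmp hj
        rw [res_succ, hown hmp]
        exact h2
      · rcases hs.2 (by rw [res_length]; exact hmp) _ (hx (m + 1)) with h | h
        · exact h
        · exact absurd h.2 (hW (m + 1) (by omega) h.1)
    have hall : ∀ m, 2 * k + 2 ≤ m → ∀ j, 2 * k + 2 ≤ j → j ≤ m → res x j ∈ st T l := by
      intro m hm
      induction m, hm using Nat.le_induction with
      | base =>
        intro j hj1 hj2
        have : j = 2 * k + 2 := by omega
        rw [this, ← hmap]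
        exact (good_of_pos hlL.1).memS
      | succ m hm ih =>
        intro j hj1 hj2
        rcases Nat.lt_or_ge m j with h | h
        · have : j = m + 1 := by omega
          rw [this]
          exact (hmain m hm ih).2
        · exact ih j hj1 h
    refine build hσ hlL.1 hlen hmap hlL.2.2.2 (fun m hm => (hmain m hm (hall m hm)).2) ?_
    intro m hm hmp
    exact (hmain m hm (hall m hm)).1 hmp

end Lift

end Pool.Agent.MP106504
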