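import Pool.Agent.Lib.MP_106504_lc.Closed3

/-!
# Unraveling a closed set: the covering
-/

namespace Pool.Agent.MP106504

open PiNat

/-- the auxiliary game is a `k`-covering -/
noncomputable def closedCover {M : Type} (T : GTree M) (TX : Set (List M)) (k : ℕ) :
    Cover k T (aux T TX k) where
  π := Prod.fst
  φ := phi T TX k
  map_mem := fun _ hs => (good_of_pos hs).memT
  legal := fun p _ _ _ => T.fix_legal p _
  lift := fun _ _ hp hσ _ hx hc => lift_play hp hσ hx hc
  loc := fun _ _ _ _ hp _ _ h _ hs hn hsp => phi_loc hp h hs hn hsp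
  inj := by
    intro s hs t ht hk hst
    have h1 := congrArg List.length hst
    rw [List.length_map, List.length_map] at h1
    rw [eq_low hs hk, eq_low ht (by omega), hst]
  surj := fun s hs hk => ⟨low T s, low_mem hs hk, low_map s⟩
  agree := by
    intro p σ hp hσ s hs hk hsp
    have h1 := phi_low hσ (good_of_pos hs).memT (by rw [List.length_map]; omega)
      (by rw [List.length_map]; omega) (by rw [List.length_map]; exact hsp)
    rw [h1, ← eq_low hs hk.le]

theorem st_const {M : Type} {T : GTree M} {TX : Set (List M)} {k : ℕ}
    {y : ℕ → M × Set (List M)} (hy : y ∈ (aux T TX k).plays) {m : ℕ} (hm : 2 * k + 2 ≤ m) :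
    st T (res y m) = st T (res y (2 * k + 2)) := by
  induction m, hm using Nat.le_induction with
  | base => rfl
  | succ m hm ih =>
    have h1 := aux_cons.1 (hy (m + 1))
    have h2 := h1.2.2.2.2 (by rw [res_length]; omega) (by rw [res_length]; omega)
    rw [← ih, ← h2]
    rfl

/-- Closed sets can be unraveled by `k`-coverings. -/
theorem closed_unravel {M : Type} (T : GTree M) {X : Set (ℕ → M)} (hX : OpenOn T Xᶜ) (k : ℕ) :
    ∃ (M' : Type) (T' : GTree M') (c : Cover k T T'), ClopenOn T' {x | c.π ∘ x ∈ X} := by
  set TX : Set (List M) := {s | ∃ y ∈ T.plays, y ∈ X ∧ res y s.length = s} with hTX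
  refine ⟨_, aux T TX k, closedCover T TX k, ?_⟩
  have hkey : ∀ l : List (M × Set (List M)), l.length = 2 * k + 2 → l ∈ (aux T TX k).mem →
      (∀ y ∈ (aux T TX k).plays, res y (2 * k + 2) = l → Prod.fst ∘ y ∈ X) ∨
      (∀ y ∈ (aux T TX k).plays, res y (2 * k + 2) = l → Prod.fst ∘ y ∉ X) := by
    intro l hlen hl
    cases l with
    | nil => simp at hlen
    | cons c r =>
      have hr : r.length = 2 * k + 1 := by
        rw [List.length_cons] at hlen; omega
      have h1 := aux_cons.1 hl
      rcases h1.2.2.2.1 hr with ⟨u, h5, h6, h7, h8, h9⟩ | hO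
      · right
        intro y hy hyl hyX
        have hplay : Prod.fst ∘ y ∈ T.plays := (closedCover T TX k).map_plays hy
        have hu : 2 * k + 2 ≤ u.length := by
          have := h5.length_le
          rw [List.length_cons, List.length_map, hr] at this
          exact this
        have h10 := (good_of_pos (hy u.length)).memS
        rw [map_res, st_const hy hu, hyl] at h10
        change _ ∈ c.2 at h10
        rw [h9] at h10
        have h11 : res (Prod.fst ∘ y) u.length = u := by
          rcases h10.2 with h | h
          · exact h.eq_of_length (by rw [res_length])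
          · exact (h.eq_of_length (by rw [res_length])).symm
        exact h8 ⟨_, hplay, hyX, h11⟩
      · left
        intro y hy hyl
        have hplay : Prod.fst ∘ y ∈ T.plays := (closedCover T TX k).map_plays hy
        by_contra hyX
        obtain ⟨n, hn⟩ := hX _ hplay hyX
        set m := max n (2 * k + 2) with hm
        have hm2 : 2 * k + 2 ≤ m := le_max_right _ _
        have h10 := (good_of_pos (hy m)).memS
        rw [map_res, st_const hy hm2, hyl] at h10
        change _ ∈ c.2 at h10
        have h11 : c.1 :: r.map Prod.fst <:+ res (Prod.fst ∘ y) m := by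
          have h12 : c.1 :: r.map Prod.fst = res (Prod.fst ∘ y) (2 * k + 2) := by
            rw [← map_res, hyl]; rfl
          rw [h12]
          exact res_suffix _ hm2
        obtain ⟨z, hz1, hz2, hz3⟩ := hO.2 _ h10 h11
        rw [res_length] at hz3
        refine hn z hz1 ?_ hz2
        rw [res_eq_res]
        intro j hj
        exact res_eq_res.1 hz3 (lt_of_lt_of_le hj (le_max_left _ _))
  intro x hx
  refine ⟨2 * k + 2, fun y hy hr => ?_⟩
  rcases hkey (res x (2 * k + 2)) (res_length _ _) (hx _) with h | h
  · exact ⟨fun _ => h x hx rfl, fun _ => h y hy hr⟩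
  · exact ⟨fun h' => absurd h' (h y hy hr), fun h' => absurd h' (h x hx rfl)⟩

end Pool.Agent.MP106504
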