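import Pool.Agent.Lib.MP_106504_lc.Games

/-!
# Coverings of game trees (Martin)
-/

namespace Pool.Agent.MP106504

open PiNat

theorem map_res {M M' : Type} (f : M' → M) (x : ℕ → M') (n : ℕ) :
    (res x n).map f = res (f ∘ x) n := by
  induction n with
  | zero => rfl
  | succ n ih => simp [ih]

/-- A `k`-covering `T'` of the game tree `T` (Martin). -/
structure Cover (k : ℕ) {M : Type} (T : GTree M) {M' : Type} (T' : GTree M') where
  π : M' → M
  φ : ℕ → (List M' → M') → (List M → M)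
  map_mem : ∀ s ∈ T'.mem, s.map π ∈ T.mem
  legal : ∀ p σ, p < 2 → Legal T' p σ → Legal T p (φ p σ)
  lift : ∀ p σ, p < 2 → Legal T' p σ → ∀ x ∈ T.plays, Cons p (φ p σ) x →
    ∃ x' ∈ T'.plays, Cons p σ x' ∧ π ∘ x' = x
  loc : ∀ p σ τ n, p < 2 → Legal T' p σ → Legal T' p τ →
    (∀ s ∈ T'.mem, s.length ≤ n → s.length % 2 = p → σ s = τ s) →
    ∀ s ∈ T.mem, s.length ≤ n → s.length % 2 = p → φ p σ s = φ p τ s
  inj : ∀ s ∈ T'.mem, ∀ t ∈ T'.mem, s.length ≤ 2 * k → s.map π = t.map π → s = t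
  surj : ∀ s ∈ T.mem, s.length ≤ 2 * k → ∃ s' ∈ T'.mem, s'.map π = s
  agree : ∀ p σ, p < 2 → Legal T' p σ → ∀ s ∈ T'.mem, s.length < 2 * k → s.length % 2 = p →
    φ p σ (s.map π) = π (σ s)

theorem Cover.map_plays {k : ℕ} {M : Type} {T : GTree M} {M' : Type} {T' : GTree M'}
    (c : Cover k T T') {x : ℕ → M'} (hx : x ∈ T'.plays) : c.π ∘ x ∈ T.plays := by
  intro n
  rw [← map_res]
  exact c.map_mem _ (hx n)

/-- Composition of coverings. -/
def Cover.comp {k : ℕ} {M : Type} {T : GTree M} {M' : Type} {T' : GTree M'} {M'' : Type}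
    {T'' : GTree M''} (c : Cover k T T') (d : Cover k T' T'') : Cover k T T'' where
  π := c.π ∘ d.π
  φ := fun p σ => c.φ p (d.φ p σ)
  map_mem := by
    intro s hs
    rw [← List.map_map]
    exact c.map_mem _ (d.map_mem _ hs)
  legal := fun p σ hp h => c.legal p _ hp (d.legal p _ hp h)
  lift := by
    intro p σ hp hσ x hx hc
    obtain ⟨x', hx', hc', rfl⟩ := c.lift p _ hp (d.legal p _ hp hσ) x hx hc
    obtain ⟨x'', hx'', hc'', rfl⟩ := d.lift p _ hp hσ x' hx' hc'
    exact ⟨x'', hx'', hc'', rfl⟩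
  loc := by
    intro p σ τ n hp hσ hτ h s hs hn hsp
    exact c.loc p _ _ n hp (d.legal p _ hp hσ) (d.legal p _ hp hτ)
      (fun s' hs' hn' hsp' => d.loc p σ τ n hp hσ hτ h s' hs' hn' hsp') s hs hn hsp
  inj := by
    intro s hs t ht hk hst
    rw [← List.map_map, ← List.map_map] at hst
    have h1 := c.inj _ (d.map_mem _ hs) _ (d.map_mem _ ht) (by rwa [List.length_map]) hst
    exact d.inj s hs t ht hk h1
  surj := by
    intro s hs hk
    obtain ⟨s', hs', rfl⟩ := c.surj s hs hk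
    rw [List.length_map] at hk
    obtain ⟨s'', hs'', rfl⟩ := d.surj s' hs' hk
    exact ⟨s'', hs'', by rw [List.map_map]⟩
  agree := by
    intro p σ hp hσ s hs hk hsp
    rw [← List.map_map, c.agree p _ hp (d.legal p _ hp hσ) _ (d.map_mem _ hs)
      (by rwa [List.length_map]) (by rwa [List.length_map]), d.agree p σ hp hσ s hs hk hsp]
    rfl

/-- The preimage of a clopen set under a covering is clopen. -/
theorem ClopenOn.preimage {M : Type} {T : GTree M} {M' : Type} {T' : GTree M'}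
    {π : M' → M} (hπ : ∀ s ∈ T'.mem, s.map π ∈ T.mem) {Y : Set (ℕ → M)} (h : ClopenOn T Y) :
    ClopenOn T' {x | π ∘ x ∈ Y} := by
  have hπ' : ∀ x ∈ T'.plays, π ∘ x ∈ T.plays := by
    intro x hx n
    rw [← map_res]
    exact hπ _ (hx n)
  intro x hx
  obtain ⟨n, hn⟩ := h _ (hπ' x hx)
  refine ⟨n, fun y hy hr => hn _ (hπ' y hy) ?_⟩
  rw [← map_res, ← map_res, hr]

/-- A `k`-covering is a `j`-covering for `j ≤ k`. -/
def Cover.mono {j k : ℕ} (hjk : j ≤ k) {M : Type} {T : GTree M} {M' : Type} {T' : GTree M'}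
    (c : Cover k T T') : Cover j T T' where
  π := c.π
  φ := c.φ
  map_mem := c.map_mem
  legal := c.legal
  lift := c.lift
  loc := c.loc
  inj := fun s hs t ht hk => c.inj s hs t ht (by omega)
  surj := fun s hs hk => c.surj s hs (by omega)
  agree := fun p σ hp hσ s hs hk => c.agree p σ hp hσ s hs (by omega)

end Pool.Agent.MP106504
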