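import Mathlib

/-!
# Borel classes, transfinite differences, separation rank: definitions for MP_106504_lc
-/

namespace Pool.Agent.MP106504

open Set Ordinal

/-- The additive Borel classes: `IsSigma ξ A` says that `A` is a `Σ⁰_ξ` set (`1 ≤ ξ`):
`Σ⁰_1` sets are the open sets, and for `1 < ξ` the `Σ⁰_ξ` sets are the countable unions
of sets `A n` which are `Π⁰_{η n}` with `1 ≤ η n < ξ`. -/
inductive IsSigma {X : Type*} [TopologicalSpace X] : Ordinal.{0} → Set X → Prop
  | of_isOpen (U : Set X) : IsOpen U → IsSigma 1 U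
  | iUnion (ξ : Ordinal.{0}) (A : ℕ → Set X) (η : ℕ → Ordinal.{0}) : 1 < ξ →
      (∀ n, 1 ≤ η n ∧ η n < ξ) → (∀ n, IsSigma (η n) (A n)ᶜ) → IsSigma ξ (⋃ n, A n)

/-- The multiplicative Borel classes. -/
def IsPi {X : Type*} [TopologicalSpace X] (ξ : Ordinal.{0}) (A : Set X) : Prop := IsSigma ξ Aᶜ

/-- The ambiguous Borel classes. -/
def IsDelta {X : Type*} [TopologicalSpace X] (ξ : Ordinal.{0}) (A : Set X) : Prop :=
  IsSigma ξ A ∧ IsPi ξ A

/-- Even ordinals: those of the form `ω * μ + 2 * n` with `n` a natural number. -/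
def EvenOrd (η : Ordinal.{0}) : Prop := ∃ μ : Ordinal.{0}, ∃ n : ℕ, η = ω * μ + 2 * n

/-- The transfinite difference of the sequence `(F η)_{η < lam}`. -/
def tdiff {X : Type*} (lam : Ordinal.{0}) (F : Ordinal.{0} → Set X) : Set X :=
  {x | ∃ η, η < lam ∧ EvenOrd η ∧ x ∈ F η ∧ x ∉ F (η + 1)}

/-- `F` restricted to `η < lam` is a decreasing, continuous sequence of `Π⁰_ξ` sets, with no
condition on the intersection (`F η` is irrelevant for `η > lam`, and `F lam ` is
the intersection if `lam` is a limit). -/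
structure ContSeq {X : Type*} [TopologicalSpace X] (ξ lam : Ordinal.{0})
    (F : Ordinal.{0} → Set X) : Prop where
  pi : ∀ η, η < lam → IsPi ξ (F η)
  zero : 0 < lam → F 0 = Set.univ
  anti : ∀ η θ, η ≤ θ → θ < lam → F θ ⊆ F η
  lim : ∀ η, η < lam → Order.IsSuccLimit η → F η = ⋂ θ, ⋂ (_ : θ < η), F θ

/-- A continuous decreasing sequence of `Π⁰_ξ` sets of length `lam` as in the problem: if `lam` is
a limit its intersection is empty, and `F η = ∅` for `η ≥ lam`. -/
structure VSeq {X : Type*} [TopologicalSpace X] (ξ lam : Ordinal.{0})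
    (F : Ordinal.{0} → Set X) : Prop extends ContSeq ξ lam F where
  vanish : Order.IsSuccLimit lam → ⋂ η, ⋂ (_ : η < lam), F η = ∅
  big : ∀ η, lam ≤ η → F η = ∅

/-- `A` can be separated from `B` by the transfinite difference of a continuous decreasing
sequence of length `lam`. -/
def SepBy {X : Type*} [TopologicalSpace X] (ξ lam : Ordinal.{0}) (A B : Set X) : Prop :=
  ∃ F, VSeq ξ lam F ∧ A ⊆ tdiff lam F ∧ Disjoint (tdiff lam F) B

/-- The separation rank `α_ξ(A,B)` (`⊤` if there is no separating sequence). -/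
noncomputable def sepRank {X : Type*} [TopologicalSpace X] (ξ : Ordinal.{0}) (A B : Set X) :
    WithTop Ordinal.{0} :=
  sInf ((fun o : Ordinal.{0} => (o : WithTop Ordinal.{0})) '' {lam | SepBy ξ lam A B})

/-- The separation rank `α_ξ(f)`. -/
noncomputable def funRank {X : Type*} [TopologicalSpace X] (ξ : Ordinal.{0}) (f : X → ℝ) :
    WithTop Ordinal.{0} :=
  ⨆ (p : ℚ) (q : ℚ) (_ : p < q), sepRank ξ {x | f x ≤ p} {x | (q : ℝ) ≤ f x}

/-- non-vanishing transfinite differences of length `lam` of `Π⁰_ξ` sets -/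
def IsDiff {X : Type*} [TopologicalSpace X] (ξ lam : Ordinal.{0}) (D : Set X) : Prop :=
  ∃ F, ContSeq ξ lam F ∧ D = tdiff lam F

/-- Functions of Baire class `ξ` (Lebesgue, Hausdorff, Banach: the preimages of open
sets are `Σ⁰_{ξ+1}`). -/
def BaireClass {X : Type*} [TopologicalSpace X] (ξ : Ordinal.{0}) (f : X → ℝ) : Prop :=
  ∀ U : Set ℝ, IsOpen U → IsSigma (ξ + 1) (f ⁻¹' U)

end Pool.Agent.MP106504
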