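import Pool.Agent.Lib.MP_106504_lc.Cover

/-!
# Inverse limits of coverings
-/

namespace Pool.Agent.MP106504

open PiNat

theorem exists_thread (M : ℕ → Type) (π : ∀ i, M (i + 1) → M i) (A : ∀ i, Set (M i))
    (hA : ∀ i, ∀ a ∈ A (i + 1), π i a ∈ A i) (i0 : ℕ) (a : M i0) (ha : a ∈ A i0)
    (hs : ∀ i, i0 ≤ i → ∀ a ∈ A i, ∃ b ∈ A (i + 1), π i b = a) :
    ∃ m : ∀ i, M i, (∀ i, π i (m (i + 1)) = m i) ∧ (∀ i, m i ∈ A i) ∧ m i0 = a := by
  classical
  induction i0 generalizing M with
  | zero =>
    have hs' : ∀ i (b : {b : M i // b ∈ A i}), ∃ b' : {b : M (i + 1) // b ∈ A (i + 1)},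
        π i b'.1 = b.1 := by
      intro i b
      obtain ⟨b', h1, h2⟩ := hs i (Nat.zero_le _) b.1 b.2
      exact ⟨⟨b', h1⟩, h2⟩
    choose g hg using hs'
    let m : ∀ i, {b : M i // b ∈ A i} := fun i =>
      Nat.rec (motive := fun i => {b : M i // b ∈ A i}) ⟨a, ha⟩ (fun i b => g i b) i
    exact ⟨fun i => (m i).1, fun i => hg i (m i), fun i => (m i).2, rfl⟩
  | succ i0 ih =>
    obtain ⟨m, h1, h2, h3⟩ := ih (fun i => M (i + 1)) (fun i => π (i + 1)) (fun i => A (i + 1))
      (fun i b hb => hA (i + 1) b hb) a ha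
      (fun i hi b hb => hs (i + 1) (by omega) b hb)
    refine ⟨fun i => Nat.casesOn i (π 0 (m 0)) m, ?_, ?_, h3⟩
    · intro i
      cases i with
      | zero => rfl
      | succ i => exact h1 i
    · intro i
      cases i with
      | zero => exact hA 0 _ (h2 0)
      | succ i => exact h2 i

section Limit

variable {k : ℕ} {M : ℕ → Type} {T : ∀ i, GTree (M i)}
  (c : ∀ i, Cover (k + i) (T i) (T (i + 1)))

/-- letters of the limit -/
def Lim : Type := {m : ∀ i, M i // ∀ i, (c i).π (m (i + 1)) = m i}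

variable {c}

/-- projection of letters -/
def pr (i : ℕ) (m : Lim c) : M i := m.1 i

theorem pr_succ (i : ℕ) (m : Lim c) : (c i).π (pr (i + 1) m) = pr i m := m.2 i

theorem map_pr_succ (i : ℕ) (s : List (Lim c)) :
    (s.map (pr (i + 1))).map (c i).π = s.map (pr i) := by
  rw [List.map_map]
  congr 1
  funext m
  exact pr_succ i m

theorem pr_comp_succ (i : ℕ) : (c i).π ∘ pr (c := c) (i + 1) = pr i := by
  funext m
  exact pr_succ i m

/-- one step extension -/
theorem lim_ext {s : List (Lim c)} (hs : ∀ i, s.map (pr i) ∈ (T i).mem) {j : ℕ}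
    (hj : s.length + 1 ≤ 2 * (k + j)) {a : M j} (ha : a :: s.map (pr j) ∈ (T j).mem) :
    ∃ m : Lim c, (∀ i, (m :: s).map (pr i) ∈ (T i).mem) ∧ pr j m = a := by
  obtain ⟨m, h1, h2, h3⟩ := exists_thread M (fun i => (c i).π)
    (fun i => {b | b :: s.map (pr i) ∈ (T i).mem})
    (by
      intro i b hb
      have h := (c i).map_mem _ hb
      rw [List.map_cons, map_pr_succ] at h
      exact h) j a ha
    (by
      intro i hi b hb
      obtain ⟨t, ht1, ht2⟩ := (c i).surj _ hb (by
        rw [List.length_cons, List.length_map]; omega)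
      cases t with
      | nil => simp at ht2
      | cons b' t =>
        rw [List.map_cons] at ht2
        obtain ⟨h4, h5⟩ := List.cons.inj ht2
        have h6 : t = s.map (pr (i + 1)) := by
          refine (c i).inj t ((T (i + 1)).tail_mem ht1) _ (hs (i + 1)) ?_ ?_
          · have := congrArg List.length h5
            rw [List.length_map, List.length_map] at this
            omega
          · rw [h5, map_pr_succ]
        exact ⟨b', by rw [h6] at ht1; exact ht1, h4⟩)
  exact ⟨⟨m, h1⟩, fun i => h2 i, h3⟩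

variable (c) in
/-- the limit tree -/
def limTree : GTree (Lim c) where
  mem := {s | ∀ i, s.map (pr i) ∈ (T i).mem}
  nil_mem := fun i => (T i).nil_mem
  tail_mem := fun h i => (T i).tail_mem (h i)
  pruned := by
    intro s hs
    obtain ⟨a, ha⟩ := (T (s.length + 1)).pruned (hs (s.length + 1))
    obtain ⟨m, hm, -⟩ := lim_ext hs (by omega) ha
    exact ⟨m, hm⟩

theorem lim_surj {j : ℕ} {s : List (M j)} (hs : s ∈ (T j).mem) (hk : s.length ≤ 2 * (k + j)) :
    ∃ t ∈ (limTree c).mem, t.map (pr j) = s := by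
  induction s with
  | nil => exact ⟨[], (limTree c).nil_mem, rfl⟩
  | cons a s ih =>
    rw [List.length_cons] at hk
    obtain ⟨t, ht, hts⟩ := ih ((T j).tail_mem hs) (by omega)
    have hlen : t.length = s.length := by rw [← hts, List.length_map]
    obtain ⟨m, hm, hma⟩ := lim_ext (c := c) (s := t) (a := a) ht (j := j) (by omega)
      (by rw [hts]; exact hs)
    exact ⟨m :: t, hm, by rw [List.map_cons, hma, hts]⟩

theorem lim_all {s t : List (Lim c)} (h : ∀ i, s.map (pr i) = t.map (pr i)) : s = t := by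
  induction s generalizing t with
  | nil =>
    have := h 0
    cases t with
    | nil => rfl
    | cons b t => simp at this
  | cons a s ih =>
    cases t with
    | nil => have := h 0; simp at this
    | cons b t =>
      have h1 : ∀ i, pr i a = pr i b ∧ s.map (pr i) = t.map (pr i) := by
        intro i
        have := h i
        rw [List.map_cons, List.map_cons] at this
        exact List.cons.inj this
      rw [ih (fun i => (h1 i).2)]
      congr 1
      exact Subtype.ext (funext fun i => (h1 i).1)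

theorem lim_inj {j : ℕ} {s t : List (Lim c)} (hs : s ∈ (limTree c).mem)
    (ht : t ∈ (limTree c).mem) (hk : s.length ≤ 2 * (k + j))
    (h : s.map (pr j) = t.map (pr j)) : s = t := by
  apply lim_all
  have hup : ∀ i, j ≤ i → s.map (pr i) = t.map (pr i) := by
    intro i hi
    induction i, hi using Nat.le_induction with
    | base => exact h
    | succ i hi ih =>
      refine (c i).inj _ (hs (i + 1)) _ (ht (i + 1)) ?_ ?_
      · rw [List.length_map]; omega
      · rw [map_pr_succ, map_pr_succ, ih]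
  have hdown : ∀ d i, i + d = j → s.map (pr i) = t.map (pr i) := by
    intro d
    induction d with
    | zero =>
      intro i hi
      obtain rfl : i = j := by omega
      exact h
    | succ d ih =>
      intro i hi
      have h1 := ih (i + 1) (by omega)
      rw [← map_pr_succ, h1, map_pr_succ]
  intro i
  rcases le_total j i with hi | hi
  · exact hup i hi
  · exact hdown (j - i) i (by omega)

open Classical in
variable (c) in
/-- the approximation of a strategy of the limit at stage `j` -/
noncomputable def tau (σ : List (Lim c) → Lim c) (j : ℕ) (s : List (M j)) : M j :=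
  if h : s.length < 2 * (k + j) ∧ ∃ t ∈ (limTree c).mem, t.map (pr j) = s then
    pr j (σ h.2.choose)
  else (T j).fix (fun _ => ((T j).pruned (T j).nil_mem).choose) s

theorem tau_eq {σ : List (Lim c) → Lim c} {j : ℕ} {t : List (Lim c)}
    (ht : t ∈ (limTree c).mem) (hk : t.length < 2 * (k + j)) :
    tau c σ j (t.map (pr j)) = pr j (σ t) := by
  have h : (t.map (pr j)).length < 2 * (k + j) ∧
      ∃ t' ∈ (limTree c).mem, t'.map (pr j) = t.map (pr j) :=
    ⟨by rw [List.length_map]; exact hk, t, ht, rfl⟩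
  unfold tau
  rw [dif_pos h]
  have h1 := h.2.choose_spec
  have h2 : h.2.choose = t := by
    symm
    exact lim_inj ht h1.1 hk.le h1.2.symm
  rw [h2]

theorem tau_legal {p : ℕ} {σ : List (Lim c) → Lim c} (hσ : Legal (limTree c) p σ) (j : ℕ) :
    Legal (T j) p (tau c σ j) := by
  intro s hs hsp
  by_cases hk : s.length < 2 * (k + j)
  · obtain ⟨t, ht, rfl⟩ := lim_surj (c := c) hs hk.le
    rw [List.length_map] at hk hsp
    rw [tau_eq ht hk]
    exact hσ t ht hsp j
  · unfold tau
    rw [dif_neg (fun h => hk h.1)]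
    exact (T j).fix_mem _ hs

theorem tau_loc {p n : ℕ} {σ σ' : List (Lim c) → Lim c}
    (h : ∀ s ∈ (limTree c).mem, s.length ≤ n → s.length % 2 = p → σ s = σ' s) {j : ℕ}
    {s : List (M j)} (hn : s.length ≤ n) (hsp : s.length % 2 = p) :
    tau c σ j s = tau c σ' j s := by
  unfold tau
  by_cases hh : s.length < 2 * (k + j) ∧ ∃ t ∈ (limTree c).mem, t.map (pr j) = s
  · rw [dif_pos hh, dif_pos hh]
    have h1 := hh.2.choose_spec
    have h2 : (hh.2.choose).length = s.length := by
      conv_rhs => rw [← h1.2, List.length_map]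
    rw [h _ h1.1 (by omega) (by omega)]
  · rw [dif_neg hh, dif_neg hh]

variable (c) in
/-- iterated transfer -/
noncomputable def ff (p : ℕ) (σ : List (Lim c) → Lim c) : ℕ → ∀ j, List (M j) → M j
  | 0, j => tau c σ j
  | d + 1, j => (c j).φ p (ff p σ d (j + 1))

theorem ff_legal {p : ℕ} (hp : p < 2) {σ : List (Lim c) → Lim c} (hσ : Legal (limTree c) p σ)
    (d j : ℕ) : Legal (T j) p (ff c p σ d j) := by
  induction d generalizing j with
  | zero => exact tau_legal hσ j
  | succ d ih => exact (c j).legal p _ hp (ih (j + 1))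

theorem ff_succ {p : ℕ} (hp : p < 2) {σ : List (Lim c) → Lim c} (hσ : Legal (limTree c) p σ)
    (d j : ℕ) {s : List (M j)} (hs : s ∈ (T j).mem) (hk : s.length < 2 * (k + j + d))
    (hsp : s.length % 2 = p) : ff c p σ (d + 1) j s = ff c p σ d j s := by
  induction d generalizing j with
  | zero =>
    obtain ⟨t, ht, rfl⟩ := lim_surj (c := c) hs (by omega)
    rw [List.length_map] at hk hsp
    change (c j).φ p (tau c σ (j + 1)) (t.map (pr j)) = tau c σ j (t.map (pr j))
    rw [tau_eq ht (by omega), ← map_pr_succ,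
      (c j).agree p _ hp (tau_legal hσ (j + 1)) _ (ht (j + 1))
        (by rw [List.length_map]; omega) (by rw [List.length_map]; exact hsp),
      tau_eq ht (by omega), pr_succ]
  | succ d ih =>
    change (c j).φ p (ff c p σ (d + 1) (j + 1)) s = (c j).φ p (ff c p σ d (j + 1)) s
    refine (c j).loc p _ _ s.length hp (ff_legal hp hσ _ _) (ff_legal hp hσ _ _) ?_ s hs le_rfl
      hsp
    intro s' hs' hn' hsp'
    exact ih (j + 1) hs' (by omega) hsp'

theorem ff_stable {p : ℕ} (hp : p < 2) {σ : List (Lim c) → Lim c}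
    (hσ : Legal (limTree c) p σ) {d d' : ℕ} (hd : d ≤ d') (j : ℕ) {s : List (M j)}
    (hs : s ∈ (T j).mem) (hk : s.length < 2 * (k + j + d)) (hsp : s.length % 2 = p) :
    ff c p σ d' j s = ff c p σ d j s := by
  induction d', hd using Nat.le_induction with
  | base => rfl
  | succ d' hd ih => rw [ff_succ hp hσ d' j hs (by omega) hsp, ih]

variable (c) in
/-- the transfer from the limit to stage `j` -/
noncomputable def FF (p : ℕ) (σ : List (Lim c) → Lim c) (j : ℕ) (s : List (M j)) : M j :=
  ff c p σ (s.length + 1) j s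

theorem FF_eq {p : ℕ} (hp : p < 2) {σ : List (Lim c) → Lim c}
    (hσ : Legal (limTree c) p σ) {d j : ℕ} {s : List (M j)}
    (hs : s ∈ (T j).mem) (hk : s.length < 2 * (k + j + d)) (hsp : s.length % 2 = p) :
    FF c p σ j s = ff c p σ d j s := by
  unfold FF
  rw [← ff_stable hp hσ (le_max_left (s.length + 1) d) j hs (by omega) hsp,
    ff_stable hp hσ (le_max_right (s.length + 1) d) j hs hk hsp]

theorem FF_legal {p : ℕ} (hp : p < 2) {σ : List (Lim c) → Lim c}
    (hσ : Legal (limTree c) p σ) (j : ℕ) : Legal (T j) p (FF c p σ j) :=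
  fun s hs hsp => ff_legal hp hσ _ j s hs hsp

theorem FF_phi {p : ℕ} (hp : p < 2) {σ : List (Lim c) → Lim c}
    (hσ : Legal (limTree c) p σ) (j : ℕ) {s : List (M j)} (hs : s ∈ (T j).mem)
    (hsp : s.length % 2 = p) : (c j).φ p (FF c p σ (j + 1)) s = FF c p σ j s := by
  rw [FF_eq hp hσ (d := s.length + 1 + 1) hs (by omega) hsp]
  change _ = (c j).φ p (ff c p σ (s.length + 1) (j + 1)) s
  refine (c j).loc p _ _ s.length hp (FF_legal hp hσ _) (ff_legal hp hσ _ _) ?_ s hs le_rfl
      hsp
  intro s' hs' hn' hsp'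
  exact FF_eq hp hσ hs' (by omega) hsp'

theorem FF_tau {p : ℕ} (hp : p < 2) {σ : List (Lim c) → Lim c}
    (hσ : Legal (limTree c) p σ) {j : ℕ} {t : List (Lim c)} (ht : t ∈ (limTree c).mem)
    (hk : t.length < 2 * (k + j)) (hsp : t.length % 2 = p) :
    FF c p σ j (t.map (pr j)) = pr j (σ t) := by
  rw [FF_eq hp hσ (d := 0) (ht j) (by rw [List.length_map]; omega)
    (by rw [List.length_map]; exact hsp)]
  exact tau_eq ht hk

theorem ff_loc {p n : ℕ} (hp : p < 2) {σ σ' : List (Lim c) → Lim c}
    (hσ : Legal (limTree c) p σ) (hσ' : Legal (limTree c) p σ')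
    (h : ∀ s ∈ (limTree c).mem, s.length ≤ n → s.length % 2 = p → σ s = σ' s) (d j : ℕ)
    {s : List (M j)} (hs : s ∈ (T j).mem) (hn : s.length ≤ n) (hsp : s.length % 2 = p) :
    ff c p σ d j s = ff c p σ' d j s := by
  induction d generalizing j with
  | zero => exact tau_loc h hn hsp
  | succ d ih =>
    exact (c j).loc p _ _ n hp (ff_legal hp hσ _ _) (ff_legal hp hσ' _ _)
      (fun s' hs' hn' hsp' => ih (j + 1) hs' hn' hsp') s hs hn hsp

theorem lim_lift {p : ℕ} (hp : p < 2) {σ : List (Lim c) → Lim c}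
    (hσ : Legal (limTree c) p σ) {x : ℕ → M 0} (hx : x ∈ (T 0).plays)
    (hc : Cons p (FF c p σ 0) x) :
    ∃ x' ∈ (limTree c).plays, Cons p σ x' ∧ pr 0 ∘ x' = x := by
  classical
  have hstep : ∀ j (y : {y : ℕ → M j // y ∈ (T j).plays ∧ Cons p (FF c p σ j) y}),
      ∃ z : {z : ℕ → M (j + 1) // z ∈ (T (j + 1)).plays ∧ Cons p (FF c p σ (j + 1)) z},
        (c j).π ∘ z.1 = y.1 := by
    intro j y
    obtain ⟨z, hz1, hz2, hz3⟩ := (c j).lift p _ hp (FF_legal hp hσ (j + 1)) y.1 y.2.1 (by
      intro n hn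
      rw [FF_phi hp hσ j (y.2.1 n) (by rw [res_length]; exact hn)]
      exact y.2.2 n hn)
    exact ⟨⟨z, hz1, hz2⟩, hz3⟩
  choose g hg using hstep
  let y : ∀ j, {y : ℕ → M j // y ∈ (T j).plays ∧ Cons p (FF c p σ j) y} := fun j =>
    Nat.rec (motive := fun j => {y : ℕ → M j // y ∈ (T j).plays ∧ Cons p (FF c p σ j) y})
      ⟨x, hx, hc⟩ (fun j z => g j z) j
  have hy : ∀ j, (c j).π ∘ (y (j + 1)).1 = (y j).1 := fun j => hg j (y j)
  let x' : ℕ → Lim c := fun n => ⟨fun j => (y j).1 n, fun j => congrFun (hy j) n⟩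
  have hpr : ∀ j, pr j ∘ x' = (y j).1 := fun j => rfl
  have hplay : x' ∈ (limTree c).plays := by
    intro n j
    rw [map_res, hpr]
    exact (y j).2.1 n
  refine ⟨x', hplay, ?_, rfl⟩
  intro n hn
  have hlarge : ∀ j, n < 2 * (k + j) → pr j (x' n) = pr j (σ (res x' n)) := by
    intro j hj
    have h1 := (y j).2.2 n hn
    rw [← hpr j, ← map_res, FF_tau hp hσ (hplay n) (by rw [res_length]; exact hj)
      (by rw [res_length]; exact hn)] at h1
    exact h1
  have hdown : ∀ d i, n + 1 ≤ i + d → pr i (x' n) = pr i (σ (res x' n)) := by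
    intro d
    induction d with
    | zero =>
      intro i hi
      exact hlarge i (by omega)
    | succ d ih =>
      intro i hi
      have h1 := ih (i + 1) (by omega)
      rw [← pr_succ, h1, pr_succ]
  exact Subtype.ext (funext fun i => hdown (n + 1) i (by omega))

variable (c) in
/-- The inverse limit is a `k`-covering of the first tree. -/
noncomputable def limCover : Cover k (T 0) (limTree c) where
  π := pr 0
  φ := fun p σ => FF c p σ 0
  map_mem := fun _ hs => hs 0
  legal := fun _ _ hp hσ => FF_legal hp hσ 0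
  lift := fun _ _ hp hσ _ hx hc => lim_lift hp hσ hx hc
  loc := fun _ _ _ _ hp hσ hτ h s hs hn hsp => ff_loc hp hσ hτ h _ 0 hs hn hsp
  inj := fun s hs t ht hk h => lim_inj (j := 0) hs ht (by omega) h
  surj := fun s hs hk => lim_surj (j := 0) hs (by omega)
  agree := fun p σ hp hσ s hs hk hsp => FF_tau hp hσ hs (by omega) hsp

end Limit

end Pool.Agent.MP106504
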