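import Pool.Agent.Lib.MP_106504_lc.Closed4
import Pool.Agent.Lib.MP_106504_lc.Limit

/-!
# Borel determinacy (Martin 1975)
-/

namespace Pool.Agent.MP106504

open PiNat

/-- `X` can be unraveled, also after pulling it back to any other tree -/
def Unr {M : Type} (T : GTree M) (X : Set (ℕ → M)) : Prop :=
  ∀ (M1 : Type) (T1 : GTree M1) (ρ : M1 → M), (∀ s ∈ T1.mem, s.map ρ ∈ T.mem) → ∀ k : ℕ,
    ∃ (M2 : Type) (T2 : GTree M2) (c : Cover k T1 T2), ClopenOn T2 {x | ρ ∘ (c.π ∘ x) ∈ X}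

theorem ClopenOn.compl {M : Type} {T : GTree M} {Y : Set (ℕ → M)} (h : ClopenOn T Y) :
    ClopenOn T Yᶜ := by
  intro x hx
  obtain ⟨n, hn⟩ := h x hx
  refine ⟨n, fun y hy hr => ?_⟩
  rw [Set.mem_compl_iff, Set.mem_compl_iff, hn y hy hr]

theorem Unr.of_closed {M : Type} {T : GTree M} {X : Set (ℕ → M)} (h : OpenOn T Xᶜ) :
    Unr T X := by
  intro M1 T1 ρ hρ k
  have h1 : OpenOn T1 {x | ρ ∘ x ∈ X}ᶜ := by
    intro x hx hxX
    obtain ⟨n, hn⟩ := h (ρ ∘ x) (fun n => by rw [← map_res]; exact hρ _ (hx n)) hxX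
    refine ⟨n, fun y hy hr => hn (ρ ∘ y) (fun n => by rw [← map_res]; exact hρ _ (hy n)) ?_⟩
    rw [← map_res, ← map_res, hr]
  exact closed_unravel T1 h1 k

theorem Unr.compl {M : Type} {T : GTree M} {X : Set (ℕ → M)} (h : Unr T X) : Unr T Xᶜ := by
  intro M1 T1 ρ hρ k
  obtain ⟨M2, T2, c, hc⟩ := h M1 T1 ρ hρ k
  exact ⟨M2, T2, c, hc.compl⟩

/-- stages of the construction for a countable union -/
structure Stage {M0 : Type} (T0 : GTree M0) where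
  M : Type
  T : GTree M
  ρ : M → M0
  hρ : ∀ s ∈ T.mem, s.map ρ ∈ T0.mem

theorem Unr.iUnion {M0 : Type} {T0 : GTree M0} {X : ℕ → Set (ℕ → M0)}
    (h : ∀ i, Unr T0 (X i)) : Unr T0 (⋃ i, X i) := by
  intro M1 T1 ρ1 hρ1 k
  have hstep : ∀ (i : ℕ) (S : Stage T0), ∃ (S' : Stage T0) (c : Cover (k + i) S.T S'.T),
      S'.ρ = S.ρ ∘ c.π ∧ ClopenOn S'.T {x | S'.ρ ∘ x ∈ X i} := by
    intro i S
    obtain ⟨M2, T2, c, hc⟩ := h i S.M S.T S.ρ S.hρ (k + i)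
    refine ⟨⟨M2, T2, S.ρ ∘ c.π, ?_⟩, c, rfl, hc⟩
    intro s hs
    rw [← List.map_map]
    exact S.hρ _ (c.map_mem _ hs)
  choose next cov hcov1 hcov2 using hstep
  let S : ℕ → Stage T0 := fun i =>
    Nat.rec (motive := fun _ => Stage T0) ⟨M1, T1, ρ1, hρ1⟩ (fun i S => next i S) i
  let c : ∀ i, Cover (k + i) (S i).T (S (i + 1)).T := fun i => cov i (S i)
  have hρ : ∀ i, (S (i + 1)).ρ = (S i).ρ ∘ (c i).π := fun i => hcov1 i (S i)
  have hcl : ∀ i, ClopenOn (S (i + 1)).T {x | (S (i + 1)).ρ ∘ x ∈ X i} :=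
    fun i => hcov2 i (S i)
  have hpr : ∀ i, (S i).ρ ∘ pr (c := c) i = (S 0).ρ ∘ pr (c := c) 0 := by
    intro i
    induction i with
    | zero => rfl
    | succ i ih =>
      rw [← ih, hρ i, Function.comp_assoc, pr_comp_succ]
  have hclopen : ∀ i, ClopenOn (limTree c) {x | ρ1 ∘ (pr (c := c) 0 ∘ x) ∈ X i} := by
    intro i
    have h1 := ClopenOn.preimage (T := (S (i + 1)).T) (T' := limTree c)
      (π := pr (c := c) (i + 1)) (fun s hs => hs (i + 1)) (hcl i)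
    have h2 : {x | pr (c := c) (i + 1) ∘ x ∈ {x | (S (i + 1)).ρ ∘ x ∈ X i}} =
        {x : ℕ → Lim c | ρ1 ∘ (pr (c := c) 0 ∘ x) ∈ X i} := by
      ext x
      change (S (i + 1)).ρ ∘ (pr (c := c) (i + 1) ∘ x) ∈ X i ↔ (S 0).ρ ∘ (pr (c := c) 0 ∘ x) ∈ X i
      rw [← Function.comp_assoc, ← Function.comp_assoc, hpr (i + 1)]
    rw [h2] at h1
    exact h1
  have hopen : OpenOn (limTree c) {x | ρ1 ∘ (pr (c := c) 0 ∘ x) ∈ ⋃ i, X i}ᶜᶜ := by
    rw [compl_compl]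
    intro x hx hxX
    obtain ⟨i, hi⟩ := Set.mem_iUnion.1 hxX
    obtain ⟨n, hn⟩ := hclopen i x hx
    exact ⟨n, fun y hy hr => Set.mem_iUnion.2 ⟨i, (hn y hy hr).2 hi⟩⟩
  obtain ⟨M2, T2, d, hd⟩ := closed_unravel (limTree c) hopen k
  refine ⟨M2, T2, (limCover c).comp d, ?_⟩
  have h3 := hd.compl
  have h4 : {x | d.π ∘ x ∈ {x | ρ1 ∘ (pr (c := c) 0 ∘ x) ∈ ⋃ i, X i}ᶜ}ᶜ =
      {x | ρ1 ∘ (((limCover c).comp d).π ∘ x) ∈ ⋃ i, X i} := by
    ext x
    simp only [Set.mem_compl_iff, Set.mem_ofPred_eq, not_not]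
    rfl
  rw [h4] at h3
  exact h3

/-- Games with a payoff set that can be unraveled are determined. -/
theorem Unr.determined {M : Type} {T : GTree M} {X : Set (ℕ → M)} (h : Unr T X) :
    (∃ σ, Legal T 0 σ ∧ ∀ x ∈ T.plays, Cons 0 σ x → x ∈ X) ∨
    (∃ σ, Legal T 1 σ ∧ ∀ x ∈ T.plays, Cons 1 σ x → x ∉ X) := by
  obtain ⟨M2, T2, c, hc⟩ := h M T id (fun s hs => by rw [List.map_id]; exact hs) 0
  rcases galeStewart T2 (p := 0) (by omega) hc.openOn with ⟨σ, h1, h2⟩ | ⟨σ, h1, h2⟩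
  · left
    refine ⟨c.φ 0 σ, c.legal 0 σ (by omega) h1, fun x hx hcx => ?_⟩
    obtain ⟨x', hx', hcx', rfl⟩ := c.lift 0 σ (by omega) h1 x hx hcx
    exact h2 x' hx' hcx'
  · right
    refine ⟨c.φ 1 σ, c.legal 1 σ (by omega) h1, fun x hx hcx => ?_⟩
    obtain ⟨x', hx', hcx', rfl⟩ := c.lift 1 σ (by omega) h1 x hx hcx
    exact h2 x' hx' hcx'

/-- the full tree -/
def fullTree (M : Type) [Nonempty M] : GTree M where
  mem := Set.univ
  nil_mem := trivial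
  tail_mem := fun _ => trivial
  pruned := fun _ => ⟨Classical.arbitrary M, trivial⟩

theorem openOn_of_isOpen {M : Type} [TopologicalSpace M] [DiscreteTopology M] (T : GTree M)
    {X : Set (ℕ → M)} (hX : IsOpen X) : OpenOn T X := by
  intro x _ hxX
  obtain ⟨v, ⟨y, n, rfl⟩, hxv, hv⟩ :=
    (isTopologicalBasis_cylinders (fun _ : ℕ => M)).exists_subset_of_mem_open hxX hX
  refine ⟨n, fun z _ hr => hv ?_⟩
  rw [cylinder_eq_res] at hxv ⊢
  exact hr.trans hxv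

theorem Unr.of_measurable {X : Set (ℕ → ℕ)} (hX : MeasurableSet X) (T : GTree ℕ) :
    Unr T X := by
  induction X, hX using MeasurableSet.induction_on_open with
  | isOpen U hU =>
    have h1 : Unr T Uᶜ := Unr.of_closed (by rw [compl_compl]; exact openOn_of_isOpen T hU)
    have h2 := h1.compl
    rwa [compl_compl] at h2
  | compl U _ ih => exact ih.compl
  | iUnion f _ _ ih => exact Unr.iUnion ih

/-- **Borel determinacy** for games on the natural numbers. -/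
theorem borel_determinacy (X : Set (ℕ → ℕ)) (hX : MeasurableSet X) :
    (∃ s : List ℕ → ℕ, ∀ x : ℕ → ℕ,
      (∀ n, n % 2 = 0 → x n = s (PiNat.res x n)) → x ∈ X) ∨
    (∃ s : List ℕ → ℕ, ∀ x : ℕ → ℕ,
      (∀ n, n % 2 = 1 → x n = s (PiNat.res x n)) → x ∉ X) := by
  rcases (Unr.of_measurable hX (fullTree ℕ)).determined with ⟨σ, _, h⟩ | ⟨σ, _, h⟩
  · exact Or.inl ⟨σ, fun x hx => h x (fun _ => trivial) hx⟩
  · exact Or.inr ⟨σ, fun x hx => h x (fun _ => trivial) hx⟩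

end Pool.Agent.MP106504
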