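import Mathlib

/-!
# A continuous open surjection from Baire space onto a nonempty Polish space (MP_106504_lc)
-/

namespace Pool.Agent.MP106504

open Set Topology

/-- A nonempty open set is the union of a sequence of nonempty open sets of small diameter
whose closures it contains. -/
theorem exists_children {X : Type*} [MetricSpace X] [SecondCountableTopology X]
    {U : Set X} (hU : IsOpen U) (hne : U.Nonempty) {ε : ENNReal} (hε : 0 < ε) :
    ∃ V : ℕ → Set X, (∀ n, IsOpen (V n)) ∧ (∀ n, (V n).Nonempty) ∧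
      (∀ n, closure (V n) ⊆ U) ∧ (∀ n, Metric.ediam (V n) ≤ ε) ∧ U ⊆ ⋃ n, V n := by
  classical
  let b := TopologicalSpace.countableBasis X
  have hb : TopologicalSpace.IsTopologicalBasis b := TopologicalSpace.isBasis_countableBasis X
  let T : Set (Set X) := {B | B ∈ b ∧ B.Nonempty ∧ closure B ⊆ U ∧ Metric.ediam B ≤ ε}
  have hT : T.Countable := (TopologicalSpace.countable_countableBasis X).mono fun B hB => hB.1
  have hcov : ∀ x ∈ U, ∃ B ∈ T, x ∈ B := by
    intro x hx
    obtain ⟨ε', hε', hε'2⟩ : ∃ r : ℝ, 0 < r ∧ ENNReal.ofReal (2 * r) ≤ ε := by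
      rcases eq_or_ne ε ⊤ with h | h
      · exact ⟨1, one_pos, by simp [h]⟩
      · refine ⟨ε.toReal / 2, half_pos (ENNReal.toReal_pos hε.ne' h), ?_⟩
        rw [mul_div_cancel₀ _ (two_ne_zero), ENNReal.ofReal_toReal h]
    have hx1 : U ∩ Metric.ball x ε' ∈ 𝓝 x :=
      Filter.inter_mem (hU.mem_nhds hx) (Metric.ball_mem_nhds x hε')
    obtain ⟨K, ⟨hK, hKc⟩, hKU⟩ := (closed_nhds_basis x).mem_iff.1 hx1
    obtain ⟨B, hB, hxB, hBK⟩ := hb.mem_nhds_iff.1 hK
    refine ⟨B, ⟨hB, ⟨x, hxB⟩, ?_, ?_⟩, hxB⟩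
    · exact (closure_minimal hBK hKc).trans (hKU.trans inter_subset_left)
    · refine le_trans (Metric.ediam_mono (hBK.trans (hKU.trans inter_subset_right))) ?_
      refine Metric.ediam_le ?_
      intro y hy z hz
      rw [edist_dist]
      refine le_trans (ENNReal.ofReal_le_ofReal ?_) hε'2
      rw [Metric.mem_ball] at hy hz
      linarith [dist_triangle_right y z x]
  have hTne : T.Nonempty := by
    obtain ⟨x, hx⟩ := hne
    obtain ⟨B, hB, -⟩ := hcov x hx
    exact ⟨B, hB⟩
  obtain ⟨V, hV⟩ := hT.exists_eq_range hTne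
  have hmem : ∀ n, V n ∈ T := fun n => by rw [hV]; exact mem_range_self n
  refine ⟨V, fun n => hb.isOpen (hmem n).1, fun n => (hmem n).2.1, fun n => (hmem n).2.2.1,
    fun n => (hmem n).2.2.2, ?_⟩
  intro x hx
  obtain ⟨B, hB, hxB⟩ := hcov x hx
  rw [hV] at hB
  obtain ⟨n, rfl⟩ := hB
  exact mem_iUnion.2 ⟨n, hxB⟩

theorem exists_open_surj (X : Type) [TopologicalSpace X] [PolishSpace X] [Nonempty X] :
    ∃ ψ : (ℕ → ℕ) → X, Continuous ψ ∧ IsOpenMap ψ ∧ Function.Surjective ψ := by
  classical
  let _ := TopologicalSpace.upgradeIsCompletelyMetrizable X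
  have hstep : ∀ (U : {U : Set X // IsOpen U ∧ U.Nonempty}) (k : ℕ),
      ∃ V : ℕ → {U : Set X // IsOpen U ∧ U.Nonempty},
        (∀ n, closure (V n : Set X) ⊆ U) ∧
        (∀ n, Metric.ediam (V n : Set X) ≤ (2⁻¹ : ENNReal) ^ k) ∧
        (U : Set X) ⊆ ⋃ n, (V n : Set X) := by
    intro U k
    obtain ⟨V, h1, h2, h3, h4, h5⟩ := exists_children (X := X) U.2.1 U.2.2
      (ε := (2⁻¹ : ENNReal) ^ k) (ENNReal.pow_pos (by simp) _)
    exact ⟨fun n => ⟨V n, h1 n, h2 n⟩, h3, h4, h5⟩
  choose V hV1 hV2 hV3 using hstep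
  let A' : List ℕ → {U : Set X // IsOpen U ∧ U.Nonempty} := fun l =>
    List.rec (motive := fun _ => {U : Set X // IsOpen U ∧ U.Nonempty})
      ⟨univ, isOpen_univ, univ_nonempty⟩ (fun a l U => V U l.length a) l
  let A : List ℕ → Set X := fun l => (A' l : Set X)
  have hAcons : ∀ (a : ℕ) (l : List ℕ), A' (a :: l) = V (A' l) l.length a := fun a l => rfl
  have hanti : CantorScheme.ClosureAntitone A := by
    intro l a
    change closure ((A' (a :: l) : Set X)) ⊆ (A' l : Set X)
    rw [hAcons]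
    exact hV1 _ _ _
  have hdiam : CantorScheme.VanishingDiam A := by
    intro x
    have h1 : ∀ n, Metric.ediam (A (PiNat.res x (n + 1))) ≤ (2⁻¹ : ENNReal) ^ n := by
      intro n
      rw [PiNat.res_succ]
      change Metric.ediam ((A' (x n :: PiNat.res x n) : Set X)) ≤ _
      rw [hAcons]
      refine (hV2 _ _ _).trans (le_of_eq ?_)
      rw [PiNat.res_length]
    rw [← Filter.tendsto_add_atTop_iff_nat 1]
    refine tendsto_of_tendsto_of_tendsto_of_le_of_le tendsto_const_nhds
      (ENNReal.tendsto_pow_atTop_nhds_zero_of_lt_one (r := 2⁻¹) ?_) (fun _ => bot_le) h1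
    exact ENNReal.inv_lt_one.2 ENNReal.one_lt_two
  have hmap : (CantorScheme.inducedMap A).1 = univ :=
    hanti.map_of_vanishingDiam hdiam fun l => (A' l).2.2
  let ψ : (ℕ → ℕ) → X := fun x =>
    (CantorScheme.inducedMap A).2 ⟨x, by rw [hmap]; exact mem_univ x⟩
  have hψmem : ∀ x n, ψ x ∈ A (PiNat.res x n) := fun x n =>
    CantorScheme.map_mem (A := A) ⟨x, by rw [hmap]; exact mem_univ x⟩ n
  have hψc : Continuous ψ :=
    (CantorScheme.VanishingDiam.map_continuous (A := A) hdiam).comp
      (Continuous.subtype_mk continuous_id _)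
  have huniq : ∀ x y, (∀ n, y ∈ A (PiNat.res x n)) → ψ x = y := by
    intro x y hy
    refine eq_of_forall_dist_le fun ε hε => ?_
    obtain ⟨n, hn⟩ := hdiam.dist_lt ε hε x
    exact (hn _ (hψmem x n) _ (hy n)).le
  -- every point of `A (res x n)` is the image of a sequence extending `x ↾ n`
  have hsurj : ∀ (x : ℕ → ℕ) (n : ℕ) (y : X), y ∈ A (PiNat.res x n) →
      ∃ z ∈ PiNat.cylinder x n, ψ z = y := by
    intro x n y hy
    have hnext : ∀ l : List ℕ, ∃ a : ℕ, y ∈ A l → y ∈ A (a :: l) := by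
      intro l
      by_cases h : y ∈ A l
      · obtain ⟨a, ha⟩ := mem_iUnion.1 (hV3 (A' l) l.length h)
        exact ⟨a, fun _ => ha⟩
      · exact ⟨0, fun h' => absurd h' h⟩
    choose nx hnx using hnext
    let L : ℕ → List ℕ := fun k => Nat.rec (PiNat.res x n) (fun _ l => nx l :: l) k
    have hLs : ∀ k, L (k + 1) = nx (L k) :: L k := fun k => rfl
    have hLy : ∀ k, y ∈ A (L k) := by
      intro k
      induction k with
      | zero => exact hy
      | succ k ih => rw [hLs]; exact hnx _ ih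
    let z : ℕ → ℕ := fun m => if m < n then x m else nx (L (m - n))
    have hz1 : ∀ m, m ≤ n → PiNat.res z m = PiNat.res x m := by
      intro m
      induction m with
      | zero => intro _; rfl
      | succ m ih =>
        intro hm
        rw [PiNat.res_succ, PiNat.res_succ, ih (by omega)]
        congr 1
        simp only [z]
        rw [if_pos (by omega)]
    have hz2 : ∀ k, PiNat.res z (n + k) = L k := by
      intro k
      induction k with
      | zero => exact hz1 n le_rfl
      | succ k ih =>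
        rw [← Nat.add_assoc, PiNat.res_succ, ih, hLs]
        congr 1
        simp only [z]
        rw [if_neg (by omega)]
        congr 2
        omega
    refine ⟨z, ?_, ?_⟩
    · rw [PiNat.cylinder_eq_res]
      exact hz1 n le_rfl
    · refine huniq z y fun m => ?_
      rcases le_total m n with h | h
      · have hA : ∀ j, y ∈ A (PiNat.res x (m + j)) → y ∈ A (PiNat.res x m) := by
          intro j
          induction j with
          | zero => exact id
          | succ j ih =>
            intro hj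
            apply ih
            rw [← Nat.add_assoc, PiNat.res_succ] at hj
            exact hanti.antitone _ _ hj
        rw [hz1 m h]
        apply hA (n - m)
        rw [show m + (n - m) = n by omega]
        exact hy
      · obtain ⟨k, rfl⟩ := Nat.exists_eq_add_of_le h
        rw [hz2]
        exact hLy k
  refine ⟨ψ, hψc, ?_, ?_⟩
  · intro S hS
    rw [isOpen_iff_mem_nhds]
    rintro _ ⟨x, hx, rfl⟩
    obtain ⟨n, hn⟩ : ∃ n, PiNat.cylinder x n ⊆ S := by
      obtain ⟨_, ⟨w, n, rfl⟩, hxU, hUS⟩ :=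
        (PiNat.isTopologicalBasis_cylinders (fun _ : ℕ => ℕ)).isOpen_iff.1 hS x hx
      exact ⟨n, by rwa [PiNat.mem_cylinder_iff_eq.1 hxU]⟩
    refine Filter.mem_of_superset ((A' (PiNat.res x n)).2.1.mem_nhds (hψmem x n)) ?_
    intro y hy
    obtain ⟨z, hz, rfl⟩ := hsurj x n y hy
    exact ⟨z, hn hz, rfl⟩
  · intro y
    obtain ⟨z, -, hz⟩ := hsurj (fun _ => 0) 0 y (by
      change y ∈ (A' [] : Set X)
      exact mem_univ y)
    exact ⟨z, hz⟩

end Pool.Agent.MP106504
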