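import Pool.Agent.Lib.MP_106504_lc.Classes

/-!
# The Vaught transform of a transfinite difference (MP_106504_lc)
-/

namespace Pool.Agent.MP106504

open Set Ordinal Topology

theorem countable_Iio_of_lt_omega_one {η : Ordinal.{0}} (h : η < ω₁) :
    Countable (Set.Iio η) := by
  rw [← Cardinal.mk_le_aleph0_iff]
  have h1 : η.card < Cardinal.aleph 1 := by
    rw [← Cardinal.ord_aleph, Cardinal.lt_ord] at h
    exact h
  have h2 : η.card ≤ Cardinal.aleph0 := by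
    rw [← Cardinal.succ_aleph0] at h1
    exact Order.lt_succ_iff.1 h1
  rw [Cardinal.mk_Iio_ordinal, Cardinal.lift_le_aleph0]
  exact h2

section Vaught

section Fibre

variable {X : Type} {ψ : (ℕ → ℕ) → X}

/-- the trace of `A` on the fibre of `x` is meagre -/
def FM (ψ : (ℕ → ℕ) → X) (x : X) (A : Set (ℕ → ℕ)) : Prop :=
  IsMeagre ((↑) ⁻¹' A : Set ↥(ψ ⁻¹' {x}))

theorem FM.mono {x : X} {A B : Set (ℕ → ℕ)} (h : FM ψ x B) (hAB : A ∩ ψ ⁻¹' {x} ⊆ B) :
    FM ψ x A :=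
  IsMeagre.mono (fun z hz => hAB ⟨hz, z.2⟩) h

theorem FM.iUnion {ι : Sort*} [Countable ι] {x : X} {A : ι → Set (ℕ → ℕ)}
    (h : ∀ i, FM ψ x (A i)) : FM ψ x (⋃ i, A i) := by
  unfold FM
  rw [preimage_iUnion]
  exact isMeagre_iUnion h

theorem FM.union {x : X} {A B : Set (ℕ → ℕ)} (hA : FM ψ x A) (hB : FM ψ x B) :
    FM ψ x (A ∪ B) := by
  rw [union_eq_iUnion]
  refine FM.iUnion fun b => ?_
  cases b
  · exact hB
  · exact hA

theorem fm_empty {x : X} : FM ψ x ∅ := by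
  unfold FM
  rw [preimage_empty]
  exact IsMeagre.empty

end Fibre

variable {X : Type} [TopologicalSpace X] [PolishSpace X] {ψ : (ℕ → ℕ) → X}

/-- fibres are Baire spaces: a nonempty open set is not meagre -/
theorem not_fm_of_isOpen (hc : Continuous ψ) {x : X} {U : Set (ℕ → ℕ)} (hU : IsOpen U)
    (hne : (U ∩ ψ ⁻¹' {x}).Nonempty) : ¬ FM ψ x U := by
  have hcl : IsClosed (ψ ⁻¹' {x}) := isClosed_singleton.preimage hc
  have : PolishSpace ↥(ψ ⁻¹' {x}) := hcl.polishSpace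
  intro h
  obtain ⟨z, hzU, hz⟩ := hne
  have ho : IsOpen ((↑) ⁻¹' U : Set ↥(ψ ⁻¹' {x})) := hU.preimage continuous_subtype_val
  have := not_isMeagre_of_isOpen ho ⟨⟨z, hz⟩, hzU⟩
  exact this h

/-- local form of the Baire property in the fibre -/
theorem exists_basic_of_not_fm {b : Set (Set (ℕ → ℕ))}
    (hb : TopologicalSpace.IsTopologicalBasis b) {x : X} {A V : Set (ℕ → ℕ)}
    (hA : MeasurableSet A) (hV : IsOpen V) (h : ¬ FM ψ x (A ∩ V)) :
    ∃ W ∈ b, W ⊆ V ∧ (W ∩ ψ ⁻¹' {x}).Nonempty ∧ FM ψ x (Aᶜ ∩ W) := by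
  have hA' : MeasurableSet ((↑) ⁻¹' A : Set ↥(ψ ⁻¹' {x})) := hA.preimage measurable_subtype_coe
  obtain ⟨u, hu, hAu⟩ := hA'.residualEq_isOpen
  obtain ⟨U, hU, rfl⟩ := isOpen_induced_iff.1 hu
  -- `U ∩ V` meets the fibre
  have hdiff1 : FM ψ x (A \ U) := by
    have h2 : ∀ᵇ z : ↥(ψ ⁻¹' {x}), z ∉ ((↑) ⁻¹' (A \ U) : Set ↥(ψ ⁻¹' {x})) := by
      filter_upwards [Filter.eventuallyEq_set.1 hAu] with z hz hz2
      exact hz2.2 (hz.1 hz2.1)
    exact h2
  have hdiff2 : FM ψ x (U \ A) := by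
    have h2 : ∀ᵇ z : ↥(ψ ⁻¹' {x}), z ∉ ((↑) ⁻¹' (U \ A) : Set ↥(ψ ⁻¹' {x})) := by
      filter_upwards [Filter.eventuallyEq_set.1 hAu] with z hz hz2
      exact hz2.2 (hz.2 hz2.1)
    exact h2
  have hne : ((U ∩ V) ∩ ψ ⁻¹' {x}).Nonempty := by
    by_contra hcon
    rw [not_nonempty_iff_eq_empty] at hcon
    apply h
    refine hdiff1.mono ?_
    rintro z ⟨⟨hzA, hzV⟩, hz⟩
    refine ⟨hzA, fun hzU => ?_⟩
    have : z ∈ ((U ∩ V) ∩ ψ ⁻¹' {x}) := ⟨⟨hzU, hzV⟩, hz⟩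
    rw [hcon] at this
    exact this
  obtain ⟨z, hzUV, hz⟩ := hne
  obtain ⟨W, hW, hzW, hWU⟩ := hb.isOpen_iff.1 (hU.inter hV) z hzUV
  refine ⟨W, hW, hWU.trans inter_subset_right, ⟨z, hzW, hz⟩, ?_⟩
  refine hdiff2.mono ?_
  rintro y ⟨⟨hy1, hy2⟩, -⟩
  exact ⟨(hWU hy2).1, hy1⟩

/-- the Vaught transform of a `Σ⁰_ξ` set is `Σ⁰_ξ` -/
theorem sigma_vaught (hc : Continuous ψ) (ho : IsOpenMap ψ) {ξ : Ordinal.{0}}
    {A : Set (ℕ → ℕ)} (hA : IsSigma ξ A) :
    ∀ V : Set (ℕ → ℕ), IsOpen V → IsSigma ξ {x : X | ¬ FM ψ x (A ∩ V)} := by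
  induction hA with
  | of_isOpen U hU =>
    intro V hV
    refine IsSigma.of_isOpen _ ?_
    have : {x : X | ¬ FM ψ x (U ∩ V)} = ψ '' (U ∩ V) := by
      ext x
      simp only [mem_ofPred_eq, mem_image]
      constructor
      · intro h
        by_contra hcon
        apply h
        refine fm_empty.mono ?_
        rintro z ⟨hz1, hz2⟩
        exact absurd ⟨z, hz1, hz2⟩ hcon
      · rintro ⟨z, hz, rfl⟩
        exact not_fm_of_isOpen hc (hU.inter hV) ⟨z, hz, rfl⟩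
    rw [this]
    exact ho _ (hU.inter hV)
  | iUnion ξ A η h1 hη hA ih =>
    intro V hV
    let b := TopologicalSpace.countableBasis (ℕ → ℕ)
    have hb : TopologicalSpace.IsTopologicalBasis b :=
      TopologicalSpace.isBasis_countableBasis (ℕ → ℕ)
    have hbc : b.Countable := TopologicalSpace.countable_countableBasis (ℕ → ℕ)
    have : Countable b := hbc.to_subtype
    have heq : {x : X | ¬ FM ψ x ((⋃ n, A n) ∩ V)} =
        ⋃ p : ℕ × {W : b // (W : Set (ℕ → ℕ)) ⊆ V},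
          (ψ '' (p.2.1 : Set (ℕ → ℕ)) ∩ {x : X | ¬ FM ψ x ((A p.1)ᶜ ∩ p.2.1)}ᶜ) := by
      ext x
      simp only [mem_ofPred_eq, mem_iUnion, mem_inter_iff, mem_compl_iff, not_not]
      constructor
      · intro h
        have h2 : ∃ n, ¬ FM ψ x (A n ∩ V) := by
          by_contra hcon
          push Not at hcon
          apply h
          rw [iUnion_inter]
          exact FM.iUnion hcon
        obtain ⟨n, hn⟩ := h2
        have hm : MeasurableSet (A n) := by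
          have := (hA n).measurableSet
          simpa using this.compl
        obtain ⟨W, hW, hWV, ⟨z, hzW, hz⟩, hfm⟩ := exists_basic_of_not_fm hb hm hV hn
        exact ⟨(n, ⟨⟨W, hW⟩, hWV⟩), ⟨z, hzW, hz⟩, hfm⟩
      · rintro ⟨⟨n, ⟨W, hW⟩, hWV⟩, ⟨z, hzW, hz⟩, hfm⟩ hcon
        refine not_fm_of_isOpen hc (hb.isOpen hW) ⟨z, hzW, hz⟩ ?_
        refine (hcon.union hfm).mono ?_
        rintro y ⟨hyW, -⟩
        by_cases hy : y ∈ A n
        · exact Or.inl ⟨mem_iUnion.2 ⟨n, hy⟩, hWV hyW⟩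
        · exact Or.inr ⟨hy, hyW⟩
    rw [heq]
    refine IsSigma.ciUnion h1.le fun p => ?_
    refine IsSigma.inter ?_ ?_
    · exact (IsSigma.of_isOpen _ (ho _ (hb.isOpen p.2.1.2))).mono h1.le
    · have h3 := ih p.1 p.2.1 (hb.isOpen p.2.1.2)
      refine IsPi.sigma_of_lt (η := η p.1) ?_ (hη p.1).2
      unfold IsPi
      rw [compl_compl]
      exact h3

theorem pi_vaught (hc : Continuous ψ) (ho : IsOpenMap ψ) {ξ : Ordinal.{0}}
    {A : Set (ℕ → ℕ)} (hA : IsPi ξ A) : IsPi ξ {x : X | FM ψ x Aᶜ} := by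
  have h := sigma_vaught hc ho hA univ isOpen_univ
  unfold IsPi
  have heq : {x : X | FM ψ x Aᶜ}ᶜ = {x : X | ¬ FM ψ x (Aᶜ ∩ univ)} := by
    rw [inter_univ]
    rfl
  rw [heq]
  exact h

theorem vaught {X : Type} [TopologicalSpace X] [PolishSpace X] {ψ : (ℕ → ℕ) → X}
    (hc : Continuous ψ) (ho : IsOpenMap ψ) (hs : Function.Surjective ψ)
    {ξ lam : Ordinal.{0}} (hξ : 1 ≤ ξ) (hlam : Order.IsSuccLimit lam) (hlam' : lam < ω₁)
    {S : Set (ℕ → ℕ)} (hS : IsDiff ξ lam S) :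
    ∃ D : Set X, IsDiff ξ lam D ∧ (∀ x, ψ ⁻¹' {x} ⊆ S → x ∈ D) ∧
      (∀ x, Disjoint (ψ ⁻¹' {x}) S → x ∉ D) := by
  obtain ⟨F, hF, rfl⟩ := hS
  let G : Ordinal.{0} → Set X := fun η => {x : X | FM ψ x (F η)ᶜ}
  have hG : ContSeq ξ lam G := by
    refine ⟨fun η hη => pi_vaught hc ho (hF.pi η hη), fun h0 => ?_, fun η θ h1 h2 => ?_,
      fun η hη hl => ?_⟩
    · ext x
      simp only [G, mem_ofPred_eq, mem_univ, iff_true]
      rw [hF.zero h0, compl_univ]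
      exact fm_empty
    · intro x hx
      refine FM.mono hx ?_
      rintro z ⟨hz, -⟩ hz2
      exact hz (hF.anti η θ h1 h2 hz2)
    · have := countable_Iio_of_lt_omega_one (hη.trans hlam')
      ext x
      simp only [G, mem_ofPred_eq, mem_iInter]
      constructor
      · intro hx θ hθ
        refine FM.mono hx ?_
        rintro z ⟨hz, -⟩ hz2
        exact hz (hF.anti θ η hθ.le hη hz2)
      · intro hx
        have : (F η)ᶜ = ⋃ θ : Iio η, (F θ)ᶜ := by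
          rw [hF.lim η hη hl]
          ext z
          simp
        rw [this]
        exact FM.iUnion fun θ => hx θ θ.2
  have hlamc : Countable (Iio lam) := countable_Iio_of_lt_omega_one hlam'
  refine ⟨tdiff lam G, ⟨G, hG, rfl⟩, fun x hx => ?_, fun x hx => ?_⟩
  · rcases hG.exists_level hlam x with h | ⟨η, hη, h1, h2⟩
    · exfalso
      have h3 : FM ψ x (⋃ η : Iio lam, (F η)ᶜ) := FM.iUnion fun η => h η η.2
      obtain ⟨z, hz⟩ := hs x
      refine not_fm_of_isOpen hc isOpen_univ ⟨z, mem_univ _, hz⟩ (h3.mono ?_)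
      rintro y ⟨-, hy⟩
      obtain ⟨η, hη, -, -, hy2⟩ := hx hy
      exact mem_iUnion.2 ⟨⟨η + 1, hlam.succ_lt hη⟩, hy2⟩
    · refine ⟨η, hη, ?_, h1, h2⟩
      by_contra hodd
      apply h2
      refine FM.mono h1 ?_
      rintro z ⟨hz1, hz2⟩ hz3
      obtain ⟨θ, hθ, heven, hzθ, hzθ'⟩ := hx hz2
      have hle : η ≤ θ := by
        by_contra hlt
        rw [not_le] at hlt
        exact hzθ' (hF.anti (θ + 1) η (Order.succ_le_of_lt hlt) hη hz3)
      rcases hle.eq_or_lt with h | h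
      · exact hodd (h ▸ heven)
      · exact hz1 (hF.anti (η + 1) θ (Order.succ_le_of_lt h) hθ hzθ)
  · rintro ⟨η, hη, heven, h1, h2⟩
    apply h2
    refine FM.mono h1 ?_
    rintro z ⟨hz1, hz2⟩ hz3
    exact (disjoint_left.1 hx hz2) ⟨η, hη, heven, hz3, hz1⟩

end Vaught

end Pool.Agent.MP106504
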