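import Pool.Agent.Lib.MP_106504_lc.Universal
import Pool.Agent.Lib.MP_106504_lc.OpenSurj
import Pool.Agent.Lib.MP_106504_lc.Vaught
import Pool.Agent.Lib.MP_106504_lc.Determinacy

/-!
# The dichotomy for separation by transfinite differences (MP_106504_lc, part P5)
-/

namespace Pool.Agent.MP106504

open Set Ordinal PiNat

set_option linter.unusedSectionVars false
set_option linter.style.haveILetI false

/-- the position after `n` moves of the play in which move `n` is `f n (b (n / 2)) (position)` -/
def playPos (f : ℕ → ℕ → List ℕ → ℕ) (b : ℕ → ℕ) : ℕ → List ℕ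
  | 0 => []
  | n + 1 => f n (b (n / 2)) (playPos f b n) :: playPos f b n

/-- the play -/
def play (f : ℕ → ℕ → List ℕ → ℕ) (b : ℕ → ℕ) (n : ℕ) : ℕ := f n (b (n / 2)) (playPos f b n)

theorem res_play (f : ℕ → ℕ → List ℕ → ℕ) (b : ℕ → ℕ) (n : ℕ) :
    PiNat.res (play f b) n = playPos f b n := by
  induction n with
  | zero => rfl
  | succ n ih =>
    rw [PiNat.res_succ, ih]
    rfl

theorem continuous_playPos (f : ℕ → ℕ → List ℕ → ℕ) (n : ℕ) :
    @Continuous (ℕ → ℕ) (List ℕ) _ ⊥ (fun b => playPos f b n) := by
  letI : TopologicalSpace (List ℕ) := ⊥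
  haveI : DiscreteTopology (List ℕ) := ⟨rfl⟩
  induction n with
  | zero => exact continuous_const
  | succ n ih =>
    have h1 : Continuous (fun b : ℕ → ℕ => (b (n / 2), playPos f b n)) :=
      (continuous_apply (n / 2)).prodMk ih
    have h2 : Continuous (fun p : ℕ × List ℕ => f n p.1 p.2 :: p.2) :=
      continuous_of_discreteTopology
    exact h2.comp h1

theorem continuous_play (f : ℕ → ℕ → List ℕ → ℕ) : Continuous (play f) := by
  letI : TopologicalSpace (List ℕ) := ⊥
  haveI : DiscreteTopology (List ℕ) := ⟨rfl⟩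
  refine continuous_pi fun n => ?_
  have h1 : Continuous (fun b : ℕ → ℕ => (b (n / 2), playPos f b n)) :=
    (continuous_apply (n / 2)).prodMk (continuous_playPos f n)
  have h2 : Continuous (fun p : ℕ × List ℕ => f n p.1 p.2) :=
    continuous_of_discreteTopology
  exact h2.comp h1

/-- the bits played by player one -/
def evBits (x : ℕ → ℕ) : ℕ → Bool := fun n => decide (x (2 * n) = 1)

/-- the moves played by player two -/
def odds (x : ℕ → ℕ) : ℕ → ℕ := fun n => x (2 * n + 1)

theorem continuous_evBits : Continuous evBits := by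
  refine continuous_pi fun n => ?_
  have h2 : Continuous (fun k : ℕ => decide (k = 1)) := continuous_of_discreteTopology
  exact h2.comp (continuous_apply (2 * n))

theorem continuous_odds : Continuous odds :=
  continuous_pi fun n => continuous_apply (2 * n + 1)

theorem IsDiff.measurableSet {X : Type} [TopologicalSpace X] [PolishSpace X] [MeasurableSpace X]
    [BorelSpace X] {ξ lam : Ordinal.{0}} (hlam : Order.IsSuccLimit lam) (hlam' : lam < ω₁)
    {D : Set X} (h : IsDiff ξ lam D) : MeasurableSet D := by
  obtain ⟨F, hF, rfl⟩ := h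
  have hc : (Iio lam ∩ {η | EvenOrd η}).Countable :=
    (countable_Iio_of_lt hlam').mono inter_subset_left
  have : tdiff lam F = ⋃ η ∈ (Iio lam ∩ {η | EvenOrd η}), (F η \ F (η + 1)) := by
    ext x
    simp only [tdiff, mem_iUnion, mem_sdiff, mem_inter_iff, mem_Iio]
    constructor
    · rintro ⟨η, h1, h2, h3, h4⟩
      exact ⟨η, ⟨h1, h2⟩, h3, h4⟩
    · rintro ⟨η, ⟨h1, h2⟩, h3, h4⟩
      exact ⟨η, h1, h2, h3, h4⟩
  rw [this]
  refine MeasurableSet.biUnion hc fun η hη => ?_
  have h5 : η + 1 < lam := by
    rw [← Order.succ_eq_add_one]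
    exact hlam.succ_lt hη.1
  exact (hF.pi η hη.1).measurableSet.diff (hF.pi _ h5).measurableSet

theorem isDiff_empty {X : Type} [TopologicalSpace X] [PolishSpace X] {ξ lam : Ordinal.{0}}
    (hξ : 1 ≤ ξ) : IsDiff ξ lam (∅ : Set X) := by
  refine ⟨fun _ => Set.univ, ⟨fun η _ => IsPi.univ hξ, fun _ => rfl, fun _ _ _ _ => subset_rfl,
    fun η _ _ => ?_⟩, ?_⟩
  · simp
  · ext x
    simp [tdiff]

/-- the dichotomy -/
theorem dichotomy {X : Type} [TopologicalSpace X] [PolishSpace X]
    {ξ lam : Ordinal.{0}} (hξ : 1 ≤ ξ) (hξ' : ξ < ω₁)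
    (hlam : Order.IsSuccLimit lam) (hlam' : lam < ω₁) {A B : Set X}
    (hA : IsPi (ξ + 1) A) (hB : IsPi (ξ + 1) B) (hAB : Disjoint A B)
    (hns : ¬ ∃ D, IsDiff ξ lam D ∧ A ⊆ D ∧ Disjoint D B) :
    ∃ g : (ℕ → Bool) → X, Continuous g ∧ (∀ a, g a ∈ A ∨ g a ∈ B) ∧
      ¬ IsDiff ξ lam (g ⁻¹' A) := by
  rcases isEmpty_or_nonempty X with he | hne
  · exfalso
    apply hns
    exact ⟨∅, isDiff_empty hξ, fun x => (he.false x).elim, disjoint_bot_left⟩
  letI : MeasurableSpace X := borel X
  haveI : BorelSpace X := ⟨rfl⟩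
  obtain ⟨ψ, hc, ho, hs⟩ := exists_open_surj X
  obtain ⟨C, hC1, hC2⟩ := exists_diag hξ hξ' hlam hlam'
  let W : Set (ℕ → ℕ) := {x | ¬ ((evBits x ∈ C ∧ ψ (odds x) ∈ A) ∨
    (evBits x ∉ C ∧ ψ (odds x) ∈ B))}
  have hCm : MeasurableSet C := (hC1.measurableSet hlam hlam').of_compl
  have hW : MeasurableSet W := by
    have h1 : MeasurableSet {x | evBits x ∈ C} := continuous_evBits.measurable hCm
    have h2 : MeasurableSet {x | ψ (odds x) ∈ A} :=
      (hc.comp continuous_odds).measurable hA.measurableSet
    have h3 : MeasurableSet {x | ψ (odds x) ∈ B} :=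
      (hc.comp continuous_odds).measurable hB.measurableSet
    exact ((h1.inter h2).union (h1.compl.inter h3)).compl
  rcases borel_determinacy W hW with ⟨s, hs1⟩ | ⟨s, hs1⟩
  · -- player one wins
    exfalso
    let f : ℕ → ℕ → List ℕ → ℕ := fun n v l => if n % 2 = 0 then s l else v
    let τ : (ℕ → ℕ) → (ℕ → Bool) := fun b => evBits (play f b)
    have hτ : Continuous τ := continuous_evBits.comp (continuous_play f)
    have hodd : ∀ b, odds (play f b) = b := by
      intro b
      funext n
      have h1 : (2 * n + 1) % 2 ≠ 0 := by omega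
      have h2 : (2 * n + 1) / 2 = n := by omega
      simp only [odds, play, f, h1, if_false, h2]
    have hwin : ∀ b, play f b ∈ W := by
      intro b
      refine hs1 _ fun n hn => ?_
      rw [res_play]
      simp only [play, f, hn, if_true]
    obtain ⟨D, hD1, hD2, hD3⟩ := vaught hc ho hs hξ hlam hlam' (hC1.preimage hτ)
    apply hns
    refine ⟨D, hD1, fun x hx => hD2 x ?_, ?_⟩
    · intro b hb
      have hb' : ψ b = x := hb
      have h1 := hwin b
      simp only [W, mem_ofPred_eq, hodd, not_or, not_and] at h1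
      intro h2
      exact h1.1 h2 (by rw [hb']; exact hx)
    · rw [Set.disjoint_left]
      intro x hxD hxB
      refine hD3 x ?_ hxD
      rw [Set.disjoint_left]
      intro b hb hb2
      have hb' : ψ b = x := hb
      have h1 := hwin b
      simp only [W, mem_ofPred_eq, hodd, not_or, not_and] at h1
      exact h1.2 hb2 (by rw [hb']; exact hxB)
  · -- player two wins
    let f : ℕ → ℕ → List ℕ → ℕ := fun n v l => if n % 2 = 1 then s l else v
    let bb : (ℕ → Bool) → (ℕ → ℕ) := fun a n => if a n = true then 1 else 0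
    have hbb : Continuous bb := by
      refine continuous_pi fun n => ?_
      have h2 : Continuous (fun k : Bool => if k = true then (1 : ℕ) else 0) :=
        continuous_of_discreteTopology
      exact h2.comp (continuous_apply n)
    let σ : (ℕ → Bool) → (ℕ → ℕ) := fun a => odds (play f (bb a))
    have hσ : Continuous σ := continuous_odds.comp ((continuous_play f).comp hbb)
    have hev : ∀ a, evBits (play f (bb a)) = a := by
      intro a
      funext n
      have h1 : (2 * n) % 2 ≠ 1 := by omega
      have h2 : (2 * n) / 2 = n := by omega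
      simp only [evBits, play, f, h1, if_false, h2, bb]
      cases a n <;> simp
    have hwin : ∀ a, (a ∈ C ∧ ψ (σ a) ∈ A) ∨ (a ∉ C ∧ ψ (σ a) ∈ B) := by
      intro a
      have h1 : play f (bb a) ∉ W := by
        refine hs1 _ fun n hn => ?_
        rw [res_play]
        simp only [play, f, hn, if_true]
      simp only [W, mem_ofPred_eq, not_not, hev] at h1
      exact h1
    refine ⟨fun a => ψ (σ a), hc.comp hσ, fun a => ?_, ?_⟩
    · rcases hwin a with h | h
      · exact Or.inl h.2
      · exact Or.inr h.2
    · have : (fun a => ψ (σ a)) ⁻¹' A = C := by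
        ext a
        constructor
        · intro ha
          rcases hwin a with h | h
          · exact h.1
          · exact absurd h.2 (Set.disjoint_left.1 hAB ha)
        · intro ha
          rcases hwin a with h | h
          · exact h.2
          · exact absurd ha h.1
      rw [this]
      exact hC2

end Pool.Agent.MP106504
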