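import Mathlib

/-!
# Gale-Stewart games on trees, winning regions

Positions are lists with the latest move first; player `0` moves at positions of even length,
player `1` at positions of odd length.
-/

namespace Pool.Agent.MP106504

open PiNat

/-- A nonempty pruned game tree on the letters `M`; positions are lists, latest move first. -/
structure GTree (M : Type) where
  mem : Set (List M)
  nil_mem : [] ∈ mem
  tail_mem : ∀ {a : M} {s : List M}, a :: s ∈ mem → s ∈ mem
  pruned : ∀ {s : List M}, s ∈ mem → ∃ a, a :: s ∈ mem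

/-- The infinite plays of a game tree. -/
def GTree.plays {M : Type} (T : GTree M) : Set (ℕ → M) := {x | ∀ n, res x n ∈ T.mem}

/-- `σ` gives legal moves for player `p` in `T`. -/
def Legal {M : Type} (T : GTree M) (p : ℕ) (σ : List M → M) : Prop :=
  ∀ s ∈ T.mem, s.length % 2 = p → σ s :: s ∈ T.mem

/-- The play `x` is consistent with the strategy `σ` of player `p`. -/
def Cons {M : Type} (p : ℕ) (σ : List M → M) (x : ℕ → M) : Prop :=
  ∀ n, n % 2 = p → x n = σ (res x n)

section Win

variable {M : Type} (R S : Set (List M)) (p : ℕ)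

/-- Ranked winning positions: player `p` can force the play to reach `S`, staying in `R` with
his moves, the opponent's moves being in `R`. -/
inductive WinAt : Ordinal.{0} → List M → Prop
  | base (α : Ordinal.{0}) (s : List M) : s ∈ S → WinAt α s
  | own (α β : Ordinal.{0}) (s : List M) (a : M) : β < α → s.length % 2 = p → a :: s ∈ R →
      WinAt β (a :: s) → WinAt α s
  | opp (α : Ordinal.{0}) (β : M → Ordinal.{0}) (s : List M) : s.length % 2 ≠ p →
      (∀ a, a :: s ∈ R → β a < α) → (∀ a, a :: s ∈ R → WinAt (β a) (a :: s)) → WinAt α s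

/-- Winning positions. -/
def Win (s : List M) : Prop := ∃ α, WinAt R S p α s

/-- The rank of a winning position. -/
noncomputable def wrank (s : List M) : Ordinal.{0} := sInf {α | WinAt R S p α s}

variable {R S p}

theorem Win.at_rank {s : List M} (h : Win R S p s) : WinAt R S p (wrank R S p s) s :=
  csInf_mem h

theorem wrank_le {s : List M} {α : Ordinal.{0}} (h : WinAt R S p α s) : wrank R S p s ≤ α :=
  csInf_le' h

theorem Win.base {s : List M} (h : s ∈ S) : Win R S p s := ⟨0, WinAt.base 0 s h⟩

theorem Win.own {s : List M} {a : M} (hs : s.length % 2 = p) (ha : a :: s ∈ R)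
    (h : Win R S p (a :: s)) : Win R S p s := by
  obtain ⟨β, hβ⟩ := h
  exact ⟨Order.succ β, WinAt.own _ β s a (Order.lt_succ β) hs ha hβ⟩

theorem Win.opp {s : List M} (hs : s.length % 2 ≠ p)
    (h : ∀ a, a :: s ∈ R → Win R S p (a :: s)) : Win R S p s := by
  classical
  refine ⟨Order.succ (⨆ a : M, wrank R S p (a :: s)),
    WinAt.opp _ (fun a => wrank R S p (a :: s)) s hs ?_ ?_⟩
  · intro a _
    exact Order.lt_succ_of_le (Ordinal.le_iSup (fun a : M => wrank R S p (a :: s)) a)
  · intro a ha
    exact (h a ha).at_rank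

theorem Win.exists_own {s : List M} (h : Win R S p s) (hS : s ∉ S) (hs : s.length % 2 = p) :
    ∃ a, a :: s ∈ R ∧ Win R S p (a :: s) ∧ wrank R S p (a :: s) < wrank R S p s := by
  have h1 := h.at_rank
  cases h1 with
  | base _ _ h2 => exact absurd h2 hS
  | own _ β _ a hlt _ ha h3 => exact ⟨a, ha, ⟨β, h3⟩, lt_of_le_of_lt (wrank_le h3) hlt⟩
  | opp _ β _ h2 _ _ => exact absurd hs h2

theorem Win.all_opp {s : List M} (h : Win R S p s) (hS : s ∉ S) (hs : s.length % 2 ≠ p)
    (a : M) (ha : a :: s ∈ R) :
    Win R S p (a :: s) ∧ wrank R S p (a :: s) < wrank R S p s := by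
  have h1 := h.at_rank
  cases h1 with
  | base _ _ h2 => exact absurd h2 hS
  | own _ β _ a _ h2 _ _ => exact absurd h2 hs
  | opp _ β _ _ h3 h4 => exact ⟨⟨β a, h4 a ha⟩, lt_of_le_of_lt (wrank_le (h4 a ha)) (h3 a ha)⟩

open Classical in
/-- The rank decreasing move. -/
noncomputable def wmove (R S : Set (List M)) (p : ℕ) (d : M) (s : List M) : M :=
  if h : ∃ a, a :: s ∈ R ∧ Win R S p (a :: s) ∧ wrank R S p (a :: s) < wrank R S p s then
    h.choose else d

theorem wmove_spec {s : List M} (d : M) (h : Win R S p s) (hS : s ∉ S) (hs : s.length % 2 = p) :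
    wmove R S p d s :: s ∈ R ∧ Win R S p (wmove R S p d s :: s) ∧
      wrank R S p (wmove R S p d s :: s) < wrank R S p s := by
  have h1 := h.exists_own hS hs
  unfold wmove
  rw [dif_pos h1]
  exact h1.choose_spec

/-- A play from a winning position following rank decreasing moves reaches the target. -/
theorem Win.reach {x : ℕ → M} {m : ℕ} (h : Win R S p (res x m))
    (hR : ∀ n, m ≤ n → n % 2 ≠ p → res x (n + 1) ∈ R)
    (hw : ∀ n, m ≤ n → n % 2 = p → Win R S p (res x n) → res x n ∉ S →
      Win R S p (res x (n + 1)) ∧ wrank R S p (res x (n + 1)) < wrank R S p (res x n)) :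
    ∃ n, m ≤ n ∧ res x n ∈ S := by
  by_contra hcon
  push Not at hcon
  have key : ∀ α : Ordinal.{0}, ∀ n, m ≤ n → Win R S p (res x n) →
      wrank R S p (res x n) = α → False := by
    intro α
    induction α using WellFoundedLT.induction with
    | ind α ih =>
      intro n hn hwin hα
      have h2 : Win R S p (res x (n + 1)) ∧
          wrank R S p (res x (n + 1)) < wrank R S p (res x n) := by
        by_cases hp : n % 2 = p
        · exact hw n hn hp hwin (hcon n hn)
        · have h3 : (res x n).length % 2 ≠ p := by rwa [res_length]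
          exact hwin.all_opp (hcon n hn) h3 (x n) (hR n hn hp)
      exact ih _ (hα ▸ h2.2) (n + 1) (by omega) h2.1 rfl
  exact key _ m le_rfl h rfl

theorem not_win_opp {s : List M} (h : ¬ Win R S p s) (hs : s.length % 2 ≠ p) :
    ∃ a, a :: s ∈ R ∧ ¬ Win R S p (a :: s) := by
  by_contra hcon
  push Not at hcon
  exact h (Win.opp hs hcon)

theorem not_win_own {s : List M} (h : ¬ Win R S p s) (hs : s.length % 2 = p) (a : M)
    (ha : a :: s ∈ R) : ¬ Win R S p (a :: s) :=
  fun h1 => h (Win.own hs ha h1)

end Win

section Basic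

variable {M : Type} (T : GTree M)

open Classical in
/-- Make a strategy legal. -/
noncomputable def GTree.fix (σ : List M → M) (s : List M) : M :=
  if σ s :: s ∈ T.mem then σ s else
    if h : s ∈ T.mem then (T.pruned h).choose else σ s

theorem GTree.fix_mem (σ : List M → M) {s : List M} (hs : s ∈ T.mem) :
    T.fix σ s :: s ∈ T.mem := by
  unfold GTree.fix
  split_ifs with h
  · exact h
  · exact (T.pruned hs).choose_spec

theorem GTree.fix_eq (σ : List M → M) {s : List M} (hs : σ s :: s ∈ T.mem) :
    T.fix σ s = σ s := by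
  unfold GTree.fix
  rw [if_pos hs]

theorem GTree.fix_legal (p : ℕ) (σ : List M → M) : Legal T p (T.fix σ) :=
  fun _ hs _ => T.fix_mem σ hs

theorem GTree.suffix_mem {s t : List M} (h : s <:+ t) (ht : t ∈ T.mem) : s ∈ T.mem := by
  induction t with
  | nil =>
    rw [List.suffix_nil.mp h]; exact ht
  | cons a t ih =>
    rcases List.suffix_cons_iff.mp h with h1 | h1
    · rw [h1]; exact ht
    · exact ih h1 (T.tail_mem ht)

/-- the subset `Y` of the plays is clopen in the plays -/
def ClopenOn (Y : Set (ℕ → M)) : Prop :=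
  ∀ x ∈ T.plays, ∃ n, ∀ y ∈ T.plays, res y n = res x n → (y ∈ Y ↔ x ∈ Y)

/-- the subset `Y` of the plays is open in the plays -/
def OpenOn (Y : Set (ℕ → M)) : Prop :=
  ∀ x ∈ T.plays, x ∈ Y → ∃ n, ∀ y ∈ T.plays, res y n = res x n → y ∈ Y

theorem ClopenOn.openOn {Y : Set (ℕ → M)} (h : ClopenOn T Y) : OpenOn T Y := by
  intro x hx hY
  obtain ⟨n, hn⟩ := h x hx
  exact ⟨n, fun y hy hr => (hn y hy hr).2 hY⟩

/-- Gale-Stewart: the game with an open payoff set for player `p` is determined. -/
theorem galeStewart {p : ℕ} (hp : p < 2) {Y : Set (ℕ → M)} (hY : OpenOn T Y) :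
    (∃ σ, Legal T p σ ∧ ∀ x ∈ T.plays, Cons p σ x → x ∈ Y) ∨
    (∃ σ, Legal T (1 - p) σ ∧ ∀ x ∈ T.plays, Cons (1 - p) σ x → x ∉ Y) := by
  classical
  obtain ⟨d, -⟩ := T.pruned T.nil_mem
  set S : Set (List M) := {s | ∀ y ∈ T.plays, res y s.length = s → y ∈ Y} with hS
  by_cases hW : Win T.mem S p []
  · left
    refine ⟨T.fix (wmove T.mem S p d), T.fix_legal p _, ?_⟩
    intro x hx hc
    obtain ⟨n, -, hn⟩ := Win.reach (x := x) (m := 0) hW (fun n _ _ => hx (n + 1)) (by
      intro n _ hpn hwin hnS
      have h1 := wmove_spec (d := d) hwin hnS (by rw [res_length]; exact hpn)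
      have h2 := T.fix_eq (wmove T.mem S p d) h1.1
      have h3 : res x (n + 1) = wmove T.mem S p d (res x n) :: res x n := by
        rw [res_succ, hc n hpn, h2]
      rw [h3]
      exact h1.2)
    exact hn x hx (by rw [res_length])
  · right
    set v : List M → M := fun s =>
      if h : ∃ a, a :: s ∈ T.mem ∧ ¬ Win T.mem S p (a :: s) then h.choose else d with hv
    refine ⟨T.fix v, T.fix_legal _ _, ?_⟩
    intro x hx hc hxY
    have key : ∀ n, ¬ Win T.mem S p (res x n) := by
      intro n
      induction n with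
      | zero => exact hW
      | succ n ih =>
        by_cases hpn : n % 2 = p
        · exact not_win_own ih (by rw [res_length]; exact hpn) (x n) (hx (n + 1))
        · have h1 := not_win_opp ih (by rw [res_length]; exact hpn)
          have h2 : v (res x n) = h1.choose := by
            rw [hv]; exact dif_pos h1
          have h3 : T.fix v (res x n) = h1.choose := by
            rw [T.fix_eq v (by rw [h2]; exact h1.choose_spec.1), h2]
          rw [res_succ, hc n (by omega), h3]
          exact h1.choose_spec.2
    obtain ⟨n, hn⟩ := hY x hx hxY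
    exact key n (Win.base (by
      intro y hy hr
      rw [res_length] at hr
      exact hn y hy hr))

end Basic

end Pool.Agent.MP106504
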