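import Pool.Agent.Lib.MP_106504_lc.Classes

/-!
# The Lebesgue-Hausdorff-Banach theorem for bounded real functions
-/

namespace Pool.Agent.MP106504

open Set Ordinal Filter Topology

/-- Functions of Baire class `ξ` in the sense of iterated pointwise limits: class `0` are
the continuous functions; for `0 < ξ` the functions of class `ξ` are the pointwise limits of
sequences of functions of smaller classes. -/
inductive BaireLim {X : Type*} [TopologicalSpace X] : Ordinal.{0} → (X → ℝ) → Prop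
  | cont (f : X → ℝ) : Continuous f → BaireLim 0 f
  | lim (ξ : Ordinal.{0}) (f : ℕ → X → ℝ) (η : ℕ → Ordinal.{0}) (g : X → ℝ) :
      (∀ n, η n < ξ) → (∀ n, BaireLim (η n) (f n)) →
      (∀ x, Tendsto (fun n => f n x) atTop (𝓝 (g x))) → BaireLim ξ g

set_option linter.unusedSectionVars false

section Easy

variable {X : Type} [TopologicalSpace X] [PolishSpace X]

/-- iterated limits are measurable with respect to the Borel classes -/
theorem BaireLim.baireClass {ξ : Ordinal.{0}} {g : X → ℝ} (h : BaireLim ξ g) :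
    BaireClass ξ g := by
  induction h with
  | cont f hf =>
    intro U hU
    rw [zero_add]
    exact IsSigma.of_isOpen _ (hU.preimage hf)
  | lim ξ f η g h1 h2 h3 ih =>
    have hξ : 1 ≤ ξ := Order.one_le_iff_pos.2 (pos_of_gt (h1 0))
    have hξ1 : ξ < ξ + 1 := lt_add_one ξ
    intro U hU
    by_cases hUu : Uᶜ = ∅
    · rw [compl_empty_iff] at hUu
      rw [hUu, preimage_univ]
      exact IsSigma.univ (hξ.trans hξ1.le)
    have hne : (Uᶜ).Nonempty := nonempty_iff_ne_empty.2 hUu
    set F : ℕ → Set ℝ := fun k => {y | (1 : ℝ) / (k + 1) ≤ Metric.infDist y Uᶜ} with hF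
    have hFc : ∀ k, IsClosed (F k) := fun k =>
      isClosed_le continuous_const (Metric.continuous_infDist_pt _)
    have hmem : ∀ y, y ∈ U ↔ 0 < Metric.infDist y Uᶜ := by
      intro y
      rw [← hU.isClosed_compl.notMem_iff_infDist_pos hne, mem_compl_iff, not_not]
    have key : g ⁻¹' U = ⋃ k : ℕ, ⋃ N : ℕ, ⋂ n : ℕ, (f (N + n)) ⁻¹' (F k) := by
      ext x
      simp only [mem_preimage, mem_iUnion, mem_iInter]
      constructor
      · intro hx
        obtain ⟨k, hk⟩ := exists_nat_one_div_lt ((hmem _).1 hx)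
        have h4 : Tendsto (fun n => Metric.infDist (f n x) Uᶜ) atTop
            (𝓝 (Metric.infDist (g x) Uᶜ)) :=
          ((Metric.continuous_infDist_pt _).tendsto _).comp (h3 x)
        obtain ⟨N, hN⟩ := eventually_atTop.1 (h4.eventually (lt_mem_nhds hk))
        exact ⟨k, N, fun n => (hN (N + n) (by omega)).le⟩
      · rintro ⟨k, N, hN⟩
        have h4 : g x ∈ F k := by
          refine (hFc k).mem_of_tendsto ((h3 x).comp (tendsto_add_atTop_nat N)) ?_
          refine Eventually.of_forall fun n => ?_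
          have := hN n
          rw [add_comm] at this
          exact this
        have h5 : (1 : ℝ) / (k + 1) ≤ Metric.infDist (g x) Uᶜ := h4
        exact (hmem _).2 (lt_of_lt_of_le (by positivity) h5)
    rw [key]
    refine IsSigma.ciUnion (hξ.trans hξ1.le) fun k => IsSigma.ciUnion (hξ.trans hξ1.le)
      fun N => IsPi.sigma_of_lt (IsPi.ciInter hξ fun n => ?_) hξ1
    have h6 := ih (N + n) (F k)ᶜ (hFc k).isOpen_compl
    exact IsSigma.mono h6 (Order.add_one_le_of_lt (h1 (N + n)))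

theorem BaireClass.comp₂ {ξ : Ordinal.{0}} {f g : X → ℝ} (hf : BaireClass ξ f)
    (hg : BaireClass ξ g) {φ : ℝ × ℝ → ℝ} (hφ : Continuous φ) :
    BaireClass ξ (fun x => φ (f x, g x)) := by
  intro U hU
  have hξ : (1 : Ordinal.{0}) ≤ ξ + 1 := le_add_self
  have hW : IsOpen (φ ⁻¹' U) := hU.preimage hφ
  set B := TopologicalSpace.countableBasis ℝ with hB
  have hBb := TopologicalSpace.isBasis_countableBasis ℝ
  have hBc : B.Countable := TopologicalSpace.countable_countableBasis ℝ
  set S : Set (Set ℝ × Set ℝ) := {p | p.1 ∈ B ∧ p.2 ∈ B ∧ p.1 ×ˢ p.2 ⊆ φ ⁻¹' U} with hS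
  have hSc : S.Countable := (hBc.prod hBc).mono (fun p hp => Set.mem_prod.2 ⟨hp.1, hp.2.1⟩)
  have key : (fun x => φ (f x, g x)) ⁻¹' U = ⋃ p : S, f ⁻¹' p.1.1 ∩ g ⁻¹' p.1.2 := by
    ext x
    simp only [mem_preimage, mem_iUnion, mem_inter_iff]
    constructor
    · intro hx
      obtain ⟨v, hv, hxv, hvW⟩ := (hBb.prod hBb).exists_subset_of_mem_open
        (show (f x, g x) ∈ φ ⁻¹' U from hx) hW
      obtain ⟨a, ha, b, hb, rfl⟩ := hv
      exact ⟨⟨(a, b), ha, hb, hvW⟩, hxv.1, hxv.2⟩
    · rintro ⟨p, h1, h2⟩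
      exact p.2.2.2 ⟨h1, h2⟩
  rw [key]
  have : Countable S := hSc.to_subtype
  exact IsSigma.ciUnion hξ fun p =>
    (hf _ (hBb.isOpen p.2.1)).inter (hg _ (hBb.isOpen p.2.2.1))

theorem BaireLim.mono {ξ η : Ordinal.{0}} {f : X → ℝ} (h : BaireLim η f) (hle : η ≤ ξ) :
    BaireLim ξ f := by
  rcases hle.eq_or_lt with rfl | hlt
  · exact h
  · exact BaireLim.lim ξ (fun _ => f) (fun _ => η) f (fun _ => hlt) (fun _ => h)
      (fun x => tendsto_const_nhds)

theorem BaireLim.approx {ξ : Ordinal.{0}} {f : X → ℝ} (h : BaireLim ξ f) (hξ : 0 < ξ) :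
    ∃ (F : ℕ → X → ℝ) (η : ℕ → Ordinal.{0}), (∀ n, η n < ξ) ∧ (∀ n, BaireLim (η n) (F n)) ∧
      ∀ x, Tendsto (fun n => F n x) atTop (𝓝 (f x)) := by
  cases h with
  | cont f hf => exact absurd hξ (lt_irrefl _)
  | lim ξ F η f h1 h2 h3 => exact ⟨F, η, h1, h2, h3⟩

theorem BaireLim.comp₂ {ξ : Ordinal.{0}} {f g : X → ℝ} (hf : BaireLim ξ f)
    (hg : BaireLim ξ g) {φ : ℝ × ℝ → ℝ} (hφ : Continuous φ) :
    BaireLim ξ (fun x => φ (f x, g x)) := by
  induction ξ using WellFoundedLT.induction generalizing f g with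
  | ind ξ ih =>
    rcases eq_or_ne ξ 0 with rfl | hξ
    · cases hf with
      | cont _ hf =>
        cases hg with
        | cont _ hg => exact BaireLim.cont _ (hφ.comp (hf.prodMk hg))
        | lim _ G ζ _ h1 _ _ => exact absurd (h1 0) not_lt_zero
      | lim _ G ζ _ h1 _ _ => exact absurd (h1 0) not_lt_zero
    · have hξ' : 0 < ξ := pos_iff_ne_zero.2 hξ
      obtain ⟨F, η, h1, h2, h3⟩ := hf.approx hξ'
      obtain ⟨G, ζ, h4, h5, h6⟩ := hg.approx hξ'
      refine BaireLim.lim ξ (fun n x => φ (F n x, G n x)) (fun n => max (η n) (ζ n)) _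
        (fun n => max_lt (h1 n) (h4 n)) (fun n => ?_) (fun x => ?_)
      · exact ih _ (max_lt (h1 n) (h4 n)) ((h2 n).mono (le_max_left _ _))
          ((h5 n).mono (le_max_right _ _))
      · exact (hφ.tendsto _).comp ((h3 x).prodMk_nhds (h6 x))

theorem BaireLim.const {ξ : Ordinal.{0}} (c : ℝ) : BaireLim ξ (fun _ : X => c) :=
  (BaireLim.cont _ continuous_const).mono zero_le

theorem BaireLim.finsum {ξ : Ordinal.{0}} (hξ : 0 < ξ) {h : ℕ → X → ℝ}
    (h1 : ∀ k, ∃ η < ξ, BaireLim η (h k)) (n : ℕ) :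
    ∃ η < ξ, BaireLim η (fun x => ∑ k ∈ Finset.range n, h k x) := by
  induction n with
  | zero => exact ⟨0, hξ, by simpa using BaireLim.const 0⟩
  | succ n ih =>
    obtain ⟨η, hη, h2⟩ := ih
    obtain ⟨ζ, hζ, h3⟩ := h1 n
    refine ⟨max η ζ, max_lt hη hζ, ?_⟩
    have h4 := (h2.mono (le_max_left η ζ)).comp₂ (h3.mono (le_max_right η ζ))
      (φ := fun p : ℝ × ℝ => p.1 + p.2) (continuous_fst.add continuous_snd)
    simpa only [Finset.sum_range_succ] using h4

/-- dominated series of functions of class `ξ` -/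
theorem BaireLim.tsum {ξ : Ordinal.{0}} (hξ : 0 < ξ) {h : ℕ → X → ℝ} {b : ℕ → ℝ}
    (hb : Summable b) (h1 : ∀ k, BaireLim ξ (h k)) (h2 : ∀ k x, |h k x| ≤ b k) :
    BaireLim ξ (fun x => ∑' k, h k x) := by
  classical
  choose H η h3 h4 h5 using fun k => (h1 k).approx hξ
  set H' : ℕ → ℕ → X → ℝ := fun k n x => max (-(b k)) (min (b k) (H k n x)) with hH'
  have h6 : ∀ k n, BaireLim (η k n) (H' k n) := by
    intro k n
    exact (h4 k n).comp₂ (h4 k n) (φ := fun p : ℝ × ℝ => max (-(b k)) (min (b k) p.1))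
      (continuous_const.max (continuous_const.min continuous_fst))
  have h7 : ∀ k x, Tendsto (fun n => H' k n x) atTop (𝓝 (h k x)) := by
    intro k x
    have h8 : max (-(b k)) (min (b k) (h k x)) = h k x := by
      have := abs_le.1 (h2 k x)
      rw [min_eq_right this.2, max_eq_right this.1]
    have h9 := ((continuous_const.max (continuous_const.min continuous_id) :
      Continuous (fun u : ℝ => max (-(b k)) (min (b k) u))).tendsto (h k x)).comp (h5 k x)
    rw [h8] at h9
    exact h9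
  have h8 : ∀ k n x, |H' k n x| ≤ |b k| := by
    intro k n x
    rw [abs_le]
    constructor
    · exact (neg_le_neg (le_abs_self _)).trans (le_max_left _ _)
    · exact max_le (neg_le_abs _) ((min_le_left _ _).trans (le_abs_self _))
  choose ζ hζ1 hζ2 using fun n => BaireLim.finsum hξ (h := fun k => H' k n)
    (fun k => ⟨η k n, h3 k n, h6 k n⟩) n
  refine BaireLim.lim ξ (fun n x => ∑ k ∈ Finset.range n, H' k n x) ζ _ hζ1 hζ2 ?_
  intro x
  have h9 : ∀ n, ∑ k ∈ Finset.range n, H' k n x = ∑' k, if k < n then H' k n x else 0 := by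
    intro n
    rw [tsum_eq_sum (s := Finset.range n)]
    · refine Finset.sum_congr rfl fun k hk => ?_
      rw [if_pos (Finset.mem_range.1 hk)]
    · intro k hk
      rw [if_neg (by simpa using hk)]
  simp_rw [h9]
  refine tendsto_tsum_of_dominated_convergence (bound := fun k => |b k|) hb.abs ?_ ?_
  · intro k
    refine (h7 k x).congr' ?_
    filter_upwards [eventually_gt_atTop k] with n hn
    rw [if_pos hn]
  · refine Eventually.of_forall fun n k => ?_
    rw [Real.norm_eq_abs]
    split_ifs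
    · exact h8 k n x
    · rw [abs_zero]; exact abs_nonneg _

end Easy

section Char

variable {X : Type} [TopologicalSpace X] [PolishSpace X]

/-- partial unions -/
def pu (B : ℕ → Set X) (n : ℕ) : Set X := {x | ∃ i ≤ n, x ∈ B i}

theorem pu_zero (B : ℕ → Set X) : pu B 0 = B 0 := by
  ext x
  constructor
  · rintro ⟨i, hi, hx⟩
    obtain rfl : i = 0 := by omega
    exact hx
  · intro hx
    exact ⟨0, le_rfl, hx⟩

theorem pu_succ (B : ℕ → Set X) (n : ℕ) : pu B (n + 1) = pu B n ∪ B (n + 1) := by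
  ext x
  constructor
  · rintro ⟨i, hi, hx⟩
    rcases Nat.lt_or_ge n i with h | h
    · obtain rfl : i = n + 1 := by omega
      exact Or.inr hx
    · exact Or.inl ⟨i, h, hx⟩
  · rintro (⟨i, hi, hx⟩ | hx)
    · exact ⟨i, by omega, hx⟩
    · exact ⟨n + 1, le_rfl, hx⟩

theorem pu_induction {B : ℕ → Set X} {p : Set X → Prop} (h : ∀ n, p (B n))
    (hu : ∀ s t, p s → p t → p (s ∪ t)) (n : ℕ) : p (pu B n) := by
  induction n with
  | zero => rw [pu_zero]; exact h 0
  | succ n ih => rw [pu_succ]; exact hu _ _ ih (h (n + 1))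

theorem eventually_pu {B : ℕ → Set X} {x : X} (hx : x ∈ ⋃ n, B n) : ∀ᶠ n in atTop, x ∈ pu B n := by
  obtain ⟨i, hi⟩ := mem_iUnion.1 hx
  filter_upwards [eventually_ge_atTop i] with n hn
  exact ⟨i, hn, hi⟩

theorem pu_subset (B : ℕ → Set X) (n : ℕ) : pu B n ⊆ ⋃ n, B n := by
  rintro x ⟨i, -, hx⟩
  exact mem_iUnion.2 ⟨i, hx⟩

theorem IsDelta.approx {ξ : Ordinal.{0}} (hξ : 1 ≤ ξ) {A : Set X} (hA : IsDelta (ξ + 1) A) :
    ∃ P Q : ℕ → Set X, (∀ n, IsPi ξ (P n)) ∧ (∀ n, IsPi ξ (Q n)) ∧ (∀ n, P n ⊆ A) ∧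
      (∀ n, Q n ⊆ Aᶜ) ∧ (∀ x ∈ A, ∀ᶠ n in atTop, x ∈ P n) ∧
      (∀ x ∉ A, ∀ᶠ n in atTop, x ∈ Q n) := by
  have h1 : (1 : Ordinal.{0}) < ξ + 1 := lt_of_le_of_lt hξ (lt_add_one ξ)
  obtain ⟨B, η, hη, hB, hAB⟩ := hA.1.exists_of_lt h1
  obtain ⟨C, ζ, hζ, hC, hAC⟩ := IsSigma.exists_of_lt hA.2 h1
  refine ⟨pu B, pu C, fun n => ?_, fun n => ?_, fun n => ?_, fun n => ?_, fun x hx => ?_,
    fun x hx => ?_⟩
  · exact pu_induction (p := IsPi ξ) (fun n => (hB n).mono (Order.lt_add_one_iff.1 (hη n).2))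
      (fun s t hs ht => hs.union ht) n
  · exact pu_induction (p := IsPi ξ) (fun n => (hC n).mono (Order.lt_add_one_iff.1 (hζ n).2))
      (fun s t hs ht => hs.union ht) n
  · rw [hAB]; exact pu_subset B n
  · rw [hAC]; exact pu_subset C n
  · exact eventually_pu (by rw [← hAB]; exact hx)
  · exact eventually_pu (by rw [← hAC]; exact hx)

theorem tendsto_indicator {D : ℕ → Set X} {A : Set X} {x : X}
    (h : ∀ᶠ n in atTop, (x ∈ D n ↔ x ∈ A)) :
    Tendsto (fun n => (D n).indicator (1 : X → ℝ) x) atTop (𝓝 (A.indicator 1 x)) := by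
  refine tendsto_const_nhds.congr' ?_
  filter_upwards [h] with n hn
  by_cases hx : x ∈ A
  · rw [indicator_of_mem hx, indicator_of_mem (hn.2 hx)]
  · rw [indicator_of_notMem hx, indicator_of_notMem (fun h => hx (hn.1 h))]

/-- sets of a class smaller than `ξ` -/
def Small (ξ : Ordinal.{0}) (S : Set X) : Prop := ∃ η < ξ, IsDelta η S

theorem Small.union {ξ : Ordinal.{0}} {S S' : Set X} (h : Small ξ S) (h' : Small ξ S') :
    Small ξ (S ∪ S') := by
  obtain ⟨η, h1, h2⟩ := h
  obtain ⟨ζ, h3, h4⟩ := h'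
  refine ⟨max η ζ, max_lt h1 h3, ?_, ?_⟩
  · exact (h2.1.mono (le_max_left _ _)).union (h4.1.mono (le_max_right _ _))
  · exact (h2.2.mono (le_max_left _ _)).union (h4.2.mono (le_max_right _ _))

theorem Small.compl {ξ : Ordinal.{0}} {S : Set X} (h : Small ξ S) : Small ξ Sᶜ := by
  obtain ⟨η, h1, h2⟩ := h
  refine ⟨η, h1, h2.2, ?_⟩
  unfold IsPi
  rw [compl_compl]
  exact h2.1

theorem Small.diff {ξ : Ordinal.{0}} {S S' : Set X} (h : Small ξ S) (h' : Small ξ S') :
    Small ξ (S \ S') := by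
  have h1 := (h.compl.union h').compl
  rwa [compl_union, compl_compl, ← sdiff_eq] at h1

theorem Small.of_pi {ξ η : Ordinal.{0}} (hξ : Order.IsSuccLimit ξ) (hη : η < ξ) {S : Set X}
    (h : IsPi η S) : Small ξ S :=
  ⟨η + 1, hξ.add_one_lt hη, h.sigma_of_lt (lt_add_one η), h.mono (lt_add_one η).le⟩

/-- diagonal sets -/
def diagV (p q : ℕ → Set X) : ℕ → Set X
  | 0 => p 0
  | n + 1 => p (n + 1) ∪ (diagV p q n \ q (n + 1))

theorem diagV_small {ξ : Ordinal.{0}} {p q : ℕ → Set X} (hp : ∀ n, Small ξ (p n))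
    (hq : ∀ n, Small ξ (q n)) (n : ℕ) : Small ξ (diagV p q n) := by
  induction n with
  | zero => exact hp 0
  | succ n ih => exact (hp (n + 1)).union (ih.diff (hq (n + 1)))

theorem diagV_mem {p q : ℕ → Set X} {A : Set X} {x : X} {N : ℕ} (hN : x ∈ p N ∨ x ∈ q N)
    (h1 : ∀ j, N ≤ j → x ∈ p j → x ∈ A) (h2 : ∀ j, N ≤ j → x ∈ q j → x ∉ A) {n : ℕ}
    (hn : N ≤ n) : x ∈ diagV p q n ↔ x ∈ A := by
  induction n, hn using Nat.le_induction with
  | base =>
    have h3 := h1 N le_rfl
    have h4 := h2 N le_rfl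
    cases N with
    | zero =>
      change x ∈ p 0 ↔ x ∈ A
      tauto
    | succ N =>
      change x ∈ p (N + 1) ∨ (x ∈ diagV p q N ∧ x ∉ q (N + 1)) ↔ x ∈ A
      tauto
  | succ n hn ih =>
    have h3 := h1 (n + 1) (by omega)
    have h4 := h2 (n + 1) (by omega)
    change x ∈ p (n + 1) ∨ (x ∈ diagV p q n ∧ x ∉ q (n + 1)) ↔ x ∈ A
    tauto

theorem baireLim_indicator {ξ : Ordinal.{0}} (hξ : 1 ≤ ξ) {A : Set X}
    (hA : IsDelta (ξ + 1) A) : BaireLim ξ (A.indicator (1 : X → ℝ)) := by
  induction ξ using WellFoundedLT.induction generalizing A with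
  | ind ξ ih =>
    obtain ⟨P, Q, hP, hQ, hPA, hQA, hPe, hQe⟩ := hA.approx hξ
    rcases hξ.eq_or_lt with h1 | h1
    · -- class one
      subst h1
      let _ := TopologicalSpace.upgradeIsCompletelyMetrizable X
      have hPc : ∀ n, IsClosed (P n) := fun n => isOpen_compl_iff.1 (IsSigma.isOpen (hP n))
      have hQc : ∀ n, IsClosed (Q n) := fun n => isOpen_compl_iff.1 (IsSigma.isOpen (hQ n))
      have hd : ∀ n, Disjoint (Q n) (P n) := fun n =>
        disjoint_left.2 fun x h2 h3 => hQA n h2 (hPA n h3)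
      choose f hf0 hf1 hf2 using fun n => exists_continuous_zero_one_of_isClosed (hQc n) (hPc n)
        (hd n)
      refine BaireLim.lim 1 (fun n => f n) (fun _ => 0) _ (fun _ => zero_lt_one)
        (fun n => BaireLim.cont _ (f n).continuous) (fun x => ?_)
      refine tendsto_const_nhds.congr' ?_
      by_cases hx : x ∈ A
      · filter_upwards [hPe x hx] with n hn
        rw [indicator_of_mem hx, hf1 n hn]
      · filter_upwards [hQe x hx] with n hn
        rw [indicator_of_notMem hx, hf0 n hn]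
        rfl
    · have h2 : 2 ≤ ξ := by
        rw [← one_add_one_eq_two]
        exact Order.add_one_le_of_lt h1
      have hD : ∀ n, ∃ D : Set X, IsDelta ξ D ∧ P n ⊆ D ∧ D ⊆ (Q n)ᶜ := by
        intro n
        obtain ⟨E, hE, hE1, hE2⟩ := IsSigma.partition h2 (hQ n) (hP n) (by
          ext x
          simp only [mem_union, mem_compl_iff, mem_univ, iff_true]
          by_contra hcon
          push Not at hcon
          exact hQA n hcon.1 (hPA n hcon.2))
        exact ⟨E, hE, by rwa [← compl_subset_compl], hE1⟩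
      choose D hD1 hD2 hD3 using hD
      have hDe : ∀ x, ∀ᶠ n in atTop, (x ∈ D n ↔ x ∈ A) := by
        intro x
        by_cases hx : x ∈ A
        · filter_upwards [hPe x hx] with n hn
          exact ⟨fun _ => hx, fun _ => hD2 n hn⟩
        · filter_upwards [hQe x hx] with n hn
          exact ⟨fun h => absurd hn (hD3 n h), fun h => absurd h hx⟩
      rcases Ordinal.zero_or_succ_or_isSuccLimit ξ with h3 | ⟨ζ, h3⟩ | h3
      · rw [h3] at h1
        exact absurd h1 not_lt_zero
      · -- successor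
        have h4 : ζ < ξ := by rw [← h3]; exact Order.lt_succ ζ
        have h5 : 1 ≤ ζ := by
          rw [← h3] at h1
          exact Order.lt_succ_iff.1 h1
        have h6 : ξ = ζ + 1 := by rw [← h3]; rfl
        refine BaireLim.lim ξ (fun n => (D n).indicator 1) (fun _ => ζ) _ (fun _ => h4)
          (fun n => ih ζ h4 h5 (by rw [← h6]; exact hD1 n)) (fun x => tendsto_indicator (hDe x))
      · -- limit
        choose B η hη hB hDB using fun n => (hD1 n).1.exists_of_lt h1
        choose C ζ hζ hC hDC using fun n => IsSigma.exists_of_lt (hD1 n).2 h1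
        set p : ℕ → ℕ → Set X := fun n m => pu (B n) m with hp
        set q : ℕ → ℕ → Set X := fun n m => pu (C n) m with hq
        have hps : ∀ n m, Small ξ (p n m) := fun n m =>
          pu_induction (p := Small ξ) (fun i => Small.of_pi h3 (hη n i).2 (hB n i))
            (fun s t hs ht => hs.union ht) m
        have hqs : ∀ n m, Small ξ (q n m) := fun n m =>
          pu_induction (p := Small ξ) (fun i => Small.of_pi h3 (hζ n i).2 (hC n i))
            (fun s t hs ht => hs.union ht) m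
        set E : ℕ → Set X := fun m => diagV (fun n => p n m) (fun n => q n m) m with hE
        have hEs : ∀ m, ∃ θ < ξ, BaireLim θ ((E m).indicator (1 : X → ℝ)) := by
          intro m
          obtain ⟨θ, hθ, hθ2⟩ := diagV_small (fun n => hps n m) (fun n => hqs n m) m
          have h7 : θ ≤ max θ 1 + 1 := (le_max_left θ 1).trans (lt_add_one _).le
          exact ⟨max θ 1, max_lt hθ h1, ih _ (max_lt hθ h1) (le_max_right _ _)
            ⟨hθ2.1.mono h7, hθ2.2.mono h7⟩⟩
        choose θ hθ1 hθ2 using hEs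
        refine BaireLim.lim ξ (fun m => (E m).indicator 1) θ _ hθ1 hθ2
          (fun x => tendsto_indicator ?_)
        obtain ⟨N, hN⟩ := eventually_atTop.1 (hDe x)
        have hdec : ∀ᶠ m in atTop, x ∈ p N m ∨ x ∈ q N m := by
          by_cases hx : x ∈ D N
          · filter_upwards [eventually_pu (B := B N) (x := x) (by rw [← hDB]; exact hx)] with m hm
            exact Or.inl hm
          · filter_upwards [eventually_pu (B := C N) (x := x) (by rw [← hDC]; exact hx)] with m hm
            exact Or.inr hm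
        filter_upwards [hdec, eventually_ge_atTop N] with m hm hmN
        refine diagV_mem (p := fun n => p n m) (q := fun n => q n m) (N := N) hm ?_ ?_ hmN
        · intro j hj hxj
          refine (hN j hj).1 ?_
          rw [hDB j]
          exact pu_subset _ _ hxj
        · intro j hj hxj hxA
          have h8 := (hN j hj).2 hxA
          have h9 : x ∈ (D j)ᶜ := by
            rw [hDC j]
            exact pu_subset _ _ hxj
          exact h9 h8

end Char

section Main

variable {X : Type} [TopologicalSpace X] [PolishSpace X]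

theorem BaireClass.exists_step {ξ : Ordinal.{0}} (hξ : 1 ≤ ξ) {f : X → ℝ}
    (hf : BaireClass ξ f) {C : ℝ} (hC : 0 < C) (hb : ∀ x, |f x| ≤ C) :
    ∃ g : X → ℝ, BaireLim ξ g ∧ (∀ x, |g x| ≤ C / 3) ∧ ∀ x, |f x - g x| ≤ 2 / 3 * C := by
  classical
  have h2 : (2 : Ordinal.{0}) ≤ ξ + 1 := by
    rw [← one_add_one_eq_two]
    exact add_le_add_left hξ 1
  obtain ⟨E, hE, hE1, hE2⟩ := IsSigma.partition h2 (hf _ (isOpen_Ioi (a := -(C / 3))))
    (hf _ (isOpen_Iio (a := C / 3))) (by
      ext x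
      simp only [mem_union, mem_preimage, mem_Ioi, mem_Iio, mem_univ, iff_true]
      by_contra hcon
      push Not at hcon
      linarith [hcon.1, hcon.2])
  have h3 := baireLim_indicator hξ hE
  refine ⟨fun x => 2 * C / 3 * E.indicator (1 : X → ℝ) x - C / 3, ?_, ?_, ?_⟩
  · exact h3.comp₂ h3 (φ := fun p : ℝ × ℝ => 2 * C / 3 * p.1 - C / 3)
      ((continuous_const.mul continuous_fst).sub continuous_const)
  · intro x
    dsimp only
    by_cases hx : x ∈ E
    · rw [indicator_of_mem hx, Pi.one_apply, abs_le]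
      constructor <;> linarith
    · rw [indicator_of_notMem hx, abs_le]
      constructor <;> linarith
  · intro x
    dsimp only
    have h4 := abs_le.1 (hb x)
    by_cases hx : x ∈ E
    · have h5 : -(C / 3) < f x := hE1 hx
      rw [indicator_of_mem hx, Pi.one_apply, abs_le]
      constructor <;> linarith
    · have h5 : f x < C / 3 := hE2 hx
      rw [indicator_of_notMem hx, abs_le]
      constructor <;> linarith

theorem BaireClass.baireLim {ξ : Ordinal.{0}} (hξ : 1 ≤ ξ) {f : X → ℝ}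
    (hf : BaireClass ξ f) {C : ℝ} (hC : 0 < C) (hb : ∀ x, |f x| ≤ C) : BaireLim ξ f := by
  classical
  have hr : ∀ k : ℕ, 0 < (2 / 3 : ℝ) ^ k * C := fun k => by positivity
  have hstep : ∀ (k : ℕ) (u : {u : X → ℝ // BaireClass ξ u ∧ ∀ x, |u x| ≤ (2 / 3) ^ k * C}),
      ∃ (g : X → ℝ) (v : {u : X → ℝ // BaireClass ξ u ∧ ∀ x, |u x| ≤ (2 / 3) ^ (k + 1) * C}),
        BaireLim ξ g ∧ (∀ x, |g x| ≤ (2 / 3) ^ k * C / 3) ∧ ∀ x, v.1 x = u.1 x - g x := by
    intro k u
    obtain ⟨g, h1, h2, h3⟩ := u.2.1.exists_step hξ (hr k) u.2.2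
    refine ⟨g, ⟨fun x => u.1 x - g x, ?_, ?_⟩, h1, h2, fun x => rfl⟩
    · exact u.2.1.comp₂ h1.baireClass (φ := fun p : ℝ × ℝ => p.1 - p.2)
        (continuous_fst.sub continuous_snd)
    · intro x
      have := h3 x
      calc |u.1 x - g x| ≤ 2 / 3 * ((2 / 3) ^ k * C) := this
        _ = (2 / 3) ^ (k + 1) * C := by ring
  choose g v hg1 hg2 hg3 using hstep
  let u : ∀ k, {u : X → ℝ // BaireClass ξ u ∧ ∀ x, |u x| ≤ (2 / 3) ^ k * C} := fun k =>
    Nat.rec (motive := fun k => {u : X → ℝ // BaireClass ξ u ∧ ∀ x, |u x| ≤ (2 / 3) ^ k * C})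
      ⟨f, hf, by simpa using hb⟩ (fun k w => v k w) k
  have hu : ∀ k x, (u (k + 1)).1 x = (u k).1 x - g k (u k) x := fun k x => hg3 k (u k) x
  have hsum : Summable (fun k : ℕ => (2 / 3 : ℝ) ^ k * C / 3) := by
    have := (summable_geometric_of_lt_one (r := (2 / 3 : ℝ)) (by norm_num)
      (by norm_num)).mul_right (C / 3)
    refine this.congr fun k => ?_
    ring
  have h1 := BaireLim.tsum (X := X) (ξ := ξ) (h := fun k => g k (u k))
    (lt_of_lt_of_le zero_lt_one hξ) hsum (fun k => hg1 k (u k)) (fun k x => hg2 k (u k) x)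
  have h2 : (fun x => ∑' k, g k (u k) x) = f := by
    funext x
    refine HasSum.tsum_eq ?_
    have h3 : Summable (fun k => g k (u k) x) :=
      Summable.of_norm_bounded hsum (fun k => by rw [Real.norm_eq_abs]; exact hg2 k (u k) x)
    rw [h3.hasSum_iff_tendsto_nat]
    have h4 : ∀ n, ∑ k ∈ Finset.range n, g k (u k) x = f x - (u n).1 x := by
      intro n
      induction n with
      | zero => simp [u]
      | succ n ih =>
        rw [Finset.sum_range_succ, ih, hu n x]
        ring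
    simp_rw [h4]
    have h5 : Tendsto (fun n => (u n).1 x) atTop (𝓝 0) := by
      refine squeeze_zero_norm (a := fun n => (2 / 3 : ℝ) ^ n * C) (fun n => ?_) ?_
      · rw [Real.norm_eq_abs]
        exact (u n).2.2 x
      · have := (tendsto_pow_atTop_nhds_zero_of_lt_one (r := (2 / 3 : ℝ)) (by norm_num)
          (by norm_num)).mul_const C
        simpa using this
    simpa using (tendsto_const_nhds (x := f x)).sub h5
  rw [h2] at h1
  exact h1

/-- **Lebesgue-Hausdorff-Banach** for bounded functions. -/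
theorem baireLim_iff {ξ : Ordinal.{0}} (hξ : 1 ≤ ξ) {f : X → ℝ} (hb : ∃ C, ∀ x, |f x| ≤ C) :
    BaireLim ξ f ↔ BaireClass ξ f := by
  refine ⟨fun h => h.baireClass, fun h => ?_⟩
  obtain ⟨C, hC⟩ := hb
  exact h.baireLim hξ (C := max C 1) (by positivity) (fun x => (hC x).trans (le_max_left _ _))

end Main

end Pool.Agent.MP106504
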