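import Pool.Agent.Lib.MP_106504_lc.Classes

/-!
# The rank argument (part P6) for MP_106504_lc

Everything here is proved from the basic facts on Borel classes (`Classes.lean`) and from the
statement of the dichotomy (taken as an explicit hypothesis of `main_thm_of_dichotomy`).
-/

namespace Pool.Agent.MP106504

open Set Ordinal

/-- comparison of ordinals -/
def LeqAsymp (θ θ' : WithTop Ordinal.{0}) : Prop :=
  ∀ η : Ordinal.{0}, 1 ≤ η → η < ω₁ →
    θ' ≤ ((ω ^ η : Ordinal.{0}) : WithTop Ordinal.{0}) →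
      θ ≤ ((ω ^ η : Ordinal.{0}) : WithTop Ordinal.{0})

def EqAsymp (θ θ' : WithTop Ordinal.{0}) : Prop := LeqAsymp θ θ' ∧ LeqAsymp θ' θ

/-- bounded Baire class ξ -/
def BB {X : Type} [TopologicalSpace X] (ξ : Ordinal.{0}) (f : X → ℝ) : Prop :=
  BaireClass ξ f ∧ ∃ C, ∀ x, |f x| ≤ C

/-- A rank on the bounded Baire class ξ functions with properties 1-5. -/
structure GoodRank (ξ : Ordinal.{0})
    (ρ : ∀ (X : Type) [TopologicalSpace X] [PolishSpace X], (X → ℝ) → Ordinal.{0}) : Prop where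
  lt_omega_one : ∀ (X : Type) [TopologicalSpace X] [PolishSpace X] (f : X → ℝ),
    BB ξ f → ρ X f < ω₁
  char : ∀ (X : Type) [TopologicalSpace X] [PolishSpace X] (A : Set X), IsDelta (ξ + 1) A →
    EqAsymp (ρ X (A.indicator 1)) (funRank ξ (A.indicator (1 : X → ℝ)))
  smul : ∀ (X : Type) [TopologicalSpace X] [PolishSpace X] (f : X → ℝ) (c : ℝ), c ≠ 0 →
    BB ξ f → EqAsymp (ρ X (fun x => c * f x)) (ρ X f)
  add : ∀ (X : Type) [TopologicalSpace X] [PolishSpace X] (f g : X → ℝ), BB ξ f → BB ξ g →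
    LeqAsymp (ρ X (fun x => f x + g x)) (max (ρ X f) (ρ X g))
  unif : ∀ (X : Type) [TopologicalSpace X] [PolishSpace X] (f : X → ℝ) (F : ℕ → X → ℝ),
    BB ξ f → (∀ n, BB ξ (F n)) → TendstoUniformly F f Filter.atTop →
    LeqAsymp (ρ X f) ((⨆ n, ρ X (F n) : Ordinal.{0}))
  lip : ∀ (X : Type) [TopologicalSpace X] [PolishSpace X] (f : X → ℝ) (h : ℝ → ℝ) (K : NNReal),
    BB ξ f → LipschitzWith K h → LeqAsymp (ρ X (fun x => h (f x))) (ρ X f)
  restr : ∀ (X : Type) [TopologicalSpace X] [PolishSpace X] (f : X → ℝ) (H : Set X)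
    [PolishSpace H], BB ξ f → IsPi 2 H → LeqAsymp (ρ H (fun x => f x.1)) (ρ X f)

/-! ### Elementary facts on sequences of sets and on `sepRank` -/

section Basics

private lemma countable_Iio {lam : Ordinal.{0}} (h : lam < ω₁) : Countable (Set.Iio lam) := by
  have h1 : lam.card < Cardinal.aleph 1 := by
    rw [← Cardinal.lt_ord, Cardinal.ord_aleph]
    exact h
  have h2 : Cardinal.mk (Set.Iio lam) ≤ Cardinal.aleph0 := by
    rw [Cardinal.mk_Iio_ordinal]
    have h3 : lam.card ≤ Cardinal.aleph0 := by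
      rw [← Cardinal.succ_aleph0] at h1
      exact Order.lt_succ_iff.mp h1
    rw [Cardinal.lift_le_aleph0]
    exact h3
  exact Cardinal.mk_le_aleph0_iff.mp h2

variable {X : Type} [TopologicalSpace X]

private lemma sepBy_of_sepRank_le {ξ lam : Ordinal.{0}} {A B : Set X}
    (h : sepRank ξ A B ≤ (lam : WithTop Ordinal.{0})) : ∃ lam' ≤ lam, SepBy ξ lam' A B := by
  unfold sepRank at h
  by_cases hne : ((fun o : Ordinal.{0} => (o : WithTop Ordinal.{0})) ''
      {lam | SepBy ξ lam A B}).Nonempty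
  · obtain ⟨lam', h1, h2⟩ := csInf_mem hne
    refine ⟨lam', ?_, h1⟩
    rw [← h2] at h
    exact WithTop.coe_le_coe.mp h
  · rw [Set.not_nonempty_iff_eq_empty] at hne
    rw [hne, _root_.sInf_empty] at h
    exact absurd h (by simp)

private lemma sepRank_le_of_sepBy {ξ lam : Ordinal.{0}} {A B : Set X} (h : SepBy ξ lam A B) :
    sepRank ξ A B ≤ (lam : WithTop Ordinal.{0}) := sInf_le ⟨lam, h, rfl⟩

private lemma sepRank_le_funRank (ξ : Ordinal.{0}) (f : X → ℝ) {p q : ℚ} (hpq : p < q) :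
    sepRank ξ {x | f x ≤ p} {x | (q : ℝ) ≤ f x} ≤ funRank ξ f :=
  le_iSup_of_le p (le_iSup_of_le q (le_iSup_of_le hpq le_rfl))

/-- every point has a level -/
private lemma VSeq.exists_level {ξ lam : Ordinal.{0}} {F : Ordinal.{0} → Set X} (h : VSeq ξ lam F)
    (hlam : 0 < lam) (x : X) : ∃ η < lam, x ∈ F η ∧ x ∉ F (η + 1) := by
  by_contra hcon
  push Not at hcon
  have key : ∀ θ : Ordinal.{0}, θ ≤ lam → x ∈ F θ := by
    intro θ
    induction θ using Ordinal.limitRecOn with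
    | zero => intro _; rw [h.zero hlam]; trivial
    | add_one θ ih =>
      intro hθ
      have hθ' : θ < lam := lt_of_lt_of_le (lt_add_one θ) hθ
      exact hcon θ hθ' (ih hθ'.le)
    | limit θ hθl ih =>
      intro hθ
      rcases hθ.lt_or_eq with hlt | heq
      · rw [h.lim θ hlt hθl]
        simp only [Set.mem_iInter]
        intro μ hμ
        exact ih μ hμ (hμ.le.trans hθ)
      · exfalso
        subst heq
        have : x ∈ ⋂ η, ⋂ (_ : η < θ), F η := by
          simp only [Set.mem_iInter]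
          intro μ hμ
          exact ih μ hμ hμ.le
        rw [h.vanish hθl] at this
        exact this
  have := key lam le_rfl
  rw [h.big lam le_rfl] at this
  exact this

private lemma ContSeq.level_unique {ξ lam : Ordinal.{0}} {F : Ordinal.{0} → Set X}
    (h : ContSeq ξ lam F) {x : X} {η θ : Ordinal.{0}} (hη : η < lam) (hθ : θ < lam)
    (h1 : x ∈ F η) (h2 : x ∉ F (η + 1)) (h3 : x ∈ F θ) (h4 : x ∉ F (θ + 1)) : η = θ := by
  rcases lt_trichotomy η θ with hlt | heq | hlt
  · exact absurd (h.anti (η + 1) θ (Order.add_one_le_of_lt hlt) hθ h3) h2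
  · exact heq
  · exact absurd (h.anti (θ + 1) η (Order.add_one_le_of_lt hlt) hη h1) h4

end Basics

/-! ### Transfinite differences are ambiguous of the next class -/

section Delta

variable {X : Type} [TopologicalSpace X] [PolishSpace X]

private lemma IsSigma.compl_isPi {ξ : Ordinal.{0}} {A : Set X} (h : IsSigma ξ A) : IsPi ξ Aᶜ := by
  unfold IsPi
  rwa [compl_compl]

private lemma VSeq.pi_all {ξ lam : Ordinal.{0}} (hξ : 1 ≤ ξ) {F : Ordinal.{0} → Set X}
    (h : VSeq ξ lam F) (η : Ordinal.{0}) : IsPi ξ (F η) := by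
  rcases lt_or_ge η lam with h1 | h1
  · exact h.pi η h1
  · rw [h.big η h1]; exact IsPi.empty hξ

private lemma VSeq.piece {ξ lam : Ordinal.{0}} (hξ : 1 ≤ ξ) {F : Ordinal.{0} → Set X}
    (h : VSeq ξ lam F) (η : Ordinal.{0}) : IsSigma (ξ + 1) (F η ∩ (F (η + 1))ᶜ) := by
  refine IsSigma.inter ((h.pi_all hξ η).sigma_of_lt (lt_add_one ξ)) ?_
  exact IsSigma.mono (h.pi_all hξ (η + 1)) (le_add_right le_rfl)

private lemma VSeq.sigma_tdiff {ξ lam : Ordinal.{0}} (hξ : 1 ≤ ξ) (hlam : lam < ω₁)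
    {F : Ordinal.{0} → Set X} (h : VSeq ξ lam F) : IsSigma (ξ + 1) (tdiff lam F) := by
  have hc := countable_Iio hlam
  have h1 : tdiff lam F = ⋃ i : {η : Set.Iio lam // EvenOrd η.1},
      (F i.1.1 ∩ (F (i.1.1 + 1))ᶜ) := by
    ext x
    simp only [tdiff, Set.mem_ofPred_eq, Set.mem_iUnion, Set.mem_inter_iff, Set.mem_compl_iff]
    constructor
    · rintro ⟨η, h2, h3, h4, h5⟩
      exact ⟨⟨⟨η, h2⟩, h3⟩, h4, h5⟩
    · rintro ⟨⟨⟨η, h2⟩, h3⟩, h4, h5⟩
      exact ⟨η, h2, h3, h4, h5⟩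
  rw [h1]
  exact IsSigma.ciUnion (le_add_right hξ) fun i => h.piece hξ _

private lemma VSeq.compl_tdiff {ξ lam : Ordinal.{0}} {F : Ordinal.{0} → Set X} (h : VSeq ξ lam F)
    (hlam : 0 < lam) : (tdiff lam F)ᶜ =
      ⋃ i : {η : Set.Iio lam // ¬ EvenOrd η.1}, (F i.1.1 ∩ (F (i.1.1 + 1))ᶜ) := by
  ext x
  simp only [tdiff, Set.mem_ofPred_eq, Set.mem_iUnion, Set.mem_inter_iff, Set.mem_compl_iff]
  constructor
  · intro hx
    obtain ⟨η, h1, h2, h3⟩ := h.exists_level hlam x
    by_cases he : EvenOrd η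
    · exact absurd ⟨η, h1, he, h2, h3⟩ hx
    · exact ⟨⟨⟨η, h1⟩, he⟩, h2, h3⟩
  · rintro ⟨⟨⟨η, h1⟩, he⟩, h2, h3⟩ ⟨θ, h4, h5, h6, h7⟩
    have := h.toContSeq.level_unique h1 h4 h2 h3 h6 h7
    subst this
    exact he h5

private lemma VSeq.delta_tdiff {ξ lam : Ordinal.{0}} (hξ : 1 ≤ ξ) (hlam : lam < ω₁)
    {F : Ordinal.{0} → Set X} (h : VSeq ξ lam F) : IsDelta (ξ + 1) (tdiff lam F) := by
  refine ⟨h.sigma_tdiff hξ hlam, ?_⟩
  unfold IsPi
  rcases eq_or_ne lam 0 with h0 | h0
  · have : tdiff lam F = ∅ := by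
      ext x
      simp [tdiff, h0]
    rw [this, Set.compl_empty]
    exact IsSigma.univ (le_add_right hξ)
  · have hpos : 0 < lam := pos_iff_ne_zero.mpr h0
    have hc := countable_Iio hlam
    rw [h.compl_tdiff hpos]
    exact IsSigma.ciUnion (le_add_right hξ) fun i => h.piece hξ _

private lemma IsDelta.compl {ξ : Ordinal.{0}} {A : Set X} (h : IsDelta ξ A) : IsDelta ξ Aᶜ :=
  ⟨h.2, h.1.compl_isPi⟩

private lemma isDelta_univ {ξ : Ordinal.{0}} (hξ : 1 ≤ ξ) : IsDelta ξ (Set.univ : Set X) :=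
  ⟨IsSigma.univ hξ, IsPi.univ hξ⟩

/-- the trivial sequence of length `1` -/
private lemma vseq_one {ξ : Ordinal.{0}} (hξ : 1 ≤ ξ) :
    VSeq ξ 1 (fun η : Ordinal.{0} => if η = 0 then (Set.univ : Set X) else ∅) where
  pi := by
    intro η hη
    rw [Order.lt_one_iff] at hη
    simp only [hη, if_true]
    exact IsPi.univ hξ
  zero := by intro _; simp
  anti := by
    intro η θ h1 h2
    rw [Order.lt_one_iff] at h2
    subst h2
    have : η = 0 := le_antisymm h1 (zero_le)
    subst this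
    exact subset_rfl
  lim := by
    intro η h1 h2
    rw [Order.lt_one_iff] at h1
    subst h1
    exact absurd h2 Ordinal.not_isSuccLimit_zero
  vanish := by
    intro h
    refine absurd h ?_
    rw [← zero_add (1 : Ordinal.{0})]
    exact Order.not_isSuccLimit_add_one _
  big := by
    intro η hη
    have : η ≠ 0 := by
      rintro rfl
      exact absurd hη (by simp)
    simp [this]

private lemma evenOrd_zero' : EvenOrd 0 := ⟨0, 0, by simp⟩

private lemma tdiff_one : tdiff 1 (fun η : Ordinal.{0} => if η = 0 then (Set.univ : Set X) else ∅) =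
    Set.univ := by
  ext x
  simp only [tdiff, Set.mem_ofPred_eq, Set.mem_univ, iff_true]
  exact ⟨0, by simp, evenOrd_zero', by simp, by simp⟩

private lemma sepBy_empty_right {ξ : Ordinal.{0}} (hξ : 1 ≤ ξ) (A : Set X) : SepBy ξ 1 A ∅ :=
  ⟨_, vseq_one hξ, by rw [tdiff_one]; exact Set.subset_univ _, Set.disjoint_empty _⟩

private lemma sepBy_empty_left (ξ : Ordinal.{0}) (B : Set X) : SepBy ξ 0 ∅ B := by
  refine ⟨fun _ => ∅, ?_, Set.empty_subset _, ?_⟩
  · refine { pi := ?_, zero := ?_, anti := ?_, lim := ?_, vanish := ?_, big := ?_ }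
    · intro η h; exact absurd h (by simp)
    · intro h; exact absurd h (lt_irrefl _)
    · intro η θ _ h; exact absurd h (by simp)
    · intro η h; exact absurd h (by simp)
    · intro h; exact absurd h Ordinal.not_isSuccLimit_zero
    · intro η _; rfl
  · have : tdiff 0 (fun _ : Ordinal.{0} => (∅ : Set X)) = ∅ := by
      ext x
      simp [tdiff]
    rw [this]
    exact Set.empty_disjoint _

/-- the rank of the characteristic function of the complement of a transfinite difference -/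
private lemma funRank_indicator_le {ξ lam μ : Ordinal.{0}} (hξ : 1 ≤ ξ) {F : Ordinal.{0} → Set X}
    (h : VSeq ξ lam F) (h1 : lam ≤ μ) (h2 : 1 ≤ μ) :
    funRank ξ ((tdiff lam F)ᶜ.indicator (1 : X → ℝ)) ≤ (μ : WithTop Ordinal.{0}) := by
  unfold funRank
  refine iSup_le fun p => iSup_le fun q => iSup_le fun hpq => ?_
  have hpq' : (p : ℝ) < q := by exact_mod_cast hpq
  by_cases hp : (p : ℝ) < 0
  · have : {x | (tdiff lam F)ᶜ.indicator (1 : X → ℝ) x ≤ p} = ∅ := by
      ext x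
      simp only [Set.mem_ofPred_eq, Set.mem_empty_iff_false, iff_false, not_le]
      refine lt_of_lt_of_le hp ?_
      exact Set.indicator_nonneg (fun _ _ => zero_le_one) x
    rw [this]
    exact (sepRank_le_of_sepBy (sepBy_empty_left ξ _)).trans (by exact_mod_cast (zero_le : (0:Ordinal.{0}) ≤ μ))
  by_cases hq : (1 : ℝ) < q
  · have : {x | (q : ℝ) ≤ (tdiff lam F)ᶜ.indicator (1 : X → ℝ) x} = ∅ := by
      ext x
      simp only [Set.mem_ofPred_eq, Set.mem_empty_iff_false, iff_false, not_le]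
      refine lt_of_le_of_lt ?_ hq
      exact Set.indicator_le_self' (fun _ _ => zero_le_one) x
    rw [this]
    exact (sepRank_le_of_sepBy (sepBy_empty_right hξ _)).trans (by exact_mod_cast h2)
  push Not at hp hq
  have e1 : {x | (tdiff lam F)ᶜ.indicator (1 : X → ℝ) x ≤ p} = tdiff lam F := by
    ext x
    simp only [Set.mem_ofPred_eq]
    by_cases hx : x ∈ tdiff lam F
    · have : x ∉ (tdiff lam F)ᶜ := fun h => h hx
      rw [Set.indicator_of_notMem this]
      simp [hx, hp]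
    · rw [Set.indicator_of_mem (show x ∈ (tdiff lam F)ᶜ from hx)]
      simp only [Pi.one_apply, hx, iff_false, not_le]
      linarith
  have e2 : {x | (q : ℝ) ≤ (tdiff lam F)ᶜ.indicator (1 : X → ℝ) x} = (tdiff lam F)ᶜ := by
    ext x
    simp only [Set.mem_ofPred_eq]
    by_cases hx : x ∈ tdiff lam F
    · have : x ∉ (tdiff lam F)ᶜ := fun h => h hx
      rw [Set.indicator_of_notMem this]
      simp only [this, iff_false, not_le]
      linarith
    · rw [Set.indicator_of_mem (show x ∈ (tdiff lam F)ᶜ from hx)]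
      simp only [Pi.one_apply]
      exact ⟨fun _ => hx, fun _ => hq⟩
  rw [e1, e2]
  refine (sepRank_le_of_sepBy ⟨F, h, subset_rfl, disjoint_compl_right⟩).trans ?_
  exact_mod_cast h1

end Delta


/-! ### Functions of Baire class `ξ` -/

section BaireFun

variable {X : Type} [TopologicalSpace X] [PolishSpace X]

private lemma BaireClass.comp_continuous {ξ : Ordinal.{0}} {f : X → ℝ} (hf : BaireClass ξ f) {h : ℝ → ℝ}
    (hh : Continuous h) : BaireClass ξ (fun x => h (f x)) := by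
  intro U hU
  exact hf (h ⁻¹' U) (hU.preimage hh)

private lemma BaireClass.comp_continuous₂ {ξ : Ordinal.{0}} (hξ : 1 ≤ ξ) {f g : X → ℝ}
    (hf : BaireClass ξ f) (hg : BaireClass ξ g) {h : ℝ × ℝ → ℝ} (hh : Continuous h) :
    BaireClass ξ (fun x => h (f x, g x)) := by
  intro U hU
  have hW : IsOpen (h ⁻¹' U) := hU.preimage hh
  have hb := (TopologicalSpace.isBasis_countableBasis ℝ).prod
    (TopologicalSpace.isBasis_countableBasis ℝ)
  obtain ⟨S, hS, hS'⟩ := hb.open_eq_sUnion hW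
  have hcb : (Set.image2 (fun a b : Set ℝ => a ×ˢ b) (TopologicalSpace.countableBasis ℝ)
      (TopologicalSpace.countableBasis ℝ)).Countable :=
    (TopologicalSpace.countable_countableBasis ℝ).image2
      (TopologicalSpace.countable_countableBasis ℝ) _
  have hSc : S.Countable := hcb.mono hS
  have : Countable S := hSc.to_subtype
  have e : (fun x => h (f x, g x)) ⁻¹' U = ⋃ s : S, {x | (f x, g x) ∈ (s : Set (ℝ × ℝ))} := by
    ext x
    have h1 : x ∈ (fun x => h (f x, g x)) ⁻¹' U ↔ (f x, g x) ∈ h ⁻¹' U := Iff.rfl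
    rw [h1, hS']
    simp only [Set.mem_sUnion, Set.mem_iUnion, Set.mem_ofPred_eq, Subtype.exists, exists_prop]
  rw [e]
  refine IsSigma.ciUnion (le_add_right hξ) fun s => ?_
  obtain ⟨a, ha, b, hb', hab⟩ := hS s.2
  have ha' : IsOpen a := TopologicalSpace.isOpen_of_mem_countableBasis ha
  have hb'' : IsOpen b := TopologicalSpace.isOpen_of_mem_countableBasis hb'
  have e2 : {x | (f x, g x) ∈ (s : Set (ℝ × ℝ))} = f ⁻¹' a ∩ g ⁻¹' b := by
    ext x
    rw [← hab]
    simp
  rw [e2]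
  exact (hf a ha').inter (hg b hb'')

private lemma BaireClass.indicator {ξ : Ordinal.{0}} {A : Set X}
    (hA : IsDelta (ξ + 1) A) : BaireClass ξ (A.indicator (1 : X → ℝ)) := by
  intro U _
  classical
  have hone : 1 ≤ ξ + 1 := hA.1.one_le
  have e : (A.indicator (1 : X → ℝ)) ⁻¹' U =
      (if (1 : ℝ) ∈ U then A else ∅) ∪ (if (0 : ℝ) ∈ U then Aᶜ else ∅) := by
    ext x
    by_cases hx : x ∈ A
    · simp only [Set.mem_preimage, Set.indicator_of_mem hx, Pi.one_apply, Set.mem_union]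
      by_cases h1 : (1 : ℝ) ∈ U <;> by_cases h0 : (0 : ℝ) ∈ U <;> simp [h1, h0, hx]
    · simp only [Set.mem_preimage, Set.indicator_of_notMem hx, Set.mem_union]
      by_cases h1 : (1 : ℝ) ∈ U <;> by_cases h0 : (0 : ℝ) ∈ U <;> simp [h1, h0, hx]
  rw [e]
  refine IsSigma.union ?_ ?_
  · split_ifs
    · exact hA.1
    · exact IsSigma.empty hone
  · split_ifs
    · exact hA.2
    · exact IsSigma.empty hone

private lemma BB.indicator {ξ : Ordinal.{0}} {A : Set X} (hA : IsDelta (ξ + 1) A) :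
    BB ξ (A.indicator (1 : X → ℝ)) := by
  refine ⟨BaireClass.indicator hA, 1, fun x => ?_⟩
  by_cases hx : x ∈ A
  · simp [hx]
  · simp [hx]

private lemma BB.smul {ξ : Ordinal.{0}} {f : X → ℝ} (hf : BB ξ f) (c : ℝ) : BB ξ (fun x => c * f x) := by
  obtain ⟨h1, C, hC⟩ := hf
  refine ⟨h1.comp_continuous (by fun_prop : Continuous fun t : ℝ => c * t), |c| * C, fun x => ?_⟩
  rw [abs_mul]
  exact mul_le_mul_of_nonneg_left (hC x) (abs_nonneg c)

private lemma BB.add {ξ : Ordinal.{0}} (hξ : 1 ≤ ξ) {f g : X → ℝ} (hf : BB ξ f) (hg : BB ξ g) :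
    BB ξ (fun x => f x + g x) := by
  obtain ⟨h1, C, hC⟩ := hf
  obtain ⟨h2, D, hD⟩ := hg
  refine ⟨h1.comp_continuous₂ hξ h2 (by fun_prop : Continuous fun t : ℝ × ℝ => t.1 + t.2),
    C + D, fun x => ?_⟩
  exact (abs_add_le _ _).trans (add_le_add (hC x) (hD x))

private lemma BB.comp_lip {ξ : Ordinal.{0}} {f : X → ℝ} (hf : BB ξ f) {h : ℝ → ℝ} {K : NNReal}
    (hh : LipschitzWith K h) : BB ξ (fun x => h (f x)) := by
  obtain ⟨h1, C, hC⟩ := hf
  refine ⟨h1.comp_continuous hh.continuous, |h 0| + K * C, fun x => ?_⟩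
  have h2 : |h (f x) - h 0| ≤ K * |f x - 0| := by
    have := hh.dist_le_mul (f x) 0
    rwa [Real.dist_eq, Real.dist_eq] at this
  have h3 : |h (f x)| ≤ |h 0| + |h (f x) - h 0| := by
    have h5 : h (f x) = h 0 + (h (f x) - h 0) := by ring
    calc |h (f x)| = |h 0 + (h (f x) - h 0)| := by rw [← h5]
      _ ≤ _ := abs_add_le _ _
  rw [_root_.sub_zero] at h2
  have h4 : (K : ℝ) * |f x| ≤ K * C := mul_le_mul_of_nonneg_left (hC x) K.2
  linarith

end BaireFun

/-! ### Part 1: `ρ` is at most the separation rank -/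

section PartOne

/-- counting the thresholds below a real number -/
private lemma count_lemma {t : ℝ} (ht : 0 ≤ t) (c : ℕ → ℝ) (h0 : ∀ k, 0 ≤ c k) (h1 : ∀ k, c k ≤ 1)
    (hl : ∀ k : ℕ, t ≤ k → c k = 0) (hr : ∀ k : ℕ, (k : ℝ) + 1 ≤ t → c k = 1) (K : ℕ) :
    ((K : ℝ) ≤ t → ∑ k ∈ Finset.range K, c k = K) ∧
      (t < K → t - 1 ≤ ∑ k ∈ Finset.range K, c k ∧ ∑ k ∈ Finset.range K, c k ≤ t + 1) := by
  induction K with
  | zero =>
    constructor
    · intro _; simp
    · intro h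
      exact absurd h (by simpa using ht)
  | succ K ih =>
    obtain ⟨ih1, ih2⟩ := ih
    rw [Finset.sum_range_succ]
    push_cast
    constructor
    · intro h
      rw [ih1 (by linarith), hr K h]
    · intro h
      rcases le_or_gt (K : ℝ) t with h2 | h2
      · rw [ih1 h2]
        have := h0 K
        have := h1 K
        constructor <;> linarith
      · rw [hl K h2.le]
        have := ih2 h2
        constructor <;> linarith

variable {X : Type} [TopologicalSpace X] [PolishSpace X]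

private lemma exists_approx {ξ lam : Ordinal.{0}} (hξ : 1 ≤ ξ) (hlam0 : 1 ≤ lam) (hlam : lam < ω₁)
    {f : X → ℝ} (hf : funRank ξ f ≤ (lam : WithTop Ordinal.{0})) {p q : ℚ} (hpq : p < q) :
    ∃ A : Set X, IsDelta (ξ + 1) A ∧
      funRank ξ (A.indicator (1 : X → ℝ)) ≤ (lam : WithTop Ordinal.{0}) ∧
      (∀ x, f x ≤ p → x ∉ A) ∧ (∀ x, (q : ℝ) ≤ f x → x ∈ A) := by
  obtain ⟨lam', h1, F, h2, h3, h4⟩ := sepBy_of_sepRank_le
    ((sepRank_le_funRank ξ f hpq).trans hf)
  refine ⟨(tdiff lam' F)ᶜ, (h2.delta_tdiff hξ (lt_of_le_of_lt h1 hlam)).compl,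
    funRank_indicator_le hξ h2 h1 hlam0, ?_, ?_⟩
  · intro x hx hx'
    exact hx' (h3 hx)
  · intro x hx hx'
    exact Set.disjoint_left.mp h4 hx' hx

variable {ξ : Ordinal.{0}}
  {ρ : ∀ (X : Type) [TopologicalSpace X] [PolishSpace X], (X → ℝ) → Ordinal.{0}}

private lemma GoodRank.indicator_le (hρ : GoodRank ξ ρ) {η : Ordinal.{0}} (h1 : 1 ≤ η) (h2 : η < ω₁)
    {A : Set X} (hA : IsDelta (ξ + 1) A)
    (h : funRank ξ (A.indicator (1 : X → ℝ)) ≤ ((ω ^ η : Ordinal.{0}) : WithTop Ordinal.{0})) :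
    ρ X (A.indicator 1) ≤ ω ^ η :=
  WithTop.coe_le_coe.mp ((hρ.char X A hA).1 η h1 h2 h)

private lemma GoodRank.smul_le (hρ : GoodRank ξ ρ) {η : Ordinal.{0}} (h1 : 1 ≤ η) (h2 : η < ω₁)
    {f : X → ℝ} (hf : BB ξ f) {c : ℝ} (hc : c ≠ 0) (h : ρ X f ≤ ω ^ η) :
    ρ X (fun x => c * f x) ≤ ω ^ η :=
  WithTop.coe_le_coe.mp ((hρ.smul X f c hc hf).1 η h1 h2 (WithTop.coe_le_coe.mpr h))

private lemma GoodRank.add_le (hρ : GoodRank ξ ρ) {η : Ordinal.{0}} (h1 : 1 ≤ η) (h2 : η < ω₁)
    {f g : X → ℝ} (hf : BB ξ f) (hg : BB ξ g) (h : ρ X f ≤ ω ^ η) (h' : ρ X g ≤ ω ^ η) :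
    ρ X (fun x => f x + g x) ≤ ω ^ η := by
  refine WithTop.coe_le_coe.mp (hρ.add X f g hf hg η h1 h2 ?_)
  exact max_le (WithTop.coe_le_coe.mpr h) (WithTop.coe_le_coe.mpr h')

private lemma one_le_opow (η : Ordinal.{0}) : (1 : Ordinal.{0}) ≤ ω ^ η := by
  rw [Order.one_le_iff_pos]
  exact Ordinal.opow_pos _ Ordinal.omega0_pos

private lemma opow_lt_omega_one {η : Ordinal.{0}} (h : η < ω₁) : (ω ^ η : Ordinal.{0}) < ω₁ :=
  Ordinal.isPrincipal_opow_omega 1 Ordinal.omega0_lt_omega_one h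

private lemma isSuccLimit_opow' {η : Ordinal.{0}} (h : 1 ≤ η) :
    Order.IsSuccLimit (ω ^ η : Ordinal.{0}) :=
  Ordinal.isSuccLimit_opow_left Ordinal.isSuccLimit_omega0
    (by rintro rfl; exact absurd h (by simp))

private lemma GoodRank.univ_le (hρ : GoodRank ξ ρ) (hξ : 1 ≤ ξ) {η : Ordinal.{0}} (h1 : 1 ≤ η)
    (h2 : η < ω₁) : ρ X ((Set.univ : Set X).indicator 1) ≤ ω ^ η := by
  refine hρ.indicator_le h1 h2 (isDelta_univ (le_add_right hξ)) ?_
  obtain ⟨F, hF, -, -⟩ := sepBy_empty_left (X := X) ξ ∅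
  have h3 := funRank_indicator_le hξ hF (μ := ω ^ η) zero_le (one_le_opow η)
  have e : (tdiff 0 F)ᶜ = Set.univ := by
    ext x
    simp [tdiff]
  rwa [e] at h3

private lemma GoodRank.empty_le (hρ : GoodRank ξ ρ) (hξ : 1 ≤ ξ) {η : Ordinal.{0}} (h1 : 1 ≤ η)
    (h2 : η < ω₁) : ρ X ((∅ : Set X).indicator 1) ≤ ω ^ η := by
  have hd : IsDelta (ξ + 1) (∅ : Set X) := by
    have := (isDelta_univ (X := X) (le_add_right (c := 1) hξ)).compl
    rwa [Set.compl_univ] at this
  refine hρ.indicator_le h1 h2 hd ?_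
  have h3 := funRank_indicator_le hξ (vseq_one (X := X) hξ) (μ := ω ^ η) (one_le_opow η)
    (one_le_opow η)
  rwa [tdiff_one, Set.compl_univ] at h3

private lemma GoodRank.sum_le (hρ : GoodRank ξ ρ) (hξ : 1 ≤ ξ) {η : Ordinal.{0}} (h1 : 1 ≤ η)
    (h2 : η < ω₁) (A : ℕ → Set X) (hA : ∀ k, IsDelta (ξ + 1) (A k))
    (hr : ∀ k, funRank ξ ((A k).indicator (1 : X → ℝ)) ≤
      ((ω ^ η : Ordinal.{0}) : WithTop Ordinal.{0})) (K : ℕ) :
    BB ξ (fun x => ∑ k ∈ Finset.range K, (A k).indicator (1 : X → ℝ) x) ∧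
      ρ X (fun x => ∑ k ∈ Finset.range K, (A k).indicator (1 : X → ℝ) x) ≤ ω ^ η := by
  induction K with
  | zero =>
    have e : (fun x => ∑ k ∈ Finset.range 0, (A k).indicator (1 : X → ℝ) x) =
        (∅ : Set X).indicator 1 := by
      ext x
      simp
    rw [e]
    refine ⟨BB.indicator ?_, hρ.empty_le hξ h1 h2⟩
    have := (isDelta_univ (X := X) (le_add_right (c := 1) hξ)).compl
    rwa [Set.compl_univ] at this
  | succ K ih =>
    have e : (fun x => ∑ k ∈ Finset.range (K + 1), (A k).indicator (1 : X → ℝ) x) =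
        fun x => (fun x => ∑ k ∈ Finset.range K, (A k).indicator (1 : X → ℝ) x) x +
          (A K).indicator (1 : X → ℝ) x := by
      ext x
      rw [Finset.sum_range_succ]
    rw [e]
    exact ⟨ih.1.add hξ (BB.indicator (hA K)),
      hρ.add_le h1 h2 ih.1 (BB.indicator (hA K)) ih.2 (hρ.indicator_le h1 h2 (hA K) (hr K))⟩

theorem rank_le_funRank (hρ : GoodRank ξ ρ) (hξ : 1 ≤ ξ) {f : X → ℝ} (hf : BB ξ f) :
    LeqAsymp (ρ X f) (funRank ξ f) := by
  intro η h1 h2 hr
  obtain ⟨C, hC⟩ := hf.2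
  obtain ⟨M, hM⟩ := exists_nat_ge (max C 1)
  have hM1 : (1 : ℝ) ≤ M := (le_max_right _ _).trans hM
  have hMC : ∀ x, |f x| ≤ M := fun x => (hC x).trans ((le_max_left _ _).trans hM)
  -- the sets
  have hset : ∀ n k : ℕ, ∃ A : Set X, IsDelta (ξ + 1) A ∧
      funRank ξ (A.indicator (1 : X → ℝ)) ≤ ((ω ^ η : Ordinal.{0}) : WithTop Ordinal.{0}) ∧
      (∀ x, f x ≤ ((-(M : ℚ) + k / (n + 1) : ℚ) : ℝ) → x ∉ A) ∧
      (∀ x, ((-(M : ℚ) + (k + 1) / (n + 1) : ℚ) : ℝ) ≤ f x → x ∈ A) := by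
    intro n k
    refine exists_approx hξ (one_le_opow η) (opow_lt_omega_one h2) hr ?_
    have : (0 : ℚ) < (n : ℚ) + 1 := by positivity
    have h3 : (k : ℚ) / (n + 1) < ((k : ℚ) + 1) / (n + 1) := by
      apply div_lt_div_of_pos_right _ this
      linarith
    linarith
  choose A hA hAr hA0 hA1 using hset
  let S : ℕ → X → ℝ := fun n x =>
    ∑ k ∈ Finset.range (2 * M * (n + 1)), (A n k).indicator (1 : X → ℝ) x
  have hS : ∀ n, BB ξ (S n) ∧ ρ X (S n) ≤ ω ^ η := fun n =>
    hρ.sum_le hξ h1 h2 (A n) (hA n) (hAr n) _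
  let G : ℕ → X → ℝ := fun n x =>
    (1 / ((n : ℝ) + 1)) * S n x + (-(M : ℝ)) * ((Set.univ : Set X).indicator (1 : X → ℝ) x)
  have hun : BB ξ ((Set.univ : Set X).indicator (1 : X → ℝ)) :=
    BB.indicator (isDelta_univ (le_add_right hξ))
  have hG : ∀ n, BB ξ (G n) ∧ ρ X (G n) ≤ ω ^ η := by
    intro n
    have hn : (1 / ((n : ℝ) + 1)) ≠ 0 := by positivity
    have hM0 : (-(M : ℝ)) ≠ 0 := by
      have : (0 : ℝ) < M := by linarith
      exact neg_ne_zero.mpr this.ne'
    exact ⟨((hS n).1.smul _).add hξ (hun.smul _),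
      hρ.add_le h1 h2 ((hS n).1.smul _) (hun.smul _)
        (hρ.smul_le h1 h2 (hS n).1 hn (hS n).2)
        (hρ.smul_le h1 h2 hun hM0 (hρ.univ_le hξ h1 h2))⟩
  -- the approximation
  have happ : ∀ n x, |f x - G n x| ≤ 1 / ((n : ℝ) + 1) := by
    intro n x
    have hn : (0 : ℝ) < (n : ℝ) + 1 := by positivity
    set t : ℝ := (f x + M) * (n + 1) with ht
    have hfx := abs_le.mp (hMC x)
    have ht0 : 0 ≤ t := mul_nonneg (by linarith [hfx.1]) hn.le
    have hc := count_lemma ht0 (fun k => (A n k).indicator (1 : X → ℝ) x)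
      (fun k => Set.indicator_nonneg (fun _ _ => zero_le_one) x)
      (fun k => Set.indicator_le_self' (fun _ _ => zero_le_one) x)
      (by
        intro k hk
        refine Set.indicator_of_notMem (hA0 n k x ?_) _
        push_cast
        rw [← sub_le_iff_le_add', sub_neg_eq_add, le_div_iff₀ hn]
        exact hk)
      (by
        intro k hk
        refine Set.indicator_of_mem (hA1 n k x ?_) _
        push_cast
        rw [← le_sub_iff_add_le', sub_neg_eq_add, div_le_iff₀ hn]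
        exact hk)
      (2 * M * (n + 1))
    have hSt : |t - S n x| ≤ 1 := by
      rcases lt_or_ge t ((2 * M * (n + 1) : ℕ) : ℝ) with h3 | h3
      · have := hc.2 h3
        rw [abs_le]
        constructor <;> simp only [S] <;> linarith [this.1, this.2]
      · have h4 := hc.1 h3
        have h5 : t ≤ ((2 * M * (n + 1) : ℕ) : ℝ) := by
          push_cast
          rw [ht]
          apply mul_le_mul_of_nonneg_right _ hn.le
          linarith [hfx.2]
        have h6 : t = S n x := by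
          simp only [S]
          rw [h4]
          exact le_antisymm h5 h3
        rw [h6]
        simp
    have e : f x - G n x = (t - S n x) / ((n : ℝ) + 1) := by
      simp only [G, ht, Set.indicator_univ, Pi.one_apply]
      field_simp
      ring
    rw [e, abs_div, abs_of_pos hn]
    exact div_le_div_of_nonneg_right hSt hn.le
  have hunif : TendstoUniformly G f Filter.atTop := by
    rw [Metric.tendstoUniformly_iff]
    intro ε hε
    obtain ⟨N, hN⟩ := exists_nat_gt (1 / ε)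
    filter_upwards [Filter.eventually_ge_atTop N] with n hn x
    rw [Real.dist_eq]
    refine lt_of_le_of_lt (happ n x) ?_
    have hn0 : (0 : ℝ) < (n : ℝ) + 1 := by positivity
    rw [div_lt_iff₀ hn0]
    have h3 : (N : ℝ) ≤ n := by exact_mod_cast hn
    have h4 : 1 / ε < (n : ℝ) + 1 := by linarith
    rw [div_lt_iff₀ hε] at h4
    linarith
  refine hρ.unif X f G hf (fun n => (hG n).1) hunif η h1 h2 ?_
  exact WithTop.coe_le_coe.mpr (Ordinal.iSup_le fun n => (hG n).2)

end PartOne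


/-! ### Part 2: the separation rank is at most `ρ` -/

section PartTwo

variable {X : Type} [TopologicalSpace X] [PolishSpace X]

/-- a vanishing sequence of smaller length gives a non-vanishing difference of length `lam` -/
private lemma VSeq.isDiff {ξ lam' lam : Ordinal.{0}} (hξ : 1 ≤ ξ) {F : Ordinal.{0} → Set X}
    (h : VSeq ξ lam' F) (hle : lam' ≤ lam) : IsDiff ξ lam (tdiff lam' F) := by
  rcases eq_or_ne lam' 0 with h0 | h0
  · refine ⟨fun _ => Set.univ, ?_, ?_⟩
    · refine { pi := ?_, zero := ?_, anti := ?_, lim := ?_ }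
      · intro η _; exact IsPi.univ hξ
      · intro _; rfl
      · intro η θ _ _; exact subset_rfl
      · intro η _ _; simp
    · ext x
      simp [tdiff, h0]
  · have hpos : 0 < lam' := pos_iff_ne_zero.mpr h0
    refine ⟨F, ?_, ?_⟩
    · refine { pi := ?_, zero := ?_, anti := ?_, lim := ?_ }
      · intro η _; exact h.pi_all hξ η
      · intro _; exact h.zero hpos
      · intro η θ h1 _
        rcases lt_or_ge θ lam' with h2 | h2
        · exact h.anti η θ h1 h2
        · rw [h.big θ h2]; exact Set.empty_subset _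
      · intro η _ hl
        rcases lt_trichotomy η lam' with h2 | h2 | h2
        · exact h.lim η h2 hl
        · subst h2
          rw [h.big η le_rfl, h.vanish hl]
        · rw [h.big η h2.le]
          symm
          rw [Set.eq_empty_iff_forall_notMem]
          intro x hx
          simp only [Set.mem_iInter] at hx
          have := hx lam' h2
          rw [h.big lam' le_rfl] at this
          exact this
    · ext x
      simp only [tdiff, Set.mem_ofPred_eq]
      constructor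
      · rintro ⟨η, h1, h2⟩
        exact ⟨η, lt_of_lt_of_le h1 hle, h2⟩
      · rintro ⟨η, h1, h2, h3, h4⟩
        rcases lt_or_ge η lam' with h5 | h5
        · exact ⟨η, h5, h2, h3, h4⟩
        · rw [h.big η h5] at h3
          exact absurd h3 (Set.notMem_empty x)

/-- the clamp function -/
private lemma clamp_lip (p q : ℝ) (hpq : p < q) : ∃ K : NNReal,
    LipschitzWith K (fun t : ℝ => max 0 (min 1 ((t - p) / (q - p)))) := by
  have hq : 0 < q - p := sub_pos.mpr hpq
  refine ⟨⟨1 / (q - p), by positivity⟩, ?_⟩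
  have h1 : LipschitzWith ⟨1 / (q - p), by positivity⟩ (fun t : ℝ => (t - p) / (q - p)) := by
    refine LipschitzWith.of_dist_le_mul fun a b => ?_
    rw [Real.dist_eq, Real.dist_eq]
    have : (a - p) / (q - p) - (b - p) / (q - p) = (1 / (q - p)) * (a - b) := by
      field_simp
      ring
    rw [this, abs_mul, abs_of_pos (by positivity : 0 < 1 / (q - p))]
    rfl
  exact (h1.const_min 1).const_max 0

/-- The statement of the dichotomy theorem. -/
def DichotomyStatement : Prop :=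
  ∀ {X : Type} [TopologicalSpace X] [PolishSpace X]
    {ξ lam : Ordinal.{0}} (_ : 1 ≤ ξ) (_ : ξ < ω₁)
    (_ : Order.IsSuccLimit lam) (_ : lam < ω₁) {A B : Set X}
    (_ : IsPi (ξ + 1) A) (_ : IsPi (ξ + 1) B) (_ : Disjoint A B)
    (_ : ¬ ∃ D, IsDiff ξ lam D ∧ A ⊆ D ∧ Disjoint D B),
    ∃ g : (ℕ → Bool) → X, Continuous g ∧ (∀ a, g a ∈ A ∨ g a ∈ B) ∧
      ¬ IsDiff ξ lam (g ⁻¹' A)

private lemma BaireClass.isPi_le {ξ : Ordinal.{0}} {f : X → ℝ} (hf : BaireClass ξ f) (p : ℝ) :
    IsPi (ξ + 1) {x | f x ≤ p} := by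
  unfold IsPi
  have e : {x | f x ≤ p}ᶜ = f ⁻¹' (Set.Ioi p) := by
    ext x
    simp
  rw [e]
  exact hf _ isOpen_Ioi

private lemma BaireClass.isPi_ge {ξ : Ordinal.{0}} {f : X → ℝ} (hf : BaireClass ξ f) (p : ℝ) :
    IsPi (ξ + 1) {x | p ≤ f x} := by
  unfold IsPi
  have e : {x | p ≤ f x}ᶜ = f ⁻¹' (Set.Iio p) := by
    ext x
    simp
  rw [e]
  exact hf _ isOpen_Iio

variable {ξ : Ordinal.{0}}
  {ρ : ∀ (X : Type) [TopologicalSpace X] [PolishSpace X], (X → ℝ) → Ordinal.{0}}

theorem nonvan (hdich : DichotomyStatement) (hρ : GoodRank ξ ρ) (hξ : 2 ≤ ξ) (hξ' : ξ < ω₁)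
    {f : X → ℝ} (hf : BB ξ f) {η : Ordinal.{0}} (h1 : 1 ≤ η) (h2 : η < ω₁)
    (hr : ρ X f ≤ ω ^ η) {p q : ℝ} (hpq : p < q) :
    ∃ D, IsDiff ξ (ω ^ η) D ∧ {x | f x ≤ p} ⊆ D ∧ Disjoint D {x | q ≤ f x} := by
  by_contra hcon
  have hξ1 : 1 ≤ ξ := le_trans (by exact_mod_cast one_le_two) hξ
  have hdis : Disjoint {x | f x ≤ p} {x | q ≤ f x} := by
    rw [Set.disjoint_left]
    intro x hx hx'
    simp only [Set.mem_ofPred_eq] at hx hx'
    linarith
  obtain ⟨g, hg, hgA, hgn⟩ := hdich hξ1 hξ' (isSuccLimit_opow' h1) (opow_lt_omega_one h2)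
    (hf.1.isPi_le p) (hf.1.isPi_ge q) hdis hcon
  -- the compact set
  have hKc : IsClosed (Set.range g) := (isCompact_range hg).isClosed
  have hKp : PolishSpace (Set.range g) := hKc.polishSpace
  have hK2 : IsPi 2 (Set.range g) := by
    unfold IsPi
    exact (IsSigma.of_isOpen _ hKc.isOpen_compl).mono (by exact_mod_cast one_le_two)
  have hfK : BB ξ (fun x : Set.range g => f x.1) := by
    obtain ⟨C, hC⟩ := hf.2
    refine ⟨fun U hU => ?_, C, fun x => hC x.1⟩
    exact (hf.1 U hU).preimage continuous_subtype_val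
  have hrK : ρ (Set.range g) (fun x => f x.1) ≤ ω ^ η :=
    WithTop.coe_le_coe.mp (hρ.restr X f (Set.range g) hf hK2 η h1 h2 (WithTop.coe_le_coe.mpr hr))
  obtain ⟨K, hK⟩ := clamp_lip p q hpq
  have hq : 0 < q - p := sub_pos.mpr hpq
  set B : Set (Set.range g) := {x | q ≤ f x.1} with hB
  have hval : ∀ x : Set.range g, f x.1 ≤ p ∨ q ≤ f x.1 := by
    rintro ⟨x, a, rfl⟩
    exact hgA a
  have hind : (fun x : Set.range g => max 0 (min 1 ((f x.1 - p) / (q - p)))) =
      B.indicator (1 : Set.range g → ℝ) := by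
    ext x
    by_cases hx : x ∈ B
    · rw [Set.indicator_of_mem hx]
      have hx' : q ≤ f x.1 := hx
      have : 1 ≤ (f x.1 - p) / (q - p) := by
        rw [le_div_iff₀ hq]
        linarith
      rw [min_eq_left this]
      simp
    · rw [Set.indicator_of_notMem hx]
      have hx' : f x.1 ≤ p := (hval x).resolve_right hx
      have : (f x.1 - p) / (q - p) ≤ 0 := div_nonpos_of_nonpos_of_nonneg (by linarith) hq.le
      rw [max_eq_left ((min_le_right _ _).trans this)]
  have hrB : ρ (Set.range g) (B.indicator 1) ≤ ω ^ η := by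
    have := hρ.lip (Set.range g) (fun x => f x.1) _ K hfK hK η h1 h2 (WithTop.coe_le_coe.mpr hrK)
    rw [hind] at this
    exact WithTop.coe_le_coe.mp this
  have hBd : IsDelta (ξ + 1) B := by
    refine ⟨?_, hfK.1.isPi_ge q⟩
    have e : B = (fun x : Set.range g => f x.1) ⁻¹' (Set.Ioi p) := by
      ext x
      simp only [hB, Set.mem_ofPred_eq, Set.mem_preimage, Set.mem_Ioi]
      constructor
      · intro h; linarith
      · intro h
        rcases hval x with h' | h'
        · linarith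
        · exact h'
    rw [e]
    exact hfK.1 _ isOpen_Ioi
  have hfr := (hρ.char (Set.range g) B hBd).2 η h1 h2 (WithTop.coe_le_coe.mpr hrB)
  obtain ⟨lam', hl1, F, hF1, hF2, hF3⟩ := sepBy_of_sepRank_le
    ((sepRank_le_funRank ξ _ (show (0 : ℚ) < 1 by norm_num)).trans hfr)
  have eB : tdiff lam' F = Bᶜ := by
    apply Set.Subset.antisymm
    · intro x hx hxB
      refine Set.disjoint_left.mp hF3 hx ?_
      simp only [Set.mem_ofPred_eq, Set.indicator_of_mem hxB]
      simp
    · intro x hx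
      apply hF2
      simp only [Set.mem_ofPred_eq, Set.indicator_of_notMem (show x ∉ B from hx)]
      simp
  apply hgn
  have hd : IsDiff ξ (ω ^ η) Bᶜ := by
    rw [← eB]
    exact hF1.isDiff hξ1 hl1
  have hg' : Continuous (Set.rangeFactorization g) := hg.subtype_mk _
  have e2 : g ⁻¹' {x | f x ≤ p} = Set.rangeFactorization g ⁻¹' Bᶜ := by
    ext a
    simp only [Set.mem_preimage, Set.mem_ofPred_eq, Set.mem_compl_iff, hB, not_le,
      Set.rangeFactorization_coe]
    constructor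
    · intro h; linarith
    · intro h
      rcases hgA a with h' | h'
      · exact h'
      · simp only [Set.mem_ofPred_eq] at h'
        linarith
  rw [e2]
  have : PolishSpace (ℕ → Bool) :=
    { toSecondCountableTopology := inferInstance, toIsCompletelyMetrizableSpace := inferInstance }
  exact hd.preimage hg'

omit [TopologicalSpace X] [PolishSpace X] in
/-- a point in all sets of a sequence of limit length is not in the difference -/
private lemma notMem_tdiff {lam : Ordinal.{0}} {F : Ordinal.{0} → Set X} (hlam : Order.IsSuccLimit lam)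
    {x : X} (hx : x ∈ ⋂ η : Set.Iio lam, F η.1) : x ∉ tdiff lam F := by
  rintro ⟨η, h1, -, -, h4⟩
  simp only [Set.mem_iInter, Subtype.forall, Set.mem_Iio] at hx
  exact h4 (hx (η + 1) (hlam.add_one_lt h1))

/-- combining the two separations -/
theorem combine {ξ lam : Ordinal.{0}} (hξ : 2 ≤ ξ) (hlam : Order.IsSuccLimit lam)
    (hlam' : lam < ω₁) {f : X → ℝ} {p r₁ r₂ q : ℝ} (h1 : p < r₁) (h2 : r₁ < r₂) (h3 : r₂ < q)
    {D D' : Set X} (hD : IsDiff ξ lam D) (hD1 : {x | f x ≤ r₂} ⊆ D)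
    (hD2 : Disjoint D {x | q ≤ f x}) (hD' : IsDiff ξ lam D') (hD'1 : {x | r₁ ≤ f x} ⊆ D')
    (hD'2 : Disjoint D' {x | f x ≤ p}) :
    SepBy ξ lam {x | f x ≤ p} {x | q ≤ f x} := by
  have hξ1 : 1 ≤ ξ := le_trans (by exact_mod_cast one_le_two) hξ
  obtain ⟨F, hF, rfl⟩ := hD
  obtain ⟨F', hF', rfl⟩ := hD'
  have hc := countable_Iio hlam'
  have hpos : 0 < lam := hlam.bot_lt
  have hpiF : IsPi ξ (⋂ η : Set.Iio lam, F η.1) := IsPi.ciInter hξ1 fun η => hF.pi _ η.2
  have hpiF' : IsPi ξ (⋂ η : Set.Iio lam, F' η.1) := IsPi.ciInter hξ1 fun η => hF'.pi _ η.2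
  have hUV : (⋂ η : Set.Iio lam, F η.1)ᶜ ∪ (⋂ η : Set.Iio lam, F' η.1)ᶜ = Set.univ := by
    rw [Set.eq_univ_iff_forall]
    intro x
    rw [← Set.compl_inter]
    rintro ⟨hx1, hx2⟩
    have h4 := notMem_tdiff hlam hx1
    have h5 := notMem_tdiff hlam hx2
    have h6 : ¬ f x ≤ r₂ := fun h => h4 (hD1 h)
    have h7 : ¬ r₁ ≤ f x := fun h => h5 (hD'1 h)
    push Not at h6 h7
    linarith
  obtain ⟨E, hE, hEU, hEV⟩ := IsSigma.partition hξ hpiF hpiF' hUV
  -- the shifted sequence
  let G : Ordinal.{0} → Set X := fun η => ⋂ θ, ⋂ (_ : θ < η), F' θ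
  have hG0 : G 0 = Set.univ := by
    simp [G]
  have hGs : ∀ θ < lam, G (θ + 1) = F' θ := by
    intro θ hθ
    ext x
    simp only [G, Set.mem_iInter]
    constructor
    · intro h; exact h θ (lt_add_one θ)
    · intro h μ hμ
      exact hF'.anti μ θ (Order.lt_add_one_iff.mp hμ) hθ h
  have hGanti : ∀ η θ, η ≤ θ → G θ ⊆ G η := by
    intro η θ h x hx
    simp only [G, Set.mem_iInter] at hx ⊢
    intro μ hμ
    exact hx μ (lt_of_lt_of_le hμ h)
  have hGl : ∀ η, Order.IsSuccLimit η → G η = ⋂ θ, ⋂ (_ : θ < η), G θ := by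
    intro η hη
    apply Set.Subset.antisymm
    · intro x hx
      simp only [Set.mem_iInter]
      intro μ hμ
      exact hGanti μ η hμ.le hx
    · intro x hx
      simp only [Set.mem_iInter] at hx
      simp only [G, Set.mem_iInter]
      intro μ hμ
      have := hx (μ + 1) (hη.add_one_lt hμ)
      simp only [G, Set.mem_iInter] at this
      exact this μ (lt_add_one μ)
  have hGpi : ∀ η < lam, IsPi ξ (G η) := by
    intro η hη
    have hcη := countable_Iio (hη.trans hlam')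
    have e : G η = ⋂ θ : Set.Iio η, F' θ.1 := by
      ext x
      simp [G]
    rw [e]
    exact IsPi.ciInter hξ1 fun θ => hF'.pi _ (lt_trans θ.2 hη)
  let H : Ordinal.{0} → Set X := fun η => if η < lam then (F η ∩ E) ∪ (G η ∩ Eᶜ) else ∅
  have hH : ∀ η < lam, H η = (F η ∩ E) ∪ (G η ∩ Eᶜ) := fun η hη => if_pos hη
  have hHE : ∀ η < lam, ∀ x ∈ E, (x ∈ H η ↔ x ∈ F η) := by
    intro η hη x hx
    rw [hH η hη]
    simp [hx]
  have hHE' : ∀ η < lam, ∀ x ∉ E, (x ∈ H η ↔ x ∈ G η) := by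
    intro η hη x hx
    rw [hH η hη]
    simp [hx]
  have hV : VSeq ξ lam H := by
    refine { pi := ?_, zero := ?_, anti := ?_, lim := ?_, vanish := ?_, big := ?_ }
    · intro η hη
      rw [hH η hη]
      exact ((hF.pi η hη).inter hE.2).union ((hGpi η hη).inter hE.1.compl_isPi)
    · intro _
      rw [hH 0 hpos, hF.zero hpos, hG0]
      simp
    · intro η θ hle hθ x hx
      by_cases hxE : x ∈ E
      · rw [hHE θ hθ x hxE] at hx
        rw [hHE η (lt_of_le_of_lt hle hθ) x hxE]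
        exact hF.anti η θ hle hθ hx
      · rw [hHE' θ hθ x hxE] at hx
        rw [hHE' η (lt_of_le_of_lt hle hθ) x hxE]
        exact hGanti η θ hle hx
    · intro η hη hl
      ext x
      by_cases hxE : x ∈ E
      · rw [hHE η hη x hxE, hF.lim η hη hl]
        simp only [Set.mem_iInter]
        exact forall₂_congr fun θ hθ => (hHE θ (hθ.trans hη) x hxE).symm
      · rw [hHE' η hη x hxE, hGl η hl]
        simp only [Set.mem_iInter]
        exact forall₂_congr fun θ hθ => (hHE' θ (hθ.trans hη) x hxE).symm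
    · intro _
      rw [Set.eq_empty_iff_forall_notMem]
      intro x hx
      simp only [Set.mem_iInter] at hx
      by_cases hxE : x ∈ E
      · apply hEU hxE
        simp only [Set.mem_iInter, Subtype.forall, Set.mem_Iio]
        intro θ hθ
        exact (hHE θ hθ x hxE).mp (hx θ hθ)
      · apply hEV hxE
        simp only [Set.mem_iInter, Subtype.forall, Set.mem_Iio]
        intro θ hθ
        have h4 : θ + 1 < lam := hlam.add_one_lt hθ
        have := (hHE' (θ + 1) h4 x hxE).mp (hx (θ + 1) h4)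
        rwa [hGs θ hθ] at this
    · intro η hη
      exact if_neg (not_lt.mpr hη)
  refine ⟨H, hV, ?_, ?_⟩
  · intro x hx
    have hxp : f x ≤ p := hx
    by_cases hxE : x ∈ E
    · obtain ⟨η, h4, h5, h6, h7⟩ := hD1 (show f x ≤ r₂ by linarith)
      exact ⟨η, h4, h5, (hHE η h4 x hxE).mpr h6,
        fun h => h7 ((hHE (η + 1) (hlam.add_one_lt h4) x hxE).mp h)⟩
    · have hnot : x ∉ tdiff lam F' := fun h => Set.disjoint_left.mp hD'2 h hx
      rcases hF'.exists_level hlam x with h4 | ⟨θ, h4, h5, h6⟩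
      · exfalso
        apply hEV hxE
        simp only [Set.mem_iInter, Subtype.forall, Set.mem_Iio]
        exact h4
      · have hodd : ¬ EvenOrd θ := fun h => hnot ⟨θ, h4, h, h5, h6⟩
        have h7 : θ + 1 < lam := hlam.add_one_lt h4
        have h8 : θ + 1 + 1 < lam := hlam.add_one_lt h7
        refine ⟨θ + 1, h7, evenOrd_succ.mpr hodd, ?_, ?_⟩
        · rw [hHE' _ h7 x hxE, hGs θ h4]
          exact h5
        · rw [hHE' _ h8 x hxE, hGs (θ + 1) h7]
          exact h6
  · rw [Set.disjoint_left]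
    rintro x ⟨η, h4, h5, h6, h7⟩ hx
    have hxq : q ≤ f x := hx
    have h8 : η + 1 < lam := hlam.add_one_lt h4
    by_cases hxE : x ∈ E
    · rw [hHE η h4 x hxE] at h6
      rw [hHE _ h8 x hxE] at h7
      exact Set.disjoint_left.mp hD2 ⟨η, h4, h5, h6, h7⟩ hx
    · rw [hHE' η h4 x hxE] at h6
      rw [hHE' _ h8 x hxE, hGs η h4] at h7
      obtain ⟨θ, h9, h10, h11, h12⟩ := hD'1 (show r₁ ≤ f x by linarith)
      have hle : θ + 1 ≤ η := by
        rw [Order.add_one_le_iff]
        by_contra hcon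
        push Not at hcon
        exact h7 (hF'.anti η θ hcon h9 h11)
      have heq : θ + 1 = η := by
        rcases hle.lt_or_eq with hlt | heq
        · exfalso
          simp only [G, Set.mem_iInter] at h6
          exact h12 (h6 (θ + 1) hlt)
        · exact heq
      rw [← heq] at h5
      exact evenOrd_succ.mp h5 h10

theorem funRank_le_rank (hdich : DichotomyStatement) (hρ : GoodRank ξ ρ) (hξ : 2 ≤ ξ)
    (hξ' : ξ < ω₁) {f : X → ℝ} (hf : BB ξ f) : LeqAsymp (funRank ξ f) (ρ X f) := by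
  intro η h1 h2 hr
  have hr' : ρ X f ≤ ω ^ η := WithTop.coe_le_coe.mp hr
  unfold funRank
  refine iSup_le fun p => iSup_le fun q => iSup_le fun hpq => ?_
  have hpq' : (p : ℝ) < q := by exact_mod_cast hpq
  obtain ⟨r₁, h3, h4⟩ := exists_between hpq'
  obtain ⟨r₂, h5, h6⟩ := exists_between h4
  obtain ⟨D, hD, hD1, hD2⟩ := nonvan hdich hρ hξ hξ' hf h1 h2 hr' h6
  have hneg : ρ X (fun x => (-1) * f x) ≤ ω ^ η :=
    hρ.smul_le h1 h2 hf (by norm_num) hr'
  obtain ⟨D', hD', hD'1, hD'2⟩ := nonvan hdich hρ hξ hξ' (hf.smul (-1)) h1 h2 hneg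
    (show -r₁ < -(p : ℝ) by linarith)
  have e1 : {x | (-1) * f x ≤ -r₁} = {x | r₁ ≤ f x} := by
    ext x
    simp only [Set.mem_ofPred_eq]
    constructor <;> intro h <;> linarith
  have e2 : {x | -(p : ℝ) ≤ (-1) * f x} = {x | f x ≤ p} := by
    ext x
    simp only [Set.mem_ofPred_eq]
    constructor <;> intro h <;> linarith
  rw [e1] at hD'1
  rw [e2] at hD'2
  exact sepRank_le_of_sepBy (combine hξ (isSuccLimit_opow' h1) (opow_lt_omega_one h2) h3 h5 h6
    hD hD1 hD2 hD' hD'1 hD'2)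

/-- the main theorem, from the dichotomy -/
theorem main_thm_of_dichotomy (hdich : DichotomyStatement) (ξ : Ordinal.{0}) (h2 : 2 ≤ ξ)
    (hξ : ξ < ω₁)
    (ρ : ∀ (X : Type) [TopologicalSpace X] [PolishSpace X], (X → ℝ) → Ordinal.{0})
    (hρ : GoodRank ξ ρ) (X : Type) [TopologicalSpace X] [PolishSpace X] (f : X → ℝ)
    (hf : BB ξ f) : EqAsymp (ρ X f) (funRank ξ f) :=
  ⟨rank_le_funRank hρ (le_trans (by exact_mod_cast one_le_two) h2) hf,
    funRank_le_rank hdich hρ h2 hξ hf⟩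

end PartTwo

end Pool.Agent.MP106504
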