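import Pool.Agent.Lib.MP_106504_lc.Classes

/-!
# Universal sets and a set that is not a transfinite difference (MP_106504_lc, part P2)
-/

namespace Pool.Agent.MP106504

open Set Ordinal

set_option linter.unusedSectionVars false

section P2

theorem polish_seq (X : Type) [TopologicalSpace X] [PolishSpace X] : PolishSpace (ℕ → X) :=
  inferInstance

instance instPolishCantor : PolishSpace (ℕ → Bool) := polish_seq Bool

theorem polish_prod (X Y : Type) [TopologicalSpace X] [PolishSpace X] [TopologicalSpace Y]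
    [PolishSpace Y] : PolishSpace (X × Y) :=
  inferInstance

instance instPolishCantorProd : PolishSpace ((ℕ → Bool) × (ℕ → Bool)) := polish_prod _ _

open Cardinal in
theorem countable_Iio_of_lt {ξ : Ordinal.{0}} (h : ξ < ω₁) : (Iio ξ).Countable := by
  rw [← Cardinal.le_aleph0_iff_set_countable, Cardinal.mk_Iio_ordinal]
  rw [← Cardinal.ord_aleph, Cardinal.lt_ord] at h
  have := lt_aleph_one_iff.mp h
  rw [← Cardinal.lift_aleph0.{1,0}]
  exact Cardinal.lift_le.2 this

/-- the `k`-th column of `e` -/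
def col (k : ℕ) (e : ℕ → Bool) : ℕ → Bool := fun n => e (Nat.pair k n)

theorem continuous_col (k : ℕ) : Continuous (col k) :=
  continuous_pi fun n => continuous_apply (Nat.pair k n)

theorem exists_cols (f : ℕ → ℕ → Bool) : ∃ e : ℕ → Bool, ∀ k, col k e = f k := by
  refine ⟨fun m => f m.unpair.1 m.unpair.2, fun k => ?_⟩
  funext n
  simp [col]

/-- a surjection from `ℕ` onto the ordinals of `[1, ξ)` -/
theorem exists_enum {ξ : Ordinal.{0}} (h1 : 1 < ξ) (hξ' : ξ < ω₁) :
    ∃ ζ : ℕ → Ordinal.{0}, (∀ k, 1 ≤ ζ k ∧ ζ k < ξ) ∧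
      ∀ η, 1 ≤ η → η < ξ → ∃ k, ζ k = η := by
  have hc : (Iio ξ).Countable := countable_Iio_of_lt hξ'
  have hc2 : (Ico 1 ξ).Countable := hc.mono fun x hx => hx.2
  obtain ⟨ζ, hζ⟩ := hc2.exists_eq_range ⟨1, le_rfl, h1⟩
  refine ⟨ζ, fun k => ?_, fun η h2 h3 => ?_⟩
  · have : ζ k ∈ Ico 1 ξ := by rw [hζ]; exact mem_range_self k
    exact this
  · have : η ∈ Ico 1 ξ := ⟨h2, h3⟩
    rw [hζ] at this
    exact this

/-- universal set -/
theorem exists_universal {ξ : Ordinal.{0}} (hξ : 1 ≤ ξ) (hξ' : ξ < ω₁) :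
    ∃ U : Set ((ℕ → Bool) × (ℕ → Bool)), IsSigma ξ U ∧
      ∀ A : Set (ℕ → Bool), IsSigma ξ A → ∃ e, ∀ y, y ∈ A ↔ (e, y) ∈ U := by
  induction ξ using WellFoundedLT.induction with
  | ind ξ ih =>
  rcases hξ.eq_or_lt with h1 | h1
  · subst h1
    obtain ⟨b, hbc, -, hb⟩ := TopologicalSpace.exists_countable_basis (ℕ → Bool)
    obtain ⟨B, hB⟩ := (hbc.insert ∅).exists_eq_range ⟨∅, mem_insert _ _⟩
    have hBo : ∀ n, IsOpen (B n) := by
      intro n
      have : B n ∈ insert ∅ b := by rw [hB]; exact mem_range_self n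
      rcases this with h | h
      · rw [h]; exact isOpen_empty
      · exact hb.isOpen h
    refine ⟨⋃ n, {p | p.1 n = true ∧ p.2 ∈ B n}, ?_, ?_⟩
    · refine IsSigma.of_isOpen _ (isOpen_iUnion fun n => ?_)
      refine IsOpen.inter (s := {p : (ℕ → Bool) × (ℕ → Bool) | p.1 n = true})
        (t := {p | p.2 ∈ B n}) ?_ ?_
      · have hc : Continuous fun p : (ℕ → Bool) × (ℕ → Bool) => p.1 n :=
          (continuous_apply n).comp continuous_fst
        exact (isOpen_discrete ({true} : Set Bool)).preimage hc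
      · exact (hBo n).preimage continuous_snd
    · intro A hA
      classical
      refine ⟨fun n => decide (B n ⊆ A), fun y => ?_⟩
      simp only [mem_iUnion]
      constructor
      · intro hy
        obtain ⟨v, hv, hyv, hvA⟩ := hb.exists_subset_of_mem_open hy hA.isOpen
        have hv' : v ∈ range B := by rw [← hB]; exact mem_insert_of_mem _ hv
        obtain ⟨n, rfl⟩ := hv'
        exact ⟨n, by simpa using hvA, hyv⟩
      · rintro ⟨n, hn, hy⟩
        exact (of_decide_eq_true hn) hy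
  · obtain ⟨ζ, hζ1, hζ2⟩ := exists_enum h1 hξ'
    choose U hU1 hU2 using fun k => ih (ζ k) (hζ1 k).2 (hζ1 k).1 ((hζ1 k).2.trans hξ')
    refine ⟨⋃ k : ℕ, ⋃ m : ℕ,
      (fun p : (ℕ → Bool) × (ℕ → Bool) => (col (Nat.pair k m) p.1, p.2)) ⁻¹' (U k)ᶜ, ?_, ?_⟩
    · refine IsSigma.ciUnion h1.le fun k => IsSigma.ciUnion h1.le fun m => ?_
      refine IsSigma.preimage (((continuous_col _).comp continuous_fst).prodMk continuous_snd) ?_
      refine IsPi.sigma_of_lt (η := ζ k) ?_ (hζ1 k).2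
      unfold IsPi
      rw [compl_compl]
      exact hU1 k
    · intro A hA
      obtain ⟨B, η, hη, hB, rfl⟩ := hA.exists_of_lt h1
      have hex : ∀ j : ℕ, ∃ e : ℕ → Bool,
          (ζ j.unpair.1 = η j.unpair.2 → ∀ y, y ∈ B j.unpair.2 ↔ (e, y) ∉ U j.unpair.1) ∧
          (ζ j.unpair.1 ≠ η j.unpair.2 → ∀ y, (e, y) ∈ U j.unpair.1) := by
        intro j
        by_cases hj : ζ j.unpair.1 = η j.unpair.2
        · have h2 : IsSigma (ζ j.unpair.1) (B j.unpair.2)ᶜ := by
            rw [hj]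
            exact hB _
          obtain ⟨e, he⟩ := hU2 j.unpair.1 _ h2
          refine ⟨e, fun _ y => ?_, fun h => absurd hj h⟩
          rw [← he y, mem_compl_iff, not_not]
        · obtain ⟨e, he⟩ := hU2 j.unpair.1 _ (IsSigma.univ (hζ1 j.unpair.1).1)
          exact ⟨e, fun h => absurd h hj, fun _ y => (he y).1 trivial⟩
      choose f hf1 hf2 using hex
      obtain ⟨e, he⟩ := exists_cols f
      refine ⟨e, fun y => ?_⟩
      simp only [mem_iUnion, mem_preimage, mem_compl_iff, he]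
      constructor
      · rintro ⟨m, hm⟩
        obtain ⟨k, hk⟩ := hζ2 (η m) (hη m).1 (hη m).2
        refine ⟨k, m, ?_⟩
        have := (hf1 (Nat.pair k m) (by simpa using hk) y).1 (by simpa using hm)
        simpa using this
      · rintro ⟨k, m, hkm⟩
        refine ⟨m, ?_⟩
        by_cases hk : ζ k = η m
        · have := (hf1 (Nat.pair k m) (by simpa using hk) y).2 (by simpa using hkm)
          simpa using this
        · exfalso
          have := hf2 (Nat.pair k m) (by simpa using hk) y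
          simp only [Nat.unpair_pair] at this
          exact hkm this

theorem exists_diag {ξ lam : Ordinal.{0}} (hξ : 1 ≤ ξ) (hξ' : ξ < ω₁)
    (hlam : Order.IsSuccLimit lam) (hlam' : lam < ω₁) :
    ∃ C : Set (ℕ → Bool), IsDiff ξ lam Cᶜ ∧ ¬ IsDiff ξ lam C := by
  classical
  obtain ⟨U, hU1, hU2⟩ := exists_universal hξ hξ'
  have hc : (Iio lam).Countable := countable_Iio_of_lt hlam'
  have : Countable (Iio lam) := hc.to_subtype
  obtain ⟨c, hcinj⟩ := exists_injective_nat (Iio lam)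
  -- the universal sequences
  let S : (ℕ → Bool) → Ordinal.{0} → Set (ℕ → Bool) := fun e η =>
    ⋂ θ : Iio lam, ⋂ (_ : θ.1 < η), {y | (col (c θ) e, y) ∉ U}
  let G : Ordinal.{0} → Set (ℕ → Bool) := fun η =>
    ⋂ θ : Iio lam, ⋂ (_ : θ.1 < η), {y | (col (c θ) y, y) ∉ U}
  have hGpi : ∀ η, η < lam → IsPi ξ (G η) := by
    intro η hη
    refine IsPi.ciInter hξ fun θ => ?_
    by_cases hθ : θ.1 < η
    swap
    · simp only [hθ, iInter_of_empty]
      exact IsPi.univ hξ
    simp only [hθ, iInter_true]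
    have : {y | (col (c θ) y, y) ∉ U} = (fun y : ℕ → Bool => (col (c θ) y, y)) ⁻¹' Uᶜ := rfl
    rw [this]
    refine IsPi.preimage ((continuous_col _).prodMk continuous_id) ?_
    unfold IsPi
    rwa [compl_compl]
  have hG : ContSeq ξ lam G := by
    refine ⟨hGpi, ?_, ?_, ?_⟩
    · intro _
      ext y
      simp [G]
    · intro η θ h1 h2 y hy
      simp only [G, mem_iInter] at hy ⊢
      exact fun θ' h3 => hy θ' (lt_of_lt_of_le h3 h1)
    · intro η hη hlim
      ext y
      simp only [G, mem_iInter]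
      constructor
      · intro h θ hθ θ' h3
        exact h θ' (h3.trans hθ)
      · intro h θ hθ
        have h3 : θ.1 + 1 < η := by
          rw [← Order.succ_eq_add_one]
          exact hlim.succ_lt hθ
        exact h (θ.1 + 1) h3 θ (Order.lt_add_one_iff.2 le_rfl)
  refine ⟨(tdiff lam G)ᶜ, ⟨G, hG, compl_compl _⟩, ?_⟩
  rintro ⟨F, hF, hFeq⟩
  -- code for `F`
  have hex : ∀ k : ℕ, ∃ e : ℕ → Bool, ∀ θ : Iio lam, c θ = k →
      ∀ y, y ∈ F (θ.1 + 1) ↔ (e, y) ∉ U := by
    intro k
    by_cases hk : ∃ θ, c θ = k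
    · obtain ⟨θ, rfl⟩ := hk
      have h3 : θ.1 + 1 < lam := by
        rw [← Order.succ_eq_add_one]
        exact hlam.succ_lt θ.2
      obtain ⟨e, he⟩ := hU2 _ (hF.pi (θ.1 + 1) h3)
      refine ⟨e, fun θ' h4 y => ?_⟩
      rw [hcinj h4, ← he y, mem_compl_iff, not_not]
    · exact ⟨fun _ => true, fun θ hθ => absurd ⟨θ, hθ⟩ hk⟩
  choose f hf using hex
  obtain ⟨e, he⟩ := exists_cols f
  -- `F η` is computed from `e`
  have hFe : ∀ η, η < lam → ∀ y, (y ∈ F η ↔ ∀ θ : Iio lam, θ.1 < η → (col (c θ) e, y) ∉ U) := by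
    intro η hη y
    constructor
    · intro hy θ hθ
      rw [he, ← hf (c θ) θ rfl y]
      exact hF.anti (θ.1 + 1) η (Order.add_one_le_of_lt hθ) hη hy
    · intro h
      have h' : ∀ θ, θ < η → y ∈ F (θ + 1) := by
        intro θ hθ
        have := h ⟨θ, hθ.trans hη⟩ hθ
        rw [he, ← hf _ ⟨θ, hθ.trans hη⟩ rfl y] at this
        exact this
      rcases Ordinal.zero_or_succ_or_isSuccLimit η with h0 | ⟨θ, hθ⟩ | hlim
      · rw [h0, hF.zero (lt_of_le_of_lt zero_le hη)]
        trivial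
      · rw [Order.succ_eq_add_one] at hθ
        rw [← hθ]
        exact h' θ (by rw [← hθ]; exact Order.lt_add_one_iff.2 le_rfl)
      · rw [hF.lim η hη hlim]
        refine mem_iInter.2 fun θ => mem_iInter.2 fun hθ => ?_
        refine hF.anti θ (θ + 1) ?_ ?_ (h' θ hθ)
        · exact (Order.lt_add_one_iff.2 le_rfl).le
        · rw [← Order.succ_eq_add_one]
          exact hlam.succ_lt (hθ.trans hη)
  have hFG : ∀ η, η < lam → (e ∈ F η ↔ e ∈ G η) := by
    intro η hη
    rw [hFe η hη e]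
    simp only [G, mem_iInter]
    rfl
  have hmem : e ∈ tdiff lam F ↔ e ∈ tdiff lam G := by
    constructor
    · rintro ⟨η, h1, h2, h3, h4⟩
      have h5 : η + 1 < lam := by
        rw [← Order.succ_eq_add_one]
        exact hlam.succ_lt h1
      exact ⟨η, h1, h2, (hFG η h1).1 h3, fun h => h4 ((hFG _ h5).2 h)⟩
    · rintro ⟨η, h1, h2, h3, h4⟩
      have h5 : η + 1 < lam := by
        rw [← Order.succ_eq_add_one]
        exact hlam.succ_lt h1
      exact ⟨η, h1, h2, (hFG η h1).2 h3, fun h => h4 ((hFG _ h5).1 h)⟩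
  rw [← hFeq] at hmem
  by_cases h : e ∈ tdiff lam G
  · exact (hmem.2 h) h
  · exact h (hmem.1 h)

end P2

end Pool.Agent.MP106504
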